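import Pool.Agent.W5h86.CC.Mix

set_option autoImplicit false
set_option linter.unusedSectionVars false
set_option linter.unusedSimpArgs false
set_option linter.unusedVariables false

/-!
# Abelian varieties with maximal real multiplication: the assembly
-/

open Module Polynomial Function TensorProduct

noncomputable section

namespace Pool.Agent.W5h86.CC

open Pool.Agent.Y102 Pool.Agent.W516.DR Pool.Agent.W516.KC Pool.Agent.H204R3.SP Pool.Agent.W5h86.LY
open Pool.Agent.W5h86.LX Pool.Agent.H204R3.GP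

/-- the torus of the field is simple -/
def STor (p : ℚ[X]) : Prop :=
  ∀ f : ℚ[X], f.comp (-X) = -f → ¬ p ∣ f → ∀ n : ℂ →₀ ℤ,
    (∀ z ∈ n.support, aeval z p = 0) →
    n.sum (fun z k => (k : ℂ) * aeval z f) = 0 → ∀ z, n z = n (-z)

/-- the field contains no imaginary quadratic field -/
def NQuad (p : ℚ[X]) : Prop :=
  ∀ (q : ℚ[X]) (c : ℚ), q.comp (-X) = -q → p ∣ q ^ 2 - C c → p ∣ q

/-- The formulation without multiplicities. -/
theorem STor.odd {p : ℚ[X]} (h : STor p) {f : ℚ[X]} (hf : f.comp (-X) = -f)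
    (hf0 : ¬ p ∣ f) {κ : Type} [Fintype κ] (x : κ → ℂ)
    (hx : ∀ k, aeval (x k) p = 0) (hsum : ∑ k, aeval (x k) f = 0)
    (h' : ℂ → ℂ) (hodd : ∀ z, h' (-z) = -h' z) : ∑ k, h' (x k) = 0 := by
  classical
  let n : ℂ →₀ ℤ := ∑ k, Finsupp.single (x k) 1
  have hn : ∀ F : ℂ → ℂ, n.sum (fun z k => (k : ℂ) * F z) = ∑ k, F (x k) := by
    intro F
    simp only [n]
    rw [← Finsupp.sum_finsetSum_index (fun z => by rw [Int.cast_zero, zero_mul])
      (fun z a b => by rw [Int.cast_add, add_mul])]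
    refine Finset.sum_congr rfl fun k _ => ?_
    rw [Finsupp.sum_single_index (by rw [Int.cast_zero, zero_mul]), Int.cast_one, one_mul]
  have hsupp : ∀ z ∈ n.support, aeval z p = 0 := by
    intro z hz
    have h1 : n.support ⊆ Finset.univ.biUnion fun k => (Finsupp.single (x k) (1 : ℤ)).support :=
      Finsupp.support_finsetSum
    obtain ⟨k, -, hk⟩ := Finset.mem_biUnion.1 (h1 hz)
    have h2 := Finsupp.support_single_subset hk
    rw [Finset.mem_singleton] at h2
    rw [h2]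
    exact hx k
  have h1 := h f hf hf0 n hsupp (by rw [hn]; exact hsum)
  have h2 : n.sum (fun z k => (k : ℂ) * h' z) = -n.sum (fun z k => (k : ℂ) * h' z) := by
    rw [Finsupp.sum, ← Finset.sum_neg_distrib]
    refine Finset.sum_bij (fun z _ => -z) (fun z hz => ?_) (fun a _ b _ hab => neg_injective hab)
      (fun z hz => ⟨-z, ?_, neg_neg z⟩) fun z _ => ?_
    · rw [Finsupp.mem_support_iff] at hz ⊢
      rwa [← h1]
    · rw [Finsupp.mem_support_iff] at hz ⊢
      rwa [← h1]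
    · rw [hodd, ← h1 z]
      ring
  rw [hn] at h2
  have h3 : (2 : ℂ) * ∑ k, h' (x k) = 0 := by linear_combination h2
  exact (mul_eq_zero.1 h3).resolve_left two_ne_zero

lemma odd_eval {f : ℚ[X]} (hf : f.comp (-X) = -f) (z : ℂ) : aeval (-z) f = -aeval z f := by
  have h7 := congrArg (aeval z) hf
  rw [aeval_comp, map_neg, aeval_X, map_neg] at h7
  exact h7

/-- **Several factors.** The relations are trivial. -/
theorem rel_factors {μ : ℚ[X]} {r : ℕ} (p : Fin r → ℚ[X]) (hirr : ∀ i, Irreducible (p i))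
    (heven : ∀ i, (p i).comp (-X) = p i) (hfac : ∀ i, p i ∣ μ) (hdiv : μ ∣ X * ∏ i, p i)
    (hind : ∀ i, ∃ σ : ℂ ≃+* ℂ, (∀ z, aeval z (p i) = 0 → σ z = -z) ∧
      ∀ j, j ≠ i → ∀ z, aeval z (p j) = 0 → σ z = z) {m : ℕ} {full : Prop}
    (hcrit : ∀ i, STor (p i) ∨ ∃ b : ℕ, (p i).natDegree = 2 * b ∧ ConstW (p i) ∧
      (NQuad (p i) ∨ 2 * m < b ∨ (full ∧ (∀ j, j = i) ∧ Odd b ∧ m < b)))
    {κ : Type} [Fintype κ] (x : κ → ℂ) (hcard : Fintype.card κ ≤ 2 * m)
    (hfull : full → Fintype.card κ = 2 * m) (hx0 : ∀ k, x k ≠ 0) (hx : ∀ k, aeval (x k) μ = 0)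
    (hf : ∀ s s' : ℂ, aeval s μ = 0 → aeval s' μ = 0 → s ≠ 0 → s' ≠ 0 → s ≠ s' →
      ∃ f : ℚ[X], f.comp (-X) = -f ∧ aeval s f ≠ aeval s' f ∧ ∑ k, aeval (x k) f = 0)
    (h' : ℂ → ℂ) (hh : ∀ z, h' (-z) = -h' z) : ∑ k, h' (x k) = 0 := by
  classical
  have hidx : ∀ k, ∃ i, aeval (x k) (p i) = 0 := by
    intro k
    obtain ⟨q, hq⟩ := hdiv
    have h1 : aeval (x k) (X * ∏ i, p i) = 0 := by rw [hq, map_mul, hx, zero_mul]
    rw [map_mul, aeval_X, map_prod] at h1
    have h2 := (mul_eq_zero.1 h1).resolve_left (hx0 k)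
    obtain ⟨i, -, hi⟩ := Finset.prod_eq_zero_iff.1 h2
    exact ⟨i, hi⟩
  choose idx hidx using hidx
  have hneg : ∀ i, ∀ z : ℂ, aeval z (p i) = 0 → aeval (-z) (p i) = 0 := by
    intro i z hz
    have h1 := congrArg (aeval z) (heven i)
    rw [aeval_comp, map_neg, aeval_X] at h1
    rw [h1, hz]
  have hrootμ : ∀ i, ∀ z : ℂ, aeval z (p i) = 0 → aeval z μ = 0 := by
    intro i z hz
    obtain ⟨q, hq⟩ := hfac i
    rw [hq, map_mul, hz, zero_mul]
  -- the restriction to a factor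
  have hres : ∀ i, ∀ f : ℚ[X], f.comp (-X) = -f → ∑ k, aeval (x k) f = 0 →
      ∑ k : {k // idx k = i}, aeval (x k) f = 0 := by
    intro i f hfo hsum
    obtain ⟨σ, hσ1, hσ2⟩ := hind i
    have h1 : ∑ k, aeval (σ (x k)) f = 0 := by
      rw [Finset.sum_congr rfl fun k _ => aeval_ringEquiv σ f (x k), ← map_sum, hsum, map_zero]
    have h2 : ∑ k, (aeval (x k) f - aeval (σ (x k)) f) = 0 := by
      rw [Finset.sum_sub_distrib, hsum, h1, sub_zero]
    have h3 : ∀ k, aeval (x k) f - aeval (σ (x k)) f =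
        if idx k = i then 2 * aeval (x k) f else 0 := by
      intro k
      split_ifs with hk
      · rw [hσ1 _ (hk ▸ hidx k), odd_eval hfo]
        ring
      · rw [hσ2 _ hk _ (hidx k), sub_self]
    rw [Finset.sum_congr rfl fun k _ => h3 k, ← Finset.sum_filter, ← Finset.mul_sum] at h2
    have h4 := (mul_eq_zero.1 h2).resolve_left two_ne_zero
    rw [← h4]
    exact (Finset.sum_subtype (Finset.univ.filter fun k => idx k = i)
      (p := fun k => idx k = i) (fun k => by simp) (fun k => aeval (x k) f)).symm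
  -- every factor
  have hone : ∀ i, ∑ k : {k // idx k = i}, h' (x k) = 0 := by
    intro i
    have hroot : ∀ k : {k // idx k = i}, aeval (x k) (p i) = 0 := fun k => by
      have h1 := hidx k
      rw [k.2] at h1
      exact h1
    rcases hcrit i with hT | ⟨b, hdeg, hC, halt⟩
    · rcases isEmpty_or_nonempty {k // idx k = i} with he | ⟨⟨k0⟩⟩
      · exact Fintype.sum_empty _
      · have h1 := hroot k0
        have h2 : x k0 ≠ -x k0 := fun h => hx0 k0 (self_eq_neg.1 h)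
        obtain ⟨f, hf1, hf2, hf3⟩ := hf (x k0) (-x k0) (hrootμ i _ h1)
          (hrootμ i _ (hneg i _ h1)) (hx0 k0) (neg_ne_zero.2 (hx0 k0)) h2
        refine hT.odd hf1 (fun hd => ?_) (fun k : {k // idx k = i} => x k) hroot (hres i f hf1 hf3)
          h' hh
        obtain ⟨q, hq⟩ := hd
        have h3 : aeval (x k0) f = 0 := by rw [hq, map_mul, h1, zero_mul]
        apply hf2
        rw [odd_eval hf1, h3, neg_zero]
    · have hle : Fintype.card {k // idx k = i} ≤ 2 * m :=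
        (Fintype.card_subtype_le _).trans hcard
      refine rel_trivial2 (p i) (hirr i) hdeg (hneg i) hC ?_
        (fun k : {k // idx k = i} => x k) hroot (fun s s' hs hs' hne => ?_) h' hh
      · rcases halt with h1 | h1 | ⟨h1, h2, h3, h4⟩
        · exact Or.inr (Or.inr h1)
        · exact Or.inl (lt_of_le_of_lt hle h1)
        · have h5 : Fintype.card {k // idx k = i} = 2 * m := by
            rw [← hfull h1]
            exact Fintype.card_of_subtype Finset.univ
              (fun k => ⟨fun _ => h2 (idx k), fun _ => Finset.mem_univ _⟩)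
          refine Or.inr (Or.inl ⟨?_, h3, ?_⟩)
          · rw [h5]
            exact even_two_mul m
          · rw [h5]
            omega
      · obtain ⟨f, hf1, hf2, hf3⟩ := hf s s' (hrootμ i _ hs) (hrootμ i _ hs')
          (root_ne_zero (hirr i) hdeg s hs) (root_ne_zero (hirr i) hdeg s' hs') hne
        exact ⟨f, hf1, hf2, hres i f hf1 hf3⟩
  have h1 : ∑ k, h' (x k) = ∑ i, ∑ k : {k // idx k = i}, h' (x k) := by
    rw [← Finset.sum_fiberwise_of_maps_to (s := Finset.univ) (t := Finset.univ) (g := idx)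
      (fun _ _ => Finset.mem_univ _)]
    refine Finset.sum_congr rfl fun i _ => ?_
    exact Finset.sum_subtype (Finset.univ.filter fun k => idx k = i)
      (p := fun k => idx k = i) (fun k => by simp) (fun k => h' (x k))
  rw [h1]
  exact Finset.sum_eq_zero fun i _ => hone i

lemma kills_add9 {V : Type} [AddCommGroup V] [Module ℚ V] {κ : Type} [Fintype κ] [DecidableEq κ]
    {φ : MultilinearMap ℚ (fun _ : κ => V) ℚ} {Z Z' : Module.End ℚ V}
    (h : Kills Z φ) (h' : Kills Z' φ) : Kills (Z + Z') φ := by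
  intro v
  have h1 := h v
  have h2 := h' v
  simp only [LinearMap.add_apply, MultilinearMap.map_update_add, Finset.sum_add_distrib]
  rw [h1, h2, add_zero]

variable {g : ℕ}

/-- **The main theorem.** -/
theorem main9 (A : AbVar g) (P : Fin g → Module.End ℚ A.H1)
    (hP : ∀ i, IsDeRhamBettiEnd QBar A.dR (P i))
    (hcomm : ∀ i j, P i * P j = P j * P i) (hsym : ∀ i u v, A.om (P i u) v = A.om u (P i v))
    (hli : LinearIndependent ℚ P) {Y : Module.End ℚ A.H1} (hY : Y ∈ A.ZA)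
    (hgen : ∀ R ∈ A.ZA, R ∈ Algebra.adjoin ℚ {Y}) {r : ℕ} (p : Fin r → ℚ[X])
    (hirr : ∀ i, Irreducible (p i)) (heven : ∀ i, (p i).comp (-X) = p i)
    (hfac : ∀ i, p i ∣ minpoly ℚ Y) (hdiv : minpoly ℚ Y ∣ X * ∏ i, p i)
    (hind : ∀ i, ∃ σ : ℂ ≃+* ℂ, (∀ z, aeval z (p i) = 0 → σ z = -z) ∧
      ∀ j, j ≠ i → ∀ z, aeval z (p j) = 0 → σ z = z) {m : ℕ}
    (hcrit : ∀ i, STor (p i) ∨ ∃ b : ℕ, (p i).natDegree = 2 * b ∧ ConstW (p i) ∧
      (NQuad (p i) ∨ 2 * m < b ∨ (Function.Injective Y ∧ (∀ j, j = i) ∧ Odd b ∧ m < b)))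
    (φ : MultilinearMap ℚ (fun _ : Fin m × Fin 2 => A.H1) ℚ)
    (hφ : IsDeRhamBettiForm QBar A.dR tau m φ) :
    φ ∈ Submodule.span ℚ (AbVar.LefProd A A.EA m) ∧
      IsHodgeTensor (A.per : A.H1 →+ (Fin g → ℂ)) φ := by
  obtain ⟨e, he, -⟩ := AbVar.exists_adapted A.endAlg P (fun i => A.mem_EA.2 (hP i)) hcomm hsym hli
  obtain ⟨e', he', -, hn⟩ := AbVar.exists_normalized A.endAlg he
  suffices key : ∀ Z : Module.End ℚ A.H1, IsSkew A.om Z → (∀ Q ∈ A.EA, Z * Q = Q * Z) →
      Kills Z φ from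
    ⟨AbVar.lefschetz A.endAlg he' hn φ key, hodge_of_kills _ A.isRationalStructure _ fun Z hZ =>
      key Z (A.MA_skew hZ) fun Q hQ => A.MA_comm hZ (A.hodge_end (A.mem_EA.1 hQ))⟩
  intro Z hZ hZc
  obtain ⟨ε, hε, h0⟩ := A.exists_idem he
  have h1 := A.idem_mem he hε h0 hZ hZc
  have h2 := hε.comp Z hZ hZc
  have h3 : ε * Z + (1 - ε) * Z = Z := by rw [sub_mul, one_mul]; abel
  rw [← h3]
  refine kills_add9 (A.kills_of_mem hφ h1)
    (kills_mix A he hY hgen hφ (fun κ _ x hc hfull hx0 hx hf h' hh => ?_) h2)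
  exact rel_factors p hirr heven hfac hdiv hind hcrit x hc hfull hx0 hx hf h' hh

end Pool.Agent.W5h86.CC
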