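import Mathlib

/-!
# Enumeration of the roots of an even irreducible polynomial by a cyclic automorphism
-/

set_option autoImplicit false

open Polynomial

namespace Pool.Agent.W5h86.CC

lemma pow_eq_iter (τ : ℂ ≃+* ℂ) (n : ℕ) (z : ℂ) : (τ ^ n) z = (τ : ℂ → ℂ)^[n] z := by
  induction n generalizing z with
  | zero => rfl
  | succ n ih =>
    rw [pow_succ', Function.iterate_succ_apply', ← ih]
    rfl

lemma aeval_ringEquiv (τ : ℂ ≃+* ℂ) (p : ℚ[X]) (z : ℂ) : aeval (τ z) p = τ (aeval z p) := by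
  have := Polynomial.aeval_algHom_apply (τ : ℂ →+* ℂ).toRatAlgHom z p
  simpa using this

lemma aeval_iter (τ : ℂ ≃+* ℂ) (p : ℚ[X]) (z : ℂ) (hz : aeval z p = 0) (n : ℕ) :
    aeval ((τ : ℂ → ℂ)^[n] z) p = 0 := by
  induction n with
  | zero => simpa using hz
  | succ n ih =>
    rw [Function.iterate_succ_apply', aeval_ringEquiv, ih, map_zero]

lemma iter_sq (τ : ℂ ≃+* ℂ) (z : ℂ) (n : ℕ) :
    (τ : ℂ → ℂ)^[n] (z ^ 2) = ((τ : ℂ → ℂ)^[n] z) ^ 2 := by
  induction n with
  | zero => rfl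
  | succ n ih =>
    rw [Function.iterate_succ_apply', Function.iterate_succ_apply', ih, map_pow]

lemma iter_neg (τ : ℂ ≃+* ℂ) (z : ℂ) (n : ℕ) :
    (τ : ℂ → ℂ)^[n] (-z) = -((τ : ℂ → ℂ)^[n] z) := by
  induction n with
  | zero => rfl
  | succ n ih =>
    rw [Function.iterate_succ_apply', Function.iterate_succ_apply', ih, map_neg]

/-- the squares of the roots -/
lemma card_sq_eq {e : ℕ} (he : 1 ≤ e) (p : ℚ[X]) (hp : Irreducible p) (hdeg : p.natDegree = 2 * e)
    (hneg : ∀ z : ℂ, aeval z p = 0 → aeval (-z) p = 0) :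
    ((p.aroots ℂ).toFinset.image fun z => z ^ 2).card = e := by
  classical
  have hp0 : p ≠ 0 := hp.ne_zero
  have hmem : ∀ z : ℂ, z ∈ (p.aroots ℂ).toFinset ↔ aeval z p = 0 := by
    intro z
    rw [Multiset.mem_toFinset, Polynomial.mem_aroots]
    exact ⟨fun h => h.2, fun h => ⟨hp0, h⟩⟩
  have hzero : ∀ z : ℂ, aeval z p = 0 → z ≠ 0 := by
    intro z hz h0
    have hroot : p.IsRoot 0 := by
      have h1 : aeval (algebraMap ℚ ℂ 0) p = 0 := by
        rw [map_zero]; rw [h0] at hz; exact hz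
      rw [Polynomial.aeval_algebraMap_apply] at h1
      have h2 := (map_eq_zero (algebraMap ℚ ℂ)).1 h1
      simpa [Polynomial.IsRoot, Polynomial.coe_aeval_eq_eval] using h2
    have hd := Polynomial.degree_eq_one_of_irreducible_of_root hp hroot
    have hd' : p.natDegree = 1 := Polynomial.natDegree_eq_of_degree_eq_some (by simpa using hd)
    omega
  have hcard : (p.aroots ℂ).toFinset.card = 2 * e := by
    rw [← hdeg]
    have h1 := Polynomial.card_rootSet_eq_natDegree (K := ℂ) hp.separable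
      (IsAlgClosed.splits _)
    rw [← h1]
    unfold Polynomial.rootSet
    exact (Fintype.card_coe _).symm
  have h1 := Finset.card_eq_sum_card_image (fun z : ℂ => z ^ 2) (p.aroots ℂ).toFinset
  rw [hcard] at h1
  have h2 : ∀ b ∈ (p.aroots ℂ).toFinset.image (fun z : ℂ => z ^ 2),
      ((p.aroots ℂ).toFinset.filter fun a => a ^ 2 = b).card = 2 := by
    intro b hb
    obtain ⟨z, hz, rfl⟩ := Finset.mem_image.1 hb
    have hz' := (hmem z).1 hz
    have : (p.aroots ℂ).toFinset.filter (fun a => a ^ 2 = z ^ 2) = {z, -z} := by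
      ext a
      simp only [Finset.mem_filter, Finset.mem_insert, Finset.mem_singleton]
      constructor
      · rintro ⟨_, h⟩
        exact sq_eq_sq_iff_eq_or_eq_neg.1 h
      · rintro (rfl | rfl)
        · exact ⟨hz, rfl⟩
        · exact ⟨(hmem _).2 (hneg z hz'), by ring⟩
    rw [this]
    apply Finset.card_pair
    intro h
    apply hzero z hz'
    have : (2 : ℂ) * z = 0 := by linear_combination h
    simpa using this
  rw [Finset.sum_congr rfl h2, Finset.sum_const, smul_eq_mul] at h1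
  omega

theorem enum {l a : ℕ} (hl : l.Prime) (hodd : l ≠ 2) (p : Polynomial ℚ) (hp : Irreducible p)
    (hdeg : p.natDegree = 2 * l ^ (a + 1))
    (hneg : ∀ z : ℂ, Polynomial.aeval z p = 0 → Polynomial.aeval (-z) p = 0)
    (τ : ℂ ≃+* ℂ)
    (hcyc : ∀ s s' : ℂ, Polynomial.aeval s p = 0 → Polynomial.aeval s' p = 0 →
      ∃ n : ℕ, (τ ^ n) s = s' ∨ (τ ^ n) s = -s') :
    ∃ s : ℕ → ℂ, (∀ j, Polynomial.aeval (s j) p = 0) ∧ (∀ j, τ (τ (s j)) = s (j + 1)) ∧
      (∀ j, s (j + l ^ (a + 1)) = s j) ∧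
      (∀ i < l ^ (a + 1), ∀ j < l ^ (a + 1), s i ^ 2 = s j ^ 2 → i = j) ∧
      (∀ x : ℂ, Polynomial.aeval x p = 0 → ∃ j < l ^ (a + 1), x = s j ∨ x = -s j) := by
  classical
  obtain ⟨e, he⟩ : ∃ e, e = l ^ (a + 1) := ⟨_, rfl⟩
  rw [← he] at hdeg ⊢
  have hepos : 0 < e := by rw [he]; exact pow_pos hl.pos _
  have hloddd : Odd l := hl.odd_of_ne_two hodd
  have heodd : Odd e := by rw [he]; exact hloddd.pow
  have hp0 : p ≠ 0 := hp.ne_zero
  set f : ℂ → ℂ := (τ : ℂ → ℂ) with hf
  have hfinj : Function.Injective f := τ.injective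
  have hmem : ∀ z : ℂ, z ∈ (p.aroots ℂ).toFinset ↔ aeval z p = 0 := by
    intro z
    rw [Multiset.mem_toFinset, Polynomial.mem_aroots]
    exact ⟨fun h => h.2, fun h => ⟨hp0, h⟩⟩
  obtain ⟨s0, hs0⟩ : ∃ z : ℂ, aeval z p = 0 := by
    have : (p.map (algebraMap ℚ ℂ)).degree ≠ 0 := by
      rw [Polynomial.degree_map]
      intro h
      have h' : p.natDegree = 0 := Polynomial.natDegree_eq_of_degree_eq_some (by simpa using h)
      omega
    obtain ⟨z, hz⟩ := IsAlgClosed.exists_root _ this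
    refine ⟨z, ?_⟩
    rw [Polynomial.aeval_def, ← Polynomial.eval_map]
    exact hz
  -- all the squares are on the orbit
  have horb : ∀ x : ℂ, aeval x p = 0 → ∃ n : ℕ, f^[n] (s0 ^ 2) = x ^ 2 := by
    intro x hx
    obtain ⟨n, hn⟩ := hcyc s0 x hs0 hx
    refine ⟨n, ?_⟩
    rw [hf, iter_sq]
    rw [pow_eq_iter] at hn
    rcases hn with hn | hn
    · rw [hn]
    · rw [hn]; ring
  have hper : s0 ^ 2 ∈ Function.periodicPts f := by
    have h1 : aeval (τ s0) p = 0 := by rw [aeval_ringEquiv, hs0, map_zero]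
    obtain ⟨n, hn⟩ := hcyc (τ s0) s0 h1 hs0
    rw [pow_eq_iter] at hn
    refine ⟨n + 1, Nat.succ_pos n, ?_⟩
    show f^[n + 1] (s0 ^ 2) = s0 ^ 2
    rw [hf, iter_sq, Function.iterate_succ_apply]
    rcases hn with hn | hn
    · rw [hn]
    · rw [hn]; ring
  have hmin : Function.minimalPeriod f (s0 ^ 2) = e := by
    rw [← card_sq_eq hepos p hp hdeg hneg]
    have : (p.aroots ℂ).toFinset.image (fun z => z ^ 2) =
        (Finset.range (Function.minimalPeriod f (s0 ^ 2))).image fun n => f^[n] (s0 ^ 2) := by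
      ext y
      simp only [Finset.mem_image, Finset.mem_range]
      constructor
      · rintro ⟨x, hx, rfl⟩
        obtain ⟨n, hn⟩ := horb x ((hmem x).1 hx)
        refine ⟨n % Function.minimalPeriod f (s0 ^ 2),
          Nat.mod_lt _ (Function.minimalPeriod_pos_of_mem_periodicPts hper), ?_⟩
        rw [Function.iterate_mod_minimalPeriod_eq, hn]
      · rintro ⟨n, _, rfl⟩
        refine ⟨f^[n] s0, (hmem _).2 (aeval_iter τ p s0 hs0 n), ?_⟩
        rw [hf, iter_sq]
    rw [this, Finset.card_image_of_injOn, Finset.card_range]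
    intro i hi j hj hij
    simp only [Finset.coe_range, Set.mem_Iio] at hi hj
    exact Function.iterate_injOn_Iio_minimalPeriod hi hj hij
  have hmod : ∀ m n : ℕ, f^[m] (s0 ^ 2) = f^[n] (s0 ^ 2) ↔ m % e = n % e := by
    intro m n
    rw [← hmin]
    constructor
    · intro h
      rw [← Function.iterate_mod_minimalPeriod_eq (n := m),
        ← Function.iterate_mod_minimalPeriod_eq (n := n)] at h
      exact Function.iterate_injOn_Iio_minimalPeriod
        (Nat.mod_lt _ (Function.minimalPeriod_pos_of_mem_periodicPts hper))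
        (Nat.mod_lt _ (Function.minimalPeriod_pos_of_mem_periodicPts hper)) h
    · intro h
      rw [← Function.iterate_mod_minimalPeriod_eq (n := m),
        ← Function.iterate_mod_minimalPeriod_eq (n := n), h]
  have hcop : Nat.Coprime 2 e := (Nat.coprime_two_left).2 heodd
  refine ⟨fun j => f^[2 * j] s0, fun j => aeval_iter τ p s0 hs0 _, ?_, ?_, ?_, ?_⟩
  · intro j
    show f (f (f^[2 * j] s0)) = f^[2 * (j + 1)] s0
    rw [show 2 * (j + 1) = (2 * j + 1) + 1 by ring, Function.iterate_succ_apply',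
      Function.iterate_succ_apply']
  · intro j
    show f^[2 * (j + e)] s0 = f^[2 * j] s0
    have h1 : f^[e] s0 = s0 ∨ f^[e] s0 = -s0 := by
      apply sq_eq_sq_iff_eq_or_eq_neg.1
      rw [hf, ← iter_sq, ← hf]
      have := (hmod e 0).2 (by simp)
      simpa using this
    have h2 : f^[e] (f^[e] s0) = s0 := by
      rcases h1 with h1 | h1
      · rw [h1, h1]
      · rw [h1, hf, iter_neg, ← hf, h1, neg_neg]
    have h3 : 2 * (j + e) = 2 * j + (e + e) := by ring
    rw [h3, Function.iterate_add_apply, Function.iterate_add_apply (m := e), h2]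
  · intro i hi j hj hij
    simp only at hij
    rw [hf, ← iter_sq, ← iter_sq, ← hf, hmod] at hij
    have h1 : i ≡ j [MOD e] := Nat.ModEq.cancel_left_of_coprime (by
      rw [Nat.gcd_comm]; exact hcop) hij
    exact Nat.ModEq.eq_of_lt_of_lt h1 hi hj
  · intro x hx
    obtain ⟨n, hn⟩ := horb x hx
    obtain ⟨c, hc⟩ := heodd
    -- j = n * (c + 1) mod e, since 2 (c + 1) = e + 1
    refine ⟨(n * (c + 1)) % e, Nat.mod_lt _ hepos, ?_⟩
    apply sq_eq_sq_iff_eq_or_eq_neg.1
    show x ^ 2 = (f^[2 * ((n * (c + 1)) % e)] s0) ^ 2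
    rw [hf, ← iter_sq, ← hf, ← hn, hmod]
    have h1 : 2 * ((n * (c + 1)) % e) % e = (2 * (n * (c + 1))) % e := by
      rw [Nat.mul_mod, Nat.mod_mod, ← Nat.mul_mod]
    rw [h1]
    have h2 : 2 * (n * (c + 1)) = n + e * n := by
      rw [hc]; ring
    rw [h2, Nat.add_mul_mod_self_left]

end Pool.Agent.W5h86.CC
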