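import Pool.Agent.W5h86.CC.X

/-!
# An element of prime order in the Galois group with one long cycle
-/

namespace Pool.Agent.W5h86.CC

open Polynomial

/-- The degree divides the order of the Galois group. -/
lemma natDegree_dvd_card (p : ℚ[X]) (hp : Irreducible p) (hdeg : p.natDegree ≠ 0) (L : Type*)
    [Field L] [Algebra ℚ L] [IsSplittingField ℚ L p] : p.natDegree ∣ Nat.card (L ≃ₐ[ℚ] L) := by
  have h0 : p ≠ 0 := hp.ne_zero
  have hfd : FiniteDimensional ℚ L := IsSplittingField.finiteDimensional L p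
  have hN : Normal ℚ L := Normal.of_isSplittingField p
  have hG : IsGalois ℚ L := { }
  rw [IsGalois.card_aut_eq_finrank]
  have hne : p.degree ≠ 0 := by
    rw [degree_eq_natDegree h0]
    exact_mod_cast hdeg
  obtain ⟨x, hx⟩ := (IsSplittingField.splits L p).exists_eval_eq_zero
    (by rwa [degree_map])
  rw [eval_map_algebraMap] at hx
  have h3 : Module.finrank ℚ (IntermediateField.adjoin ℚ {x}) = p.natDegree := by
    rw [IntermediateField.adjoin.finrank (Algebra.IsIntegral.isIntegral x)]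
    have h4 := (minpoly.irreducible (Algebra.IsIntegral.isIntegral
      (R := ℚ) x)).dvd_irreducible_iff_associated hp
    exact natDegree_eq_of_degree_eq (degree_eq_degree_of_associated (h4.1 (minpoly.dvd _ _ hx)))
  have h5 := Module.finrank_mul_finrank ℚ (IntermediateField.adjoin ℚ {x}) L
  rw [h3] at h5
  exact ⟨_, h5.symm⟩

/-- An element of prime order which moves a given root. -/
lemma exists_moves {l : ℕ} (hl : l.Prime) (p : ℚ[X]) (hp : Irreducible p) (L : Type*)
    [Field L] [Algebra ℚ L] [IsSplittingField ℚ L p] (hdvd : l ∣ Nat.card (L ≃ₐ[ℚ] L)) (t : L)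
    (ht : aeval t p = 0) : ∃ τ : L ≃ₐ[ℚ] L, (∀ x, (⇑τ)^[l] x = x) ∧ τ t ≠ t := by
  have h0 : p ≠ 0 := hp.ne_zero
  have hfd : FiniteDimensional ℚ L := IsSplittingField.finiteDimensional L p
  have hN : Normal ℚ L := Normal.of_isSplittingField p
  have : Fact l.Prime := ⟨hl⟩
  obtain ⟨γ, hγ⟩ := exists_prime_orderOf_dvd_card' l hdvd
  have hex : ∃ x : L, aeval x p = 0 ∧ γ x ≠ x := by
    by_contra hcon
    push Not at hcon
    have h3 : γ = 1 := by
      have h4 : (γ : L →ₐ[ℚ] L) = AlgHom.id ℚ _ := by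
        refine AlgHom.ext_of_adjoin_eq_top (IsSplittingField.adjoin_rootSet L p) fun x hx => ?_
        rw [mem_rootSet_of_ne h0] at hx
        exact hcon x hx
      ext x
      exact DFunLike.congr_fun h4 x
    rw [h3, orderOf_one] at hγ
    exact hl.one_lt.ne hγ
  obtain ⟨x, hx, hne⟩ := hex
  have hmin : aeval t (minpoly ℚ x) = 0 := by
    have h4 := ((minpoly.irreducible (Algebra.IsIntegral.isIntegral
      (R := ℚ) x)).dvd_irreducible_iff_associated hp).1 (minpoly.dvd _ _ hx)
    obtain ⟨u, hu⟩ := h4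
    have h5 : minpoly ℚ x = p * ((u⁻¹ : ℚ[X]ˣ) : ℚ[X]) := by
      rw [← hu, mul_assoc, Units.mul_inv, mul_one]
    rw [h5, map_mul, ht, zero_mul]
  obtain ⟨β, hβ⟩ := minpoly.exists_algEquiv_of_root' (K := ℚ) (x := t) (y := x)
    (Algebra.IsAlgebraic.isAlgebraic x) hmin
  refine ⟨β * γ * β⁻¹, fun y => ?_, ?_⟩
  · have hpow : ∀ (n : ℕ) (y : L), ((β * γ * β⁻¹) ^ n) y = (⇑(β * γ * β⁻¹))^[n] y := by
      intro n y
      induction n with
      | zero => rfl
      | succ n ih => rw [pow_succ', Function.iterate_succ_apply', AlgEquiv.mul_apply, ih]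
    rw [← hpow, conj_pow, ← hγ, pow_orderOf_eq_one, mul_one, mul_inv_cancel]
    rfl
  · intro h
    apply hne
    have h4 : β⁻¹ t = x := by
      rw [← hβ]
      exact β.symm_apply_apply x
    rw [AlgEquiv.mul_apply, AlgEquiv.mul_apply, h4, ← hβ] at h
    exact β.injective h

/-- The squares of a moved root are pairwise different. -/
lemma sq_inj {l : ℕ} (hl : l.Prime) (hodd : l ≠ 2) {L : Type*} [Field L] (τ : L ≃+* L)
    (hτ : ∀ x, (⇑τ)^[l] x = x) {t : L} (ht : τ t ≠ t) :
    ∀ i < l, ∀ j < l, ((⇑τ)^[i] t) ^ 2 = ((⇑τ)^[j] t) ^ 2 → i = j := by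
  have hsq : ∀ (n : ℕ) (x : L), (⇑τ)^[n] (x ^ 2) = ((⇑τ)^[n] x) ^ 2 := by
    intro n x
    induction n with
    | zero => rfl
    | succ n ih => rw [Function.iterate_succ_apply', Function.iterate_succ_apply', ih, map_pow]
  have hneg : ∀ (n : ℕ) (x : L), (⇑τ)^[n] (-x) = -((⇑τ)^[n] x) := by
    intro n x
    induction n with
    | zero => rfl
    | succ n ih => rw [Function.iterate_succ_apply', Function.iterate_succ_apply', ih, map_neg]
  have hkey : ∀ i j : ℕ, i < j → j < l → ((⇑τ)^[i] t) ^ 2 ≠ ((⇑τ)^[j] t) ^ 2 := by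
    intro i j hij hj h
    obtain ⟨d, rfl⟩ := Nat.exists_eq_add_of_lt hij
    have h1 : (⇑τ)^[i] (t ^ 2) = (⇑τ)^[i] (((⇑τ)^[d + 1] t) ^ 2) := by
      rw [hsq, hsq, ← Function.iterate_add_apply]
      exact h
    have h2 : t ^ 2 = ((⇑τ)^[d + 1] t) ^ 2 := τ.injective.iterate i h1
    have h3 : (⇑τ)^[(d + 1) + (d + 1)] t = t := by
      rw [Function.iterate_add_apply]
      rcases sq_eq_sq_iff_eq_or_eq_neg.1 h2 with h4 | h4
      · rw [← h4, ← h4]
      · have h5 : (⇑τ)^[d + 1] t = -t := (neg_eq_iff_eq_neg.2 h4).symm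
        rw [h5, hneg, h5, neg_neg]
    have h6 : Function.minimalPeriod (⇑τ) t ∣ (d + 1) + (d + 1) :=
      Function.IsPeriodicPt.minimalPeriod_dvd h3
    have h7 : Function.minimalPeriod (⇑τ) t ∣ l := Function.IsPeriodicPt.minimalPeriod_dvd (hτ t)
    rcases (Nat.dvd_prime hl).1 h7 with h8 | h8
    · exact ht (Function.minimalPeriod_eq_one_iff_isFixedPt.1 h8)
    · rw [h8, ← two_mul] at h6
      rcases (Nat.Prime.dvd_mul hl).1 h6 with h9 | h9
      · exact hodd ((Nat.prime_dvd_prime_iff_eq hl Nat.prime_two).1 h9)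
      · exact absurd (Nat.le_of_dvd (Nat.succ_pos d) h9) (by omega)
  intro i hi j hj h
  rcases lt_trichotomy i j with h1 | h1 | h1
  · exact absurd h (hkey i j h1 hj)
  · exact h1
  · exact absurd h.symm (hkey j i h1 hi)

/-- **An automorphism of prime order with one long cycle up to the sign.** -/
theorem exists_long {l g : ℕ} (hl : l.Prime) (hodd : l ≠ 2) (hg : g < 2 * l)
    (p : Polynomial ℚ) (hp : Irreducible p) (hdeg : p.natDegree = 2 * g)
    (hneg : ∀ z : ℂ, Polynomial.aeval z p = 0 → Polynomial.aeval (-z) p = 0)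
    (hdvd : l = g ∨ l ∣ Nat.card p.Gal) (t : ℂ) (ht : Polynomial.aeval t p = 0) :
    ∃ (τ : ℂ ≃+* ℂ) (s : ℕ → ℂ), s 0 = t ∧ (∀ j, Polynomial.aeval (s j) p = 0) ∧
      (∀ j, τ (s j) = s (j + 1)) ∧ (∀ j, s (j + l) = s j) ∧
      (∀ i < l, ∀ j < l, s i ^ 2 = s j ^ 2 → i = j) ∧
      (∀ x : ℂ, Polynomial.aeval x p = 0 → (∀ j, x ≠ s j ∧ x ≠ -s j) → τ x = x) := by
  classical
  have h0 : p ≠ 0 := hp.ne_zero
  have hd0 : p.natDegree ≠ 0 := by
    intro h
    have h1 := hp.natDegree_pos
    omega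
  obtain ⟨L, _, _, _, hcard⟩ : ∃ (L : Type) (_ : Field L) (_ : Algebra ℚ L),
      IsSplittingField ℚ L p ∧ Nat.card (L ≃ₐ[ℚ] L) = Nat.card p.Gal :=
    ⟨p.SplittingField, inferInstance, _, IsSplittingField.splittingField p, rfl⟩
  have hfd : FiniteDimensional ℚ L := IsSplittingField.finiteDimensional L p
  have hdvd' : l ∣ Nat.card (L ≃ₐ[ℚ] L) := by
    rcases hdvd with h | h
    · have h1 := natDegree_dvd_card p hp hd0 L
      rw [hdeg, ← h] at h1
      exact (Dvd.intro_left 2 rfl).trans h1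
    · rwa [hcard]
  let j : L →ₐ[ℚ] ℂ := IsAlgClosed.lift
  have hj : Function.Injective j := j.injective
  have hj0 : ∀ x, aeval (j x) p = 0 ↔ aeval x p = 0 := by
    intro x
    rw [aeval_algHom_apply, map_eq_zero]
  have hroot : ∀ z : ℂ, aeval z p = 0 → ∃ x, aeval x p = 0 ∧ j x = z := by
    intro z hz
    have h3 : z ∈ j '' (p.rootSet L) := by
      rw [(IsSplittingField.splits L p).image_rootSet j, mem_rootSet_of_ne h0]
      exact hz
    obtain ⟨x, hx, rfl⟩ := h3
    exact ⟨x, (mem_rootSet_of_ne h0).1 hx, rfl⟩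
  obtain ⟨t, ht', rfl⟩ := hroot t ht
  obtain ⟨τ, hτ, hne⟩ := exists_moves hl p hp L hdvd' t ht'
  have hnegL : ∀ z : L, aeval z p = 0 → aeval (-z) p = 0 := by
    intro z hz
    rw [← hj0, map_neg]
    exact hneg _ ((hj0 z).2 hz)
  have hrootL : ∀ (n : ℕ) (x : L), aeval x p = 0 → aeval ((⇑τ)^[n] x) p = 0 := by
    intro n
    induction n with
    | zero => exact fun x hx => hx
    | succ n ih =>
      intro x hx
      rw [Function.iterate_succ_apply']
      have h3 := ih x hx
      have h4 := (aeval_algHom_apply (τ : L →ₐ[ℚ] L) ((⇑τ)^[n] x) p)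
      rw [h3, map_zero] at h4
      exact h4
  have hnegit : ∀ (n : ℕ) (x : L), (⇑τ)^[n] (-x) = -((⇑τ)^[n] x) := by
    intro n x
    induction n with
    | zero => rfl
    | succ n ih => rw [Function.iterate_succ_apply', Function.iterate_succ_apply', ih, map_neg]
  have h00 : ∀ x : L, aeval x p = 0 → x ≠ 0 := by
    rintro x hx rfl
    have hX : X ∣ p := by
      rw [X_dvd_iff]
      rw [← coeff_zero_eq_aeval_zero'] at hx
      exact (map_eq_zero _).1 hx
    have h3 := (irreducible_X.dvd_irreducible_iff_associated hp).1 hX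
    have h4 := natDegree_eq_of_degree_eq (degree_eq_degree_of_associated h3)
    rw [natDegree_X] at h4
    omega
  -- the roots outside of the cycle are fixed
  have hfix : ∀ x : L, aeval x p = 0 → (∀ n, x ≠ (⇑τ)^[n] t ∧ x ≠ -((⇑τ)^[n] t)) → τ x = x := by
    intro x hx hout
    by_contra hx2
    have i1 := sq_inj hl hodd (τ : L ≃+* L) hτ hne
    have i2 := sq_inj hl hodd (τ : L ≃+* L) hτ hx2
    have hA : ((Finset.range l).image fun i => ((⇑τ)^[i] t) ^ 2).card = l := by
      rw [Finset.card_image_of_injOn, Finset.card_range]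
      intro i hi k hk hik
      exact i1 i (Finset.mem_range.1 (Finset.mem_coe.1 hi)) k
        (Finset.mem_range.1 (Finset.mem_coe.1 hk)) hik
    have hB : ((Finset.range l).image fun i => ((⇑τ)^[i] x) ^ 2).card = l := by
      rw [Finset.card_image_of_injOn, Finset.card_range]
      intro i hi k hk hik
      exact i2 i (Finset.mem_range.1 (Finset.mem_coe.1 hi)) k
        (Finset.mem_range.1 (Finset.mem_coe.1 hk)) hik
    have hdisj : Disjoint ((Finset.range l).image fun i => ((⇑τ)^[i] t) ^ 2)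
        ((Finset.range l).image fun i => ((⇑τ)^[i] x) ^ 2) := by
      rw [Finset.disjoint_left]
      intro y hy1 hy2
      obtain ⟨i, hi, rfl⟩ := Finset.mem_image.1 hy1
      obtain ⟨k, hk, h1⟩ := Finset.mem_image.1 hy2
      have hk' := Finset.mem_range.1 hk
      have h2 : ∀ z : L, (⇑τ)^[k] x = z → x = (⇑τ)^[l - k] z := by
        rintro z rfl
        rw [← Function.iterate_add_apply, Nat.sub_add_cancel hk'.le, hτ]
      rcases sq_eq_sq_iff_eq_or_eq_neg.1 h1 with h3 | h3
      · have h4 := h2 _ h3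
        rw [← Function.iterate_add_apply] at h4
        exact (hout _).1 h4
      · have h4 := h2 _ h3
        rw [hnegit, ← Function.iterate_add_apply] at h4
        exact (hout _).2 h4
    have hsub : ((Finset.range l).image fun i => ((⇑τ)^[i] t) ^ 2) ∪
        ((Finset.range l).image fun i => ((⇑τ)^[i] x) ^ 2) ⊆
        (p.rootSet L).toFinset.image fun x => x ^ 2 := by
      intro y hy
      rcases Finset.mem_union.1 hy with hy | hy
      · obtain ⟨i, _, rfl⟩ := Finset.mem_image.1 hy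
        refine Finset.mem_image_of_mem (fun x => x ^ 2) ?_
        rw [Set.mem_toFinset, mem_rootSet_of_ne h0]
        exact hrootL i t ht'
      · obtain ⟨i, _, rfl⟩ := Finset.mem_image.1 hy
        refine Finset.mem_image_of_mem (fun x => x ^ 2) ?_
        rw [Set.mem_toFinset, mem_rootSet_of_ne h0]
        exact hrootL i x hx
    have hle := (Finset.card_le_card hsub).trans (card_sq p h0 h00 hdeg hnegL)
    rw [Finset.card_union_of_disjoint hdisj, hA, hB] at hle
    omega
  obtain ⟨T, hT⟩ := Pool.Agent.H977R3.CM.exists_aut (j : L →+* ℂ) (τ : L ≃+* L)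
  have hT' : ∀ x : L, T (j x) = j (τ x) := hT
  refine ⟨T, fun n => j ((⇑τ)^[n] t), rfl, fun n => (hj0 _).2 (hrootL n t ht'), fun n => ?_,
    fun n => ?_, fun i hi k hk h => ?_, fun x hx hout => ?_⟩
  · rw [hT', ← Function.iterate_succ_apply' (⇑τ)]
  · change j ((⇑τ)^[n + l] t) = j ((⇑τ)^[n] t)
    rw [Function.iterate_add_apply, hτ]
  · rw [← map_pow, ← map_pow] at h
    exact sq_inj hl hodd (τ : L ≃+* L) hτ hne i hi k hk (hj h)
  · obtain ⟨y, hy, rfl⟩ := hroot x hx
    rw [hT', hfix y hy fun n => ⟨fun h => (hout n).1 (by rw [h]), fun h => (hout n).2 (by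
      rw [h, map_neg])⟩]

end Pool.Agent.W5h86.CC
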