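import Pool.Agent.W5h86.CC.Y2
import Pool.Agent.W5h86.CC.E
import Pool.Agent.W5h86.CC.X2
import Pool.Agent.W5h86.CC.F
import Pool.Agent.W5h86.CC.W

set_option autoImplicit false

/-!
# Short relations between the conjugates are trivial: Galois groups with a long cycle
-/

open Polynomial

namespace Pool.Agent.W5h86.CC

section Weights

variable {κ : Type} [Fintype κ] (x : κ → ℂ)

open Classical in
/-- the number of the indices `k` with `x k = a` -/
noncomputable def cnt (a : ℂ) : ℤ := ∑ k, if x k = a then 1 else 0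

/-- the weight of `a` in the relation -/
noncomputable def wt (a : ℂ) : ℤ := cnt x a - cnt x (-a)

lemma wt_neg (a : ℂ) : wt x (-a) = -wt x a := by
  unfold wt
  rw [neg_neg]
  ring

lemma cnt_nonneg (a : ℂ) : 0 ≤ cnt x a := by
  classical
  unfold cnt
  exact Finset.sum_nonneg fun k _ => by split_ifs <;> norm_num

lemma abs_wt_le (a : ℂ) : |wt x a| ≤ cnt x a + cnt x (-a) := by
  have h1 := cnt_nonneg x a
  have h2 := cnt_nonneg x (-a)
  unfold wt
  rw [abs_le]
  constructor <;> linarith

lemma even_wt (a : ℂ) : Even (cnt x a + cnt x (-a) - |wt x a|) := by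
  rcases abs_choice (wt x a) with h | h
  · rw [h]
    refine ⟨cnt x (-a), ?_⟩
    unfold wt
    ring
  · rw [h]
    refine ⟨cnt x a, ?_⟩
    unfold wt
    ring

/-- The sum of the values of an odd function, as a sum over representatives. -/
lemma sum_on (T : Finset ℂ) (hT : ∀ a ∈ T, ∀ b ∈ T, a ^ 2 = b ^ 2 → a = b) (G : ℂ → ℂ)
    (hG : ∀ z, G (-z) = -G z) (hc : ∀ k, (∃ a ∈ T, x k = a ∨ x k = -a) ∨ G (x k) = 0) :
    ∑ k, G (x k) = ∑ a ∈ T, (wt x a : ℂ) * G a := by
  classical
  have h1 : ∀ a : ℂ, (wt x a : ℂ) * G a =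
      ∑ k, ((if x k = a then (1 : ℂ) else 0) - (if x k = -a then (1 : ℂ) else 0)) * G a := by
    intro a
    rw [← Finset.sum_mul]
    congr 1
    unfold wt cnt
    rw [Int.cast_sub, Int.cast_sum, Int.cast_sum, ← Finset.sum_sub_distrib]
    refine Finset.sum_congr rfl fun k _ => ?_
    congr 1 <;> split_ifs <;> simp
  rw [Finset.sum_congr rfl fun a _ => h1 a, Finset.sum_comm]
  refine Finset.sum_congr rfl fun k _ => ?_
  by_cases hk : ∃ a ∈ T, x k = a ∨ x k = -a
  · obtain ⟨a, ha, hxa⟩ := hk
    rw [Finset.sum_eq_single a]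
    · rcases hxa with h | h
      · by_cases h' : x k = -a
        · have h2 : G a = 0 := by
            have h3 : G (-a) = -G a := hG a
            rw [← h', h] at h3
            exact self_eq_neg.1 h3
          rw [h, h2, mul_zero]
        · rw [if_pos h, if_neg h', sub_zero, one_mul, h]
      · by_cases h' : x k = a
        · have h2 : G a = 0 := by
            have h3 : G (-a) = -G a := hG a
            rw [← h, h'] at h3
            exact self_eq_neg.1 h3
          rw [h', h2, mul_zero]
        · rw [if_neg h', if_pos h, zero_sub, neg_one_mul, h, hG]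
    · intro b hb hba
      have h2 : x k ≠ b := by
        intro h3
        apply hba
        refine hT b hb a ha ?_
        rcases hxa with h | h
        · rw [← h3, h]
        · rw [← h3, h, neg_sq]
      have h4 : x k ≠ -b := by
        intro h3
        apply hba
        refine hT b hb a ha ?_
        have h5 : b = -x k := by rw [h3, neg_neg]
        rcases hxa with h | h
        · rw [h5, h, neg_sq]
        · rw [h5, h, neg_neg]
      rw [if_neg h2, if_neg h4, sub_zero, zero_mul]
    · intro h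
      exact absurd ha h
  · have h0 : G (x k) = 0 := (hc k).resolve_left hk
    rw [h0]
    symm
    refine Finset.sum_eq_zero fun a ha => ?_
    have h2 : x k ≠ a := fun h => hk ⟨a, ha, Or.inl h⟩
    have h3 : x k ≠ -a := fun h => hk ⟨a, ha, Or.inr h⟩
    rw [if_neg h2, if_neg h3, sub_zero, zero_mul]

/-- The total number. -/
lemma sum_cnt (T : Finset ℂ) (hT : ∀ a ∈ T, ∀ b ∈ T, a ^ 2 = b ^ 2 → a = b)
    (h0 : ∀ a ∈ T, a ≠ 0) (hc : ∀ k, ∃ a ∈ T, x k = a ∨ x k = -a) :
    ∑ a ∈ T, (cnt x a + cnt x (-a)) = Fintype.card κ := by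
  classical
  have h1 : ∀ a : ℂ, cnt x a + cnt x (-a) =
      ∑ k, ((if x k = a then (1 : ℤ) else 0) + (if x k = -a then (1 : ℤ) else 0)) := by
    intro a
    unfold cnt
    rw [← Finset.sum_add_distrib]
  rw [Finset.sum_congr rfl fun a _ => h1 a, Finset.sum_comm]
  have h2 : ∀ k : κ, ∑ a ∈ T, ((if x k = a then (1 : ℤ) else 0) +
      (if x k = -a then (1 : ℤ) else 0)) = 1 := by
    intro k
    obtain ⟨a, ha, hxa⟩ := hc k
    rw [Finset.sum_eq_single a]
    · have h3 : a ≠ -a := fun h => h0 a ha (self_eq_neg.1 h)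
      rcases hxa with h | h
      · rw [if_pos h, if_neg (by rw [h]; exact h3), add_zero]
      · rw [if_neg (by rw [h]; exact h3.symm), if_pos h, zero_add]
    · intro b hb hba
      have h3 : x k ≠ b := by
        intro h3
        apply hba
        refine hT b hb a ha ?_
        rcases hxa with h | h
        · rw [← h3, h]
        · rw [← h3, h, neg_sq]
      have h4 : x k ≠ -b := by
        intro h3
        apply hba
        refine hT b hb a ha ?_
        have h5 : b = -x k := by rw [h3, neg_neg]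
        rcases hxa with h | h
        · rw [h5, h, neg_sq]
        · rw [h5, h, neg_neg]
      rw [if_neg h3, if_neg h4, add_zero]
    · intro h
      exact absurd ha h
  rw [Finset.sum_congr rfl fun k _ => h2 k]
  simp

end Weights

section Roots

variable {p : ℚ[X]}

lemma root_ne_zero {g : ℕ} (hp : Irreducible p) (hdeg : p.natDegree = 2 * g) (z : ℂ)
    (hz : aeval z p = 0) : z ≠ 0 := by
  intro h0
  have hroot : p.IsRoot 0 := by
    have h1 : aeval (algebraMap ℚ ℂ 0) p = 0 := by
      rw [map_zero]; rw [h0] at hz; exact hz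
    rw [Polynomial.aeval_algebraMap_apply] at h1
    have h2 := (map_eq_zero (algebraMap ℚ ℂ)).1 h1
    simpa [Polynomial.IsRoot, Polynomial.coe_aeval_eq_eval] using h2
  have hd := Polynomial.degree_eq_one_of_irreducible_of_root hp hroot
  have hd' : p.natDegree = 1 := Polynomial.natDegree_eq_of_degree_eq_some (by simpa using hd)
  omega

/-- The absolute value of the weight of a relation is constant. -/
theorem abs_wt_const {l g : ℕ} (hl : l.Prime) (hodd : l ≠ 2) (hg : g < 2 * l) (hgpos : 1 ≤ g)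
    (hp : Irreducible p) (hdeg : p.natDegree = 2 * g)
    (hneg : ∀ z : ℂ, aeval z p = 0 → aeval (-z) p = 0)
    (hdvd : l = g ∨ l ∣ Nat.card p.Gal) {κ : Type} [Fintype κ]
    (x : κ → ℂ) (hx : ∀ k, aeval (x k) p = 0)
    (hf : ∀ s s' : ℂ, aeval s p = 0 → aeval s' p = 0 → s ≠ s' →
      ∃ f : ℚ[X], f.comp (-X) = -f ∧ aeval s f ≠ aeval s' f ∧ ∑ k, aeval (x k) f = 0)
    (t t' : ℂ) (ht : aeval t p = 0) (ht' : aeval t' p = 0) : |wt x t| = |wt x t'| := by
  classical
  have hp0 : p ≠ 0 := hp.ne_zero
  have hl3 : 1 < l := hl.one_lt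
  have hmem : ∀ z : ℂ, z ∈ (p.aroots ℂ).toFinset ↔ aeval z p = 0 := by
    intro z
    rw [Multiset.mem_toFinset, Polynomial.mem_aroots]
    exact ⟨fun h => h.2, fun h => ⟨hp0, h⟩⟩
  set Sq : Finset ℂ := (p.aroots ℂ).toFinset.image fun z => z ^ 2 with hSq
  have hSqc : Sq.card = g := card_sq_eq hgpos p hp hdeg hneg
  have hSqm : ∀ z : ℂ, aeval z p = 0 → z ^ 2 ∈ Sq := fun z hz =>
    Finset.mem_image.2 ⟨z, (hmem z).2 hz, rfl⟩
  -- the weight is constant on the long cycles
  have hcyc : ∀ (τ : ℂ ≃+* ℂ) (s : ℕ → ℂ), (∀ j, aeval (s j) p = 0) →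
      (∀ j, τ (s j) = s (j + 1)) → (∀ j, s (j + l) = s j) →
      (∀ i < l, ∀ j < l, s i ^ 2 = s j ^ 2 → i = j) →
      (∀ y : ℂ, aeval y p = 0 → (∀ j, y ≠ s j ∧ y ≠ -s j) → τ y = y) →
      ∀ j < l, wt x (s j) = wt x (s 0) := by
    intro τ s hs hτ hper hinj hfix
    have hne : s 1 ≠ s 0 := by
      intro h
      have h1 := hinj 1 hl3 0 hl.pos (by rw [h])
      omega
    obtain ⟨f, hf1, hf2, hf3⟩ := hf _ _ (hs 1) (hs 0) hne
    have hfodd : ∀ z : ℂ, aeval (-z) f = -aeval z f := by
      intro z
      have h7 := congrArg (aeval z) hf1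
      rw [aeval_comp, map_neg, aeval_X, map_neg] at h7
      exact h7
    have hfτ : ∀ z : ℂ, aeval (τ z) f = τ (aeval z f) := fun z => aeval_ringEquiv τ f z
    have hsum0 : ∑ k, (aeval (τ (x k)) f - aeval (x k) f) = 0 := by
      rw [Finset.sum_sub_distrib, hf3, sub_zero, Finset.sum_congr rfl fun k _ => hfτ (x k),
        ← map_sum, hf3, map_zero]
    have hmod : ∀ j, s j = s (j % l) := by
      intro j
      have h1 : ∀ q r : ℕ, s (r + l * q) = s r := by
        intro q r
        induction q with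
        | zero => rw [mul_zero, add_zero]
        | succ q ih => rw [mul_add, mul_one, ← add_assoc, hper, ih]
      have h2 := h1 (j / l) (j % l)
      rw [Nat.mod_add_div] at h2
      exact h2
    have hinjS : Set.InjOn s (Finset.range l : Set ℕ) := by
      intro i hi j hj hij
      rw [Finset.coe_range, Set.mem_Iio] at hi hj
      exact hinj i hi j hj (by rw [hij])
    have h1 := sum_on x ((Finset.range l).image s) (by
      intro a ha b hb hab
      obtain ⟨i, hi, rfl⟩ := Finset.mem_image.1 ha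
      obtain ⟨j, hj, rfl⟩ := Finset.mem_image.1 hb
      rw [hinj i (Finset.mem_range.1 hi) j (Finset.mem_range.1 hj) hab])
      (fun z => aeval (τ z) f - aeval z f) (fun z => by
        rw [map_neg, hfodd, hfodd]
        ring) (fun k => by
        by_cases hk : ∃ a ∈ (Finset.range l).image s, x k = a ∨ x k = -a
        · exact Or.inl hk
        · right
          have h2 : τ (x k) = x k := by
            refine hfix _ (hx k) fun j => ?_
            have h3 : s j ∈ (Finset.range l).image s := by
              rw [hmod j]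
              exact Finset.mem_image_of_mem _ (Finset.mem_range.2 (Nat.mod_lt _ hl.pos))
            exact ⟨fun h => hk ⟨_, h3, Or.inl h⟩, fun h => hk ⟨_, h3, Or.inr h⟩⟩
          rw [h2, sub_self])
    rw [hsum0, Finset.sum_image hinjS] at h1
    refine const_cycle hl (fun j => aeval (s j) f) (τ : ℂ →+* ℂ) (fun j => ?_) (fun j => ?_) hf2
      (fun j => wt x (s j)) ?_
    · rw [← hτ j]
      exact (hfτ (s j)).symm
    · rw [hper]
    · rw [h1]
      refine Finset.sum_congr rfl fun j _ => ?_
      rw [hτ j]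
  -- the absolute value of the weight is constant
  obtain ⟨τ, s, hs0, hs, hτ, hper, hinj, hfix⟩ :=
    exists_long hl hodd hg p hp hdeg hneg hdvd t ht
  obtain ⟨τ', s', hs0', hs', hτ', hper', hinj', hfix'⟩ :=
    exists_long hl hodd hg p hp hdeg hneg hdvd t' ht'
  have hA : ((Finset.range l).image fun j => s j ^ 2).card = l := by
    rw [Finset.card_image_of_injOn, Finset.card_range]
    intro i hi j hj hij
    rw [Finset.coe_range, Set.mem_Iio] at hi hj
    exact hinj i hi j hj hij
  have hA' : ((Finset.range l).image fun j => s' j ^ 2).card = l := by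
    rw [Finset.card_image_of_injOn, Finset.card_range]
    intro i hi j hj hij
    rw [Finset.coe_range, Set.mem_Iio] at hi hj
    exact hinj' i hi j hj hij
  have hsub : ((Finset.range l).image fun j => s j ^ 2) ∪
      ((Finset.range l).image fun j => s' j ^ 2) ⊆ Sq := by
    intro y hy
    rcases Finset.mem_union.1 hy with h | h
    · obtain ⟨j, _, rfl⟩ := Finset.mem_image.1 h
      exact hSqm _ (hs j)
    · obtain ⟨j, _, rfl⟩ := Finset.mem_image.1 h
      exact hSqm _ (hs' j)
  have hnd : ¬ Disjoint ((Finset.range l).image fun j => s j ^ 2)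
      ((Finset.range l).image fun j => s' j ^ 2) := by
    intro hd
    have h1 := Finset.card_le_card hsub
    rw [Finset.card_union_of_disjoint hd, hA, hA', hSqc] at h1
    omega
  rw [Finset.not_disjoint_iff] at hnd
  obtain ⟨y, hy1, hy2⟩ := hnd
  obtain ⟨i, hi, hiy⟩ := Finset.mem_image.1 hy1
  obtain ⟨j, hj, hjy⟩ := Finset.mem_image.1 hy2
  have h1 := hcyc τ s hs hτ hper hinj hfix i (Finset.mem_range.1 hi)
  have h2 := hcyc τ' s' hs' hτ' hper' hinj' hfix' j (Finset.mem_range.1 hj)
  rw [hs0] at h1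
  rw [hs0'] at h2
  have h3 : s i = s' j ∨ s i = -s' j := sq_eq_sq_iff_eq_or_eq_neg.1 (by
    rw [hiy, hjy])
  rw [← h1, ← h2]
  rcases h3 with h3 | h3
  · rw [h3]
  · rw [h3, wt_neg, abs_neg]

/-- The absolute value of the weight of every relation is constant. -/
def ConstW (p : ℚ[X]) : Prop :=
  ∀ (κ : Type) [Fintype κ] (x : κ → ℂ), (∀ k, aeval (x k) p = 0) →
    (∀ s s' : ℂ, aeval s p = 0 → aeval s' p = 0 → s ≠ s' →
      ∃ f : ℚ[X], f.comp (-X) = -f ∧ aeval s f ≠ aeval s' f ∧ ∑ k, aeval (x k) f = 0) →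
    ∀ t t' : ℂ, aeval t p = 0 → aeval t' p = 0 → |wt x t| = |wt x t'|

theorem constW_of_long {l g : ℕ} (hl : l.Prime) (hodd : l ≠ 2) (hg : g < 2 * l) (hgpos : 1 ≤ g)
    (hp : Irreducible p) (hdeg : p.natDegree = 2 * g)
    (hneg : ∀ z : ℂ, aeval z p = 0 → aeval (-z) p = 0)
    (hdvd : l = g ∨ l ∣ Nat.card p.Gal) : ConstW p :=
  fun _ _ x hx hf t t' ht ht' => abs_wt_const hl hodd hg hgpos hp hdeg hneg hdvd x hx hf t t' ht ht'

lemma one_le_of_irr {g : ℕ} (hp : Irreducible p) (hdeg : p.natDegree = 2 * g) : 1 ≤ g := by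
  rcases Nat.eq_zero_or_pos g with h | h
  · exfalso
    rw [h, mul_zero] at hdeg
    exact hp.not_isUnit (Polynomial.isUnit_iff_degree_eq_zero.2
      (by rw [Polynomial.degree_eq_natDegree hp.ne_zero, hdeg]; rfl))
  · exact h

end Roots

/-- Relations between the values of an odd polynomial at the roots are trivial if they are short, or
if there is no quadratic subfield. -/
theorem rel_trivial2 {g : ℕ} (p : ℚ[X])
    (hp : Irreducible p) (hdeg : p.natDegree = 2 * g)
    (hneg : ∀ z : ℂ, aeval z p = 0 → aeval (-z) p = 0)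
    (hC : ConstW p) {κ : Type} [Fintype κ]
    (hm : Fintype.card κ < g ∨ (Even (Fintype.card κ) ∧ Odd g ∧ Fintype.card κ < 2 * g) ∨
      ∀ (q : ℚ[X]) (c : ℚ), q.comp (-X) = -q → p ∣ q ^ 2 - C c → p ∣ q)
    (x : κ → ℂ) (hx : ∀ k, aeval (x k) p = 0)
    (hf : ∀ s s' : ℂ, aeval s p = 0 → aeval s' p = 0 → s ≠ s' →
      ∃ f : ℚ[X], f.comp (-X) = -f ∧ aeval s f ≠ aeval s' f ∧ ∑ k, aeval (x k) f = 0)
    (h' : ℂ → ℂ) (hh : ∀ z, h' (-z) = -h' z) : ∑ k, h' (x k) = 0 := by
  classical
  have hp0 : p ≠ 0 := hp.ne_zero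
  have hgpos : 1 ≤ g := by
    rcases Nat.eq_zero_or_pos g with h | h
    · exfalso
      rw [h, mul_zero] at hdeg
      exact hp.not_isUnit (Polynomial.isUnit_iff_degree_eq_zero.2
        (by rw [Polynomial.degree_eq_natDegree hp0, hdeg]; rfl))
    · exact h
  have hzero : ∀ z : ℂ, aeval z p = 0 → z ≠ 0 := fun z hz => root_ne_zero hp hdeg z hz
  have hmem : ∀ z : ℂ, z ∈ (p.aroots ℂ).toFinset ↔ aeval z p = 0 := by
    intro z
    rw [Multiset.mem_toFinset, Polynomial.mem_aroots]
    exact ⟨fun h => h.2, fun h => ⟨hp0, h⟩⟩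
  set Sq : Finset ℂ := (p.aroots ℂ).toFinset.image fun z => z ^ 2 with hSq
  have hSqc : Sq.card = g := card_sq_eq hgpos p hp hdeg hneg
  have hSqm : ∀ z : ℂ, aeval z p = 0 → z ^ 2 ∈ Sq := fun z hz =>
    Finset.mem_image.2 ⟨z, (hmem z).2 hz, rfl⟩
  -- representatives
  have hrep : ∀ y : ℂ, ∃ z : ℂ, y ∈ Sq → aeval z p = 0 ∧ z ^ 2 = y := by
    intro y
    by_cases hy : y ∈ Sq
    · obtain ⟨z, hz, hzy⟩ := Finset.mem_image.1 hy
      exact ⟨z, fun _ => ⟨(hmem z).1 hz, hzy⟩⟩
    · exact ⟨0, fun h => absurd h hy⟩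
  choose c hc using hrep
  set T : Finset ℂ := Sq.image c with hTdef
  have hTroot : ∀ a ∈ T, aeval a p = 0 := by
    intro a ha
    obtain ⟨y, hy, rfl⟩ := Finset.mem_image.1 ha
    exact (hc y hy).1
  have hTinj : ∀ a ∈ T, ∀ b ∈ T, a ^ 2 = b ^ 2 → a = b := by
    intro a ha b hb hab
    obtain ⟨y, hy, rfl⟩ := Finset.mem_image.1 ha
    obtain ⟨y', hy', rfl⟩ := Finset.mem_image.1 hb
    rw [(hc y hy).2, (hc y' hy').2] at hab
    rw [hab]
  have hTcard : T.card = g := by
    rw [hTdef, Finset.card_image_of_injOn, hSqc]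
    intro y hy y' hy' hyy
    have h1 := (hc y hy).2
    have h2 := (hc y' hy').2
    rw [← h1, ← h2]
    exact congrArg (fun z => z ^ 2) hyy
  have hTcov : ∀ k, ∃ a ∈ T, x k = a ∨ x k = -a := by
    intro k
    refine ⟨c (x k ^ 2), Finset.mem_image_of_mem _ (hSqm _ (hx k)), ?_⟩
    exact sq_eq_sq_iff_eq_or_eq_neg.1 (hc _ (hSqm _ (hx k))).2.symm
  have hconst : ∀ t t' : ℂ, aeval t p = 0 → aeval t' p = 0 → |wt x t| = |wt x t'| :=
    fun t t' ht ht' => hC κ x hx hf t t' ht ht'
  -- the conclusion
  have hall : ∀ a ∈ T, wt x a = 0 := by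
    by_contra hcon
    push Not at hcon
    obtain ⟨a0, ha0, hne⟩ := hcon
    have h1 : ∑ a ∈ T, |wt x a| = g * |wt x a0| := by
      rw [Finset.sum_congr rfl fun a ha => hconst a a0 (hTroot a ha) (hTroot a0 ha0),
        Finset.sum_const, hTcard, nsmul_eq_mul]
    have h2 := sum_cnt x T hTinj (fun a ha => hzero a (hTroot a ha)) hTcov
    have h3 : ∑ a ∈ T, |wt x a| ≤ ∑ a ∈ T, (cnt x a + cnt x (-a)) :=
      Finset.sum_le_sum fun a _ => abs_wt_le x a
    have h4 : Even (∑ a ∈ T, (cnt x a + cnt x (-a)) - ∑ a ∈ T, |wt x a|) := by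
      rw [← Finset.sum_sub_distrib]
      exact Finset.even_sum _ fun a _ => even_wt x a
    rw [h2, h1] at h3 h4
    have h5 : 1 ≤ |wt x a0| := Int.one_le_abs hne
    have hg0 : (1 : ℤ) ≤ g := by exact_mod_cast hgpos
    rcases hm with hm | ⟨hev, hgo, hm⟩ | hm
    · have h6 : (Fintype.card κ : ℤ) < g := by exact_mod_cast hm
      nlinarith
    · have h6 : (Fintype.card κ : ℤ) < 2 * g := by exact_mod_cast hm
      have h7 : |wt x a0| < 2 := by
        by_contra h8
        push Not at h8
        nlinarith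
      have h8 : |wt x a0| = 1 := by omega
      rw [h8, mul_one] at h4
      have h9 : Even ((g : ℕ) : ℤ) := by
        have h10 : ((g : ℕ) : ℤ) = Fintype.card κ - (Fintype.card κ - g) := by ring
        rw [h10]
        exact (Even.sub (by exact_mod_cast hev) h4)
      rw [Int.even_coe_nat] at h9
      exact (Nat.not_even_iff_odd.2 hgo) h9
    · have hk : 0 < |wt x a0| := by omega
      have hsgn : ∀ σ : ℂ ≃+* ℂ, (∀ z, aeval z p = 0 → wt x (σ z) = wt x z) ∨
          (∀ z, aeval z p = 0 → wt x (σ z) = -wt x z) := by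
        intro σ
        have hσroot : ∀ z, aeval z p = 0 → aeval (σ z) p = 0 := fun z hz => by
          rw [aeval_ringEquiv, hz, map_zero]
        have hσroot' : ∀ z, aeval z p = 0 → aeval (σ.symm z) p = 0 := fun z hz => by
          rw [aeval_ringEquiv, hz, map_zero]
        have hcnt : ∀ a, cnt (Sum.elim x fun k => σ.symm (x k)) a = cnt x a + cnt x (σ a) := by
          intro a
          unfold cnt
          rw [Fintype.sum_sum_type]
          congr 1
          refine Finset.sum_congr rfl fun k _ => ?_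
          rw [Sum.elim_inr]
          congr 1
          rw [eq_iff_iff]
          exact σ.symm_apply_eq
        have hwt' : ∀ a, wt (Sum.elim x fun k => σ.symm (x k)) a = wt x a + wt x (σ a) := by
          intro a
          unfold wt
          rw [hcnt, hcnt, map_neg]
          ring
        have h11 : ∀ t t' : ℂ, aeval t p = 0 → aeval t' p = 0 →
            |wt x t + wt x (σ t)| = |wt x t' + wt x (σ t')| := by
          intro t t' ht ht'
          rw [← hwt', ← hwt']
          refine hC _ _ (fun k => ?_) (fun s s' hs hs' hss => ?_) t t' ht ht'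
          · rcases k with k | k
            · exact hx k
            · exact hσroot' _ (hx k)
          · obtain ⟨f, hf1, hf2, hf3⟩ := hf s s' hs hs' hss
            refine ⟨f, hf1, hf2, ?_⟩
            rw [Fintype.sum_sum_type]
            simp only [Sum.elim_inl, Sum.elim_inr]
            rw [hf3, zero_add, Finset.sum_congr rfl fun k _ => aeval_ringEquiv σ.symm f (x k),
              ← map_sum, hf3, map_zero]
        have h12 : ∀ t : ℂ, aeval t p = 0 → wt x (σ t) = wt x t ∨ wt x (σ t) = -wt x t := by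
          intro t ht
          exact abs_eq_abs.1 (hconst _ _ (hσroot t ht) ht)
        by_cases h13 : ∃ t, aeval t p = 0 ∧ wt x (σ t) = wt x t
        · obtain ⟨t1, ht1, ht1'⟩ := h13
          left
          intro t ht
          rcases h12 t ht with h14 | h14
          · exact h14
          · exfalso
            have h15 := h11 t t1 ht ht1
            rw [h14, ht1', add_neg_cancel, abs_zero, ← two_mul, abs_mul] at h15
            have h16 := hconst t1 a0 ht1 (hTroot a0 ha0)
            rw [h16] at h15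
            have h17 : |(2 : ℤ)| = 2 := rfl
            rw [h17] at h15
            omega
        · right
          intro t ht
          rcases h12 t ht with h14 | h14
          · exact absurd ⟨t, ht, h14⟩ h13
          · exact h14
      obtain ⟨q, c, hq1, hq2, hq3⟩ := exists_quad fixed_mem p hp hneg (wt x) (wt_neg x) a0
        (hTroot a0 ha0) hne hsgn
      exact hq3 (hm q c hq1 hq2)
  rw [sum_on x T hTinj h' hh fun k => Or.inl (hTcov k)]
  refine Finset.sum_eq_zero fun a ha => ?_
  rw [hall a ha, Int.cast_zero, zero_mul]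

end Pool.Agent.W5h86.CC
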