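import Pool.Agent.W5h86.CC.D0
import Pool.Agent.W5h86.CC.Z2

set_option autoImplicit false

/-!
# Relations between the conjugates: doubly transitive Galois groups
-/

open Polynomial

namespace Pool.Agent.W5h86.CC

/-- The absolute value of the weight is constant if the Galois group is doubly transitive on the
places and there is an imaginary quadratic subfield. -/
theorem constW_of_two {p : ℚ[X]} (hp : Irreducible p)
    (hneg : ∀ z : ℂ, aeval z p = 0 → aeval (-z) p = 0) {q0 : ℚ[X]} {c0 : ℚ}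
    (hq0 : q0.comp (-X) = -q0) (hqc : p ∣ q0 ^ 2 - C c0) (hqn : ¬ p ∣ q0)
    (h2 : ∀ s₁ s₂ t₁ t₂ : ℂ, aeval s₁ p = 0 → aeval s₂ p = 0 → aeval t₁ p = 0 → aeval t₂ p = 0 →
      s₁ ^ 2 ≠ s₂ ^ 2 → t₁ ^ 2 ≠ t₂ ^ 2 →
        ∃ σ : ℂ ≃+* ℂ, σ s₁ ^ 2 = t₁ ^ 2 ∧ σ s₂ ^ 2 = t₂ ^ 2) : ConstW p := by
  classical
  intro κ _ x hx hf t t' ht ht'
  have hp0 : p ≠ 0 := hp.ne_zero
  have hmem : ∀ z : ℂ, z ∈ (p.aroots ℂ).toFinset ↔ aeval z p = 0 := by
    intro z
    rw [Multiset.mem_toFinset, Polynomial.mem_aroots]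
    exact ⟨fun h => h.2, fun h => ⟨hp0, h⟩⟩
  have hodd : ∀ {f : ℚ[X]}, f.comp (-X) = -f → ∀ z : ℂ, aeval (-z) f = -aeval z f := by
    intro f hf z
    have h7 := congrArg (aeval z) hf
    rw [aeval_comp, map_neg, aeval_X, map_neg] at h7
    exact h7
  have hσroot : ∀ (σ : ℂ ≃+* ℂ) (z : ℂ), aeval z p = 0 → aeval (σ z) p = 0 := fun σ z hz => by
    rw [aeval_ringEquiv, hz, map_zero]
  set Sq : Finset ℂ := (p.aroots ℂ).toFinset.image fun z => z ^ 2 with hSq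
  have hSqm : ∀ z : ℂ, aeval z p = 0 → z ^ 2 ∈ Sq := fun z hz =>
    Finset.mem_image.2 ⟨z, (hmem z).2 hz, rfl⟩
  -- the values of `q0`
  set δ : ℂ := aeval t q0 with hδ
  have hval : ∀ z : ℂ, aeval z p = 0 → aeval z q0 ^ 2 = (c0 : ℂ) := by
    intro z hz
    obtain ⟨r, hr⟩ := hqc
    have h3 := congrArg (aeval z) hr
    rw [map_mul, hz, zero_mul, map_sub, map_pow, aeval_C, sub_eq_zero] at h3
    rw [h3]
    rfl
  have hδ0 : δ ≠ 0 := fun h => hqn (PW.dvd_of_root hp ht h)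
  have hval' : ∀ z : ℂ, aeval z p = 0 → aeval z q0 = δ ∨ aeval z q0 = -δ := by
    intro z hz
    apply sq_eq_sq_iff_eq_or_eq_neg.1
    rw [hval z hz, hδ, hval t ht]
  -- the representatives
  have hrep : ∀ y : {y // y ∈ Sq}, ∃ z : ℂ, aeval z p = 0 ∧ z ^ 2 = y.1 ∧ aeval z q0 = δ := by
    rintro ⟨y, hy⟩
    obtain ⟨z, hz, hzy⟩ := Finset.mem_image.1 hy
    have hz' := (hmem z).1 hz
    rcases hval' z hz' with h | h
    · exact ⟨z, hz', hzy, h⟩
    · refine ⟨-z, hneg z hz', ?_, ?_⟩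
      · rw [neg_sq]
        exact hzy
      · rw [hodd hq0, h, neg_neg]
  choose c hc1 hc2 hc3 using hrep
  have huniq : ∀ (z : ℂ) (y : {y // y ∈ Sq}), z ^ 2 = y.1 → aeval z q0 = δ → z = c y := by
    intro z y hz hzq
    have h3 : z = c y ∨ z = -c y := sq_eq_sq_iff_eq_or_eq_neg.1 (by rw [hz, hc2])
    rcases h3 with h3 | h3
    · exact h3
    · exfalso
      rw [h3, hodd hq0, hc3] at hzq
      exact hδ0 (neg_eq_self.1 hzq)
  -- the group
  let G : Subgroup (Equiv.Perm {y // y ∈ Sq}) :=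
    { carrier := {π | ∃ σ : ℂ ≃+* ℂ, ∀ y, (π y : ℂ) = σ y}
      mul_mem' := by
        rintro π π' ⟨σ, hσ⟩ ⟨σ', hσ'⟩
        refine ⟨σ * σ', fun y => ?_⟩
        rw [Equiv.Perm.mul_apply, hσ, hσ']
        rfl
      one_mem' := ⟨1, fun y => rfl⟩
      inv_mem' := by
        rintro π ⟨σ, hσ⟩
        refine ⟨σ.symm, fun y => ?_⟩
        have h3 := hσ (π⁻¹ y)
        have h4 : π (π⁻¹ y) = y := π.apply_symm_apply y
        rw [h4] at h3
        rw [h3]
        exact (σ.symm_apply_apply _).symm }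
  have hG : ∀ π : Equiv.Perm {y // y ∈ Sq}, π ∈ G ↔ ∃ σ : ℂ ≃+* ℂ, ∀ y, (π y : ℂ) = σ y :=
    fun π => Iff.rfl
  have hSqσ : ∀ (σ : ℂ ≃+* ℂ) (y : ℂ), y ∈ Sq → σ y ∈ Sq := by
    intro σ y hy
    obtain ⟨z, hz, hzy⟩ := Finset.mem_image.1 hy
    have h3 : y = z ^ 2 := hzy.symm
    rw [h3, map_pow]
    exact hSqm _ (hσroot σ z ((hmem z).1 hz))
  have hperm : ∀ σ : ℂ ≃+* ℂ, ∃ π ∈ G, ∀ y, (π y : ℂ) = σ y := by
    intro σ
    let π : Equiv.Perm {y // y ∈ Sq} :=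
      { toFun := fun y => ⟨σ y, hSqσ σ y y.2⟩
        invFun := fun y => ⟨σ.symm y, hSqσ σ.symm y y.2⟩
        left_inv := fun y => Subtype.ext (σ.symm_apply_apply _)
        right_inv := fun y => Subtype.ext (σ.apply_symm_apply _) }
    exact ⟨π, ⟨σ, fun y => rfl⟩, fun y => rfl⟩
  have htr1 : ∀ y y' : {y // y ∈ Sq}, ∃ γ ∈ G, γ y = y' := by
    intro y y'
    obtain ⟨σ, hσ⟩ := PW.exists_sigma hp (hc1 y) (hc1 y')
    obtain ⟨π, hπ, hπσ⟩ := hperm σ
    refine ⟨π, hπ, Subtype.ext ?_⟩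
    rw [hπσ, ← hc2 y, map_pow, hσ, hc2]
  have htr2 : ∀ y0 y y' : {y // y ∈ Sq}, y ≠ y0 → y' ≠ y0 → ∃ γ ∈ G, γ y0 = y0 ∧ γ y = y' := by
    intro y0 y y' hy hy'
    obtain ⟨σ, hσ1, hσ2⟩ := h2 (c y0) (c y) (c y0) (c y') (hc1 _) (hc1 _) (hc1 _) (hc1 _)
      (by rw [hc2, hc2]; exact fun h => hy (Subtype.ext h.symm))
      (by rw [hc2, hc2]; exact fun h => hy' (Subtype.ext h.symm))
    obtain ⟨π, hπ, hπσ⟩ := hperm σ
    refine ⟨π, hπ, Subtype.ext ?_, Subtype.ext ?_⟩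
    · rw [hπσ]
      rw [← map_pow, hc2] at hσ1
      exact hσ1
    · rw [hπσ]
      rw [← map_pow, hc2, hc2] at hσ2
      exact hσ2
  -- the relations
  let R : Submodule ℚ ({y // y ∈ Sq} → ℚ) :=
    { carrier := {v | ∀ f : ℚ[X], f.comp (-X) = -f → ∑ k, aeval (x k) f = 0 →
        ∑ y, (v y : ℂ) * aeval (c y) f = 0}
      add_mem' := by
        intro v v' hv hv' f h3 h4
        have h5 := hv f h3 h4
        have h6 := hv' f h3 h4
        simp only [Pi.add_apply, Rat.cast_add, add_mul, Finset.sum_add_distrib]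
        rw [h5, h6, add_zero]
      zero_mem' := by
        intro f _ _
        simp
      smul_mem' := by
        intro a v hv f h3 h4
        have h5 := hv f h3 h4
        simp only [Pi.smul_apply, smul_eq_mul, Rat.cast_mul, mul_assoc]
        rw [← Finset.mul_sum, h5, mul_zero] }
  have hR : ∀ v : {y // y ∈ Sq} → ℚ, v ∈ R ↔ ∀ f : ℚ[X], f.comp (-X) = -f →
      ∑ k, aeval (x k) f = 0 → ∑ y, (v y : ℂ) * aeval (c y) f = 0 := fun v => Iff.rfl
  have hRG : ∀ γ ∈ G, ∀ v ∈ R, (fun y => v (γ y)) ∈ R := by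
    rintro γ ⟨σ, hσ⟩ v hv f h3 h4
    have h5 := hv f h3 h4
    have h6 : ∃ ε : ℂ, ∀ y : {y // y ∈ Sq}, aeval (c y) f = ε * σ.symm (aeval (c (γ y)) f) := by
      have h7 : σ.symm δ = δ ∨ σ.symm δ = -δ := by
        have h8 := hval' (σ.symm t) (hσroot _ _ ht)
        rw [aeval_ringEquiv] at h8
        exact h8
      have h9 : ∀ y : {y // y ∈ Sq}, σ.symm (c (γ y)) ^ 2 = y.1 := by
        intro y
        rw [← map_pow, hc2, hσ, σ.symm_apply_apply]
      have h10 : ∀ y : {y // y ∈ Sq}, aeval (σ.symm (c (γ y))) q0 = σ.symm δ := by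
        intro y
        rw [aeval_ringEquiv, hc3]
      rcases h7 with h7 | h7
      · refine ⟨1, fun y => ?_⟩
        rw [one_mul, ← aeval_ringEquiv]
        rw [huniq _ y (h9 y) (by rw [h10, h7])]
      · refine ⟨-1, fun y => ?_⟩
        rw [← aeval_ringEquiv]
        have h11 := huniq (-σ.symm (c (γ y))) y (by rw [neg_sq]; exact h9 y)
          (by rw [hodd hq0, h10, h7, neg_neg])
        rw [← h11, hodd h3]
        ring
    obtain ⟨ε, hε⟩ := h6
    have h7 : ∑ y, ((v (γ y) : ℚ) : ℂ) * aeval (c y) f =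
        ε * σ.symm (∑ y, (v (γ y) : ℂ) * aeval (c (γ y)) f) := by
      rw [map_sum, Finset.mul_sum]
      refine Finset.sum_congr rfl fun y _ => ?_
      rw [hε y, map_mul, map_ratCast]
      ring
    rw [h7, Equiv.sum_comp γ (fun y => (v y : ℂ) * aeval (c y) f), h5, map_zero, mul_zero]
  have hcinj : Function.Injective c := by
    intro y y' h
    apply Subtype.ext
    rw [← hc2 y, ← hc2 y', h]
  have hv0 : (fun y : {y // y ∈ Sq} => ((wt x (c y) : ℤ) : ℚ)) ∈ R := by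
    rw [hR]
    intro f h3 h4
    have h5 := sum_on x (Finset.univ.image c) (by
      intro a ha b hb hab
      obtain ⟨y, _, rfl⟩ := Finset.mem_image.1 ha
      obtain ⟨y', _, rfl⟩ := Finset.mem_image.1 hb
      rw [hc2, hc2] at hab
      rw [Subtype.ext hab]) (fun z => aeval z f) (hodd h3) (fun k => by
        left
        refine ⟨c ⟨x k ^ 2, hSqm _ (hx k)⟩, Finset.mem_image_of_mem _ (Finset.mem_univ _), ?_⟩
        exact sq_eq_sq_iff_eq_or_eq_neg.1 (hc2 ⟨x k ^ 2, hSqm _ (hx k)⟩).symm)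
    rw [h4, Finset.sum_image fun y _ y' _ h => hcinj h] at h5
    rw [h5]
    refine Finset.sum_congr rfl fun y _ => ?_
    rw [Rat.cast_intCast]
  -- the conclusion
  by_contra hcon
  set yt : {y // y ∈ Sq} := ⟨t ^ 2, hSqm t ht⟩ with hyt
  set yt' : {y // y ∈ Sq} := ⟨t' ^ 2, hSqm t' ht'⟩ with hyt'
  have habs : ∀ (s : ℂ) (hs : aeval s p = 0), |wt x (c ⟨s ^ 2, hSqm s hs⟩)| = |wt x s| := by
    intro s hs
    have h3 : c ⟨s ^ 2, hSqm s hs⟩ = s ∨ c ⟨s ^ 2, hSqm s hs⟩ = -s :=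
      sq_eq_sq_iff_eq_or_eq_neg.1 (hc2 _)
    rcases h3 with h3 | h3
    · rw [h3]
    · rw [h3, wt_neg, abs_neg]
  have hne : ((wt x (c yt) : ℤ) : ℚ) ≠ ((wt x (c yt') : ℤ) : ℚ) := by
    intro h
    apply hcon
    rw [← habs t ht, ← habs t' ht']
    have h3 : wt x (c yt) = wt x (c yt') := by exact_mod_cast h
    rw [← hyt, ← hyt', h3]
  have hyne : yt ≠ yt' := fun h => hne (by rw [h])
  have h3 := aug_irred G htr1 htr2 R hRG hv0 (a := yt) (b := yt') hne yt yt'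
  obtain ⟨f, hf1, hf2, hf3⟩ := hf (c yt) (c yt') (hc1 _) (hc1 _) fun h => hyne (hcinj h)
  have h4 := (hR _).1 h3 f hf1 hf3
  have h5 : ∀ y0 : {y // y ∈ Sq}, ∑ y, (((Pi.single y0 1 : {y // y ∈ Sq} → ℚ) y : ℚ) : ℂ) *
      aeval (c y) f = aeval (c y0) f := by
    intro y0
    rw [Finset.sum_eq_single y0]
    · rw [Pi.single_eq_same, Rat.cast_one, one_mul]
    · intro y _ hy
      rw [Pi.single_eq_of_ne hy, Rat.cast_zero, zero_mul]
    · intro h
      exact absurd (Finset.mem_univ _) h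
  simp only [Pi.sub_apply, Rat.cast_sub, sub_mul, Finset.sum_sub_distrib] at h4
  rw [h5, h5, sub_eq_zero] at h4
  exact hf2 h4

end Pool.Agent.W5h86.CC
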