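import Pool.Agent.W5h86.CC.Av
import Pool.Agent.W5h86.RK.Gen
import Pool.Agent.W5h86.CC.Z2

set_option autoImplicit false

/-!
# The main theorem on abelian varieties with complex multiplication: long cycles in the Galois group
-/

open Module Polynomial Function

noncomputable section

namespace Pool.Agent.W5h86.CC

open Pool.Agent.Y102 Pool.Agent.W516.DR Pool.Agent.W516.KC Pool.Agent.H204R3.SP Pool.Agent.W5h86.LY
open Pool.Agent.W5h86.LX

variable {g : ℕ}

/-- an odd polynomial in the skew-symmetric endomorphism `P` is skew-symmetric -/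
lemma skew_odd (A : AbVar g) {P : Module.End ℚ A.H1} (hPs : IsSkew A.om P) {f : ℚ[X]}
    (hf : f.comp (-X) = -f) : IsSkew A.om (aeval P f) := by
  intro u v
  have h1 := A.aeval_adj hPs f u v
  have h2 : aeval (-P) f = -aeval P f := by
    have h3 := congrArg (aeval P) hf
    rw [aeval_comp, map_neg, aeval_X, map_neg] at h3
    exact h3
  rw [h2] at h1
  rw [h1, LinearMap.neg_apply, map_neg]
  ring

/-- **The main theorem.** -/
theorem main8 (A : AbVar g) {P : Module.End ℚ A.H1} (hP : P ∈ A.EA) (hPs : IsSkew A.om P)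
    (hEA : ∀ Q ∈ A.EA, Q ∈ Algebra.adjoin ℚ {P})
    (hsimple : ∀ Q ∈ A.EA, Q ≠ 0 → Function.Injective Q)
    (hdeg : (minpoly ℚ P).natDegree = 2 * g) (hC : 0 < g → ConstW (minpoly ℚ P)) {m : ℕ}
    (hm : 2 * m < g ∨ (Odd g ∧ m < g) ∨
      ∀ D ∈ A.EA, IsSkew A.om D → ∀ c : ℚ, D * D = c • (1 : Module.End ℚ A.H1) → D = 0)
    {φ : MultilinearMap ℚ (fun _ : Fin m × Fin 2 => A.H1) ℚ}
    (hφ : IsDeRhamBettiForm QBar A.dR tau m φ) {Z : Module.End ℚ A.H1} (hZ1 : IsSkew A.om Z)
    (hZ2 : Z * P = P * Z) : Kills Z φ := by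
  rcases Nat.eq_zero_or_pos g with hg0 | hg0
  · subst hg0
    intro v
    have hsub : Subsingleton A.H1 := ⟨fun a b => funext fun i => absurd i.2 (by omega)⟩
    refine Finset.sum_eq_zero fun k _ => ?_
    rw [Subsingleton.elim (Z (v k)) 0]
    exact φ.map_update_zero v k
  have hnt : Nontrivial A.H1 := by
    have : Nonempty (Fin (2 * g)) := ⟨⟨0, by omega⟩⟩
    exact Function.nontrivial
  have hadj : ∀ Q ∈ Algebra.adjoin ℚ {P}, Q ∈ A.EA := by
    intro Q hQ
    rw [Algebra.adjoin_singleton_eq_range_aeval] at hQ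
    obtain ⟨p, rfl⟩ := hQ
    exact A.aeval_mem hP p
  have hirr : Irreducible (minpoly ℚ P) :=
    Pool.Agent.W5h86.RK.irr_minpoly fun Q hQ hQ0 => hsimple Q (hadj Q hQ) hQ0
  have hneg : ∀ z : ℂ, aeval z (minpoly ℚ P) = 0 → aeval (-z) (minpoly ℚ P) = 0 :=
    fun z hz => AbVar.neg_root A hPs hz
  have hcard : Fintype.card (Fin m × Fin 2) = 2 * m := by
    rw [Fintype.card_prod, Fintype.card_fin, Fintype.card_fin, mul_comm]
  refine kills_rel A hP hPs hEA (fun x hx hsum h' hh => ?_)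
    (hadj Z (adjoin_of_comm A hP hsimple hdeg hZ2)) hZ1 (fun X hX => A.kills_of_mem hφ hX)
  refine rel_trivial2 _ hirr hdeg hneg (hC hg0) ?_ x hx (fun s s' hs hs' hne => ?_)
    h' hh
  · rcases hm with hm | hm | hm
    · exact Or.inl (by rw [hcard]; exact hm)
    · exact Or.inr (Or.inl ⟨by rw [hcard]; exact even_two_mul m, hm.1, by rw [hcard]; omega⟩)
    · refine Or.inr (Or.inr fun q c hq hqc => ?_)
      refine minpoly.dvd ℚ P ?_
      have h1 := minpoly.aeval ℚ P
      obtain ⟨r, hr⟩ := hqc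
      refine hm _ (A.aeval_mem hP q) (skew_odd A hPs hq) c ?_
      have h2 := congrArg (aeval P) hr
      rw [map_mul, h1, zero_mul, map_sub, map_pow, aeval_C, sub_eq_zero, pow_two] at h2
      rw [h2, Algebra.algebraMap_eq_smul_one]
  · obtain ⟨f, hf1, hf2, hf3⟩ := separate A hP hPs hEA hsimple hdeg hs hs' hne
    exact ⟨f, hf1, hf3, hsum f hf1 hf2⟩

end Pool.Agent.W5h86.CC
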