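import Pool.Agent.W5h86.CC.Z2

set_option autoImplicit false

/-!
# From relations between roots to relations with integral coefficients
-/

open Polynomial

namespace Pool.Agent.W5h86.CC

open Classical in
/-- From families of roots to relations with integral coefficients. -/
theorem stor_of_family {p : ℚ[X]} (hp0 : p ≠ 0)
    (hneg : ∀ z : ℂ, aeval z p = 0 → aeval (-z) p = 0)
    (h : ∀ (κ : Type) [Fintype κ] (x : κ → ℂ), (∀ k, aeval (x k) p = 0) → ∀ f : ℚ[X],
      f.comp (-X) = -f → ¬ p ∣ f → ∑ k, aeval (x k) f = 0 → ∀ t : ℂ, aeval t p = 0 → wt x t = 0)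
    (f : ℚ[X]) (hf : f.comp (-X) = -f) (hf0 : ¬ p ∣ f) (n : ℂ →₀ ℤ)
    (hn : ∀ z ∈ n.support, aeval z p = 0)
    (hsum : n.sum (fun z k => (k : ℂ) * aeval z f) = 0) (z : ℂ) : n z = n (-z) := by
  by_cases hz : aeval z p = 0
  swap
  · have h1 : n z = 0 := by
      by_contra h1
      exact hz (hn z (Finsupp.mem_support_iff.2 h1))
    have h2 : n (-z) = 0 := by
      by_contra h2
      have h3 := hneg _ (hn (-z) (Finsupp.mem_support_iff.2 h2))
      rw [neg_neg] at h3
      exact hz h3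
    rw [h1, h2]
  have hodd : ∀ a : ℂ, aeval (-a) f = -aeval a f := by
    intro a
    have h1 := congrArg (aeval a) hf
    rw [aeval_comp, map_neg, map_neg, aeval_X] at h1
    exact h1
  set R : Finset ℂ := (p.aroots ℂ).toFinset with hR
  have hmem : ∀ a : ℂ, a ∈ R ↔ aeval a p = 0 := by
    intro a
    rw [hR, Multiset.mem_toFinset, mem_aroots]
    exact ⟨fun h => h.2, fun h => ⟨hp0, h⟩⟩
  have hnegR : ∀ a ∈ R, -a ∈ R := fun a ha => (hmem _).2 (hneg a ((hmem a).1 ha))
  set w : ℂ → ℤ := fun a => n a - n (-a) with hw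
  have hwneg : ∀ a, w (-a) = -w a := by
    intro a
    simp only [hw, neg_neg]
    ring
  have hrefl : ∀ g : ℂ → ℂ, ∑ a ∈ R, g a = ∑ a ∈ R, g (-a) := by
    intro g
    refine Finset.sum_nbij' (fun a => -a) (fun a => -a) hnegR hnegR ?_ ?_ ?_
    · intro a _; simp
    · intro a _; simp
    · intro a _; simp
  let x : (Σ a : R, Fin (w a).toNat) → ℂ := fun k => (k.1 : ℂ)
  have hx : ∀ k, aeval (x k) p = 0 := fun k => (hmem _).1 k.1.2
  have hcnt : ∀ t ∈ R, cnt x t = (w t).toNat := by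
    intro t ht
    unfold cnt
    rw [Fintype.sum_sigma]
    have h1 : ∀ a : R, (∑ i : Fin (w a).toNat, if x ⟨a, i⟩ = t then (1 : ℤ) else 0) =
        if (a : ℂ) = t then ((w a).toNat : ℤ) else 0 := by
      intro a
      have h2 : ∀ i : Fin (w a).toNat, (if x ⟨a, i⟩ = t then (1 : ℤ) else 0) =
          if (a : ℂ) = t then (1 : ℤ) else 0 := fun i => rfl
      rw [Finset.sum_congr rfl fun i _ => h2 i, Finset.sum_const, Finset.card_univ,
        Fintype.card_fin, nsmul_eq_mul]
      split_ifs <;> simp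
    rw [Finset.sum_congr rfl fun a _ => h1 a,
      Finset.sum_coe_sort R (fun a : ℂ => if a = t then ((w a).toNat : ℤ) else 0),
      Finset.sum_ite_eq' R t, if_pos ht]
  have hsumx : ∑ k, aeval (x k) f = ∑ a ∈ R, (((w a).toNat : ℤ) : ℂ) * aeval a f := by
    rw [Fintype.sum_sigma, ← Finset.sum_coe_sort R]
    refine Finset.sum_congr rfl fun a _ => ?_
    have h2 : ∀ i : Fin (w a).toNat, aeval (x ⟨a, i⟩) f = aeval (a : ℂ) f := fun i => rfl
    rw [Finset.sum_congr rfl fun i _ => h2 i, Finset.sum_const, Finset.card_univ,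
      Fintype.card_fin, nsmul_eq_mul, Int.cast_natCast]
  have hn0 : ∑ a ∈ R, ((n a : ℤ) : ℂ) * aeval a f = 0 := by
    rw [← hsum]
    symm
    apply Finsupp.sum_of_support_subset
    · intro a ha
      exact (hmem a).2 (hn a ha)
    · intro a _
      simp
  have hzero : ∑ k, aeval (x k) f = 0 := by
    have h1 : ∑ a ∈ R, (((w a).toNat : ℤ) : ℂ) * aeval a f =
        -∑ a ∈ R, (((-w a).toNat : ℤ) : ℂ) * aeval a f := by
      rw [hrefl, ← Finset.sum_neg_distrib]
      refine Finset.sum_congr rfl fun a _ => ?_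
      rw [hwneg, hodd]
      ring
    have h2 : ∑ a ∈ R, (((w a).toNat : ℤ) : ℂ) * aeval a f -
        ∑ a ∈ R, (((-w a).toNat : ℤ) : ℂ) * aeval a f = 0 := by
      rw [← Finset.sum_sub_distrib]
      have h3 : ∀ a ∈ R, (((w a).toNat : ℤ) : ℂ) * aeval a f - (((-w a).toNat : ℤ) : ℂ) * aeval a f =
          ((n a : ℤ) : ℂ) * aeval a f - ((n (-a) : ℤ) : ℂ) * aeval a f := by
        intro a _
        rw [← sub_mul, ← sub_mul, ← Int.cast_sub, ← Int.cast_sub, Int.toNat_sub_toNat_neg]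
      rw [Finset.sum_congr rfl h3, Finset.sum_sub_distrib, hn0, hrefl]
      have h4 : ∀ a ∈ R, ((n (- -a) : ℤ) : ℂ) * aeval (-a) f = -(((n a : ℤ) : ℂ) * aeval a f) := by
        intro a _
        rw [neg_neg, hodd]
        ring
      rw [Finset.sum_congr rfl h4, Finset.sum_neg_distrib, hn0]
      simp
    rw [hsumx]
    have h5 : (2 : ℂ) * ∑ a ∈ R, (((w a).toNat : ℤ) : ℂ) * aeval a f = 0 := by
      linear_combination h1 + h2
    simpa using h5
  have h6 := h _ x hx f hf hf0 hzero z hz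
  unfold wt at h6
  rw [hcnt z ((hmem z).2 hz), hcnt (-z) (hnegR z ((hmem z).2 hz)), hwneg,
    Int.toNat_sub_toNat_neg] at h6
  simp only [hw] at h6
  linarith

end Pool.Agent.W5h86.CC
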