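import Pool.Agent.W5h86.CC.S3
import Pool.Agent.W5h86.CC.S2

set_option autoImplicit false

/-!
# Simple tori from a large prime number, part 3
-/

open Polynomial

namespace Pool.Agent.W5h86.CC

variable {p : ℚ[X]}

/-- If the real subfield has prime degree, or a Galois group with order divisible by a large prime
number, then the torus is simple unless there is an imaginary quadratic subfield. -/
theorem stor_of_long {l g : ℕ} (hl : l.Prime) (hodd : l ≠ 2) (hg : g < 2 * l)
    (hp : Irreducible p) (hdeg : p.natDegree = 2 * g)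
    (hneg : ∀ z : ℂ, aeval z p = 0 → aeval (-z) p = 0)
    (hdvd : l = g ∨ l ∣ Nat.card p.Gal) (hm : NQuad p) : STor p := by
  classical
  intro f hf hf0 n hn hsum z
  refine stor_of_family hp.ne_zero hneg ?_ f hf hf0 n hn hsum z
  intro κ _ x hx f hf hf0 hsum t _
  have h1 := rel_trivial3 hl hodd hg hp hdeg hneg hdvd hm hf hf0 x hx hsum
    (fun z => (if z = t then (1 : ℂ) else 0) - (if z = -t then (1 : ℂ) else 0)) (fun z => by
      have h2 : (-z = t) = (z = -t) := by rw [neg_eq_iff_eq_neg]
      have h3 : (-z = -t) = (z = t) := by rw [neg_inj]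
      simp only [h2, h3]
      ring)
  have h2 : (wt x t : ℂ) = 0 := by
    rw [← h1]
    unfold wt cnt
    rw [Int.cast_sub, Int.cast_sum, Int.cast_sum, ← Finset.sum_sub_distrib]
    refine Finset.sum_congr rfl fun k _ => ?_
    congr 1 <;> split_ifs <;> simp
  exact_mod_cast h2

end Pool.Agent.W5h86.CC
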