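import Mathlib

/-!
# The augmentation module of a doubly transitive group is irreducible over the rational numbers
-/

set_option autoImplicit false

namespace Pool.Agent.W5h86.CC

/-- Let `G` be a doubly transitive group of permutations of `Y` and `R` an invariant subspace of the
space of the rational functions on `Y`. If `R` contains a function which is not constant, then `R`
contains all the functions with sum zero. -/
theorem aug_irred {Y : Type} [Fintype Y] [DecidableEq Y] (G : Subgroup (Equiv.Perm Y))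
    (h1 : ∀ y y' : Y, ∃ γ ∈ G, γ y = y')
    (h2 : ∀ y0 y y' : Y, y ≠ y0 → y' ≠ y0 → ∃ γ ∈ G, γ y0 = y0 ∧ γ y = y')
    (R : Submodule ℚ (Y → ℚ)) (hR : ∀ γ ∈ G, ∀ v ∈ R, (fun y => v (γ y)) ∈ R)
    {v : Y → ℚ} (hv : v ∈ R) {a b : Y} (hab : v a ≠ v b) (y y' : Y) :
    (Pi.single y 1 - Pi.single y' 1 : Y → ℚ) ∈ R := by
  classical
  set n : ℚ := (Fintype.card Y : ℚ) with hn
  set S : ℚ := ∑ z, v z with hS
  -- some `y0` with `n v(y0) ≠ S`
  obtain ⟨y0, hy0⟩ : ∃ y0, n * v y0 ≠ S := by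
    by_contra hcon
    push Not at hcon
    have hn0 : n ≠ 0 := by
      rw [hn]
      have : 0 < Fintype.card Y := Fintype.card_pos_iff.2 ⟨a⟩
      exact_mod_cast this.ne'
    exact hab (mul_left_cancel₀ hn0 ((hcon a).trans (hcon b).symm))
  -- the stabiliser
  let H : Finset (Equiv.Perm Y) := Finset.univ.filter fun γ => γ ∈ G ∧ γ y0 = y0
  have hH : ∀ γ, γ ∈ H ↔ γ ∈ G ∧ γ y0 = y0 := fun γ => by simp [H]
  let u : Y → ℚ := fun z => ∑ h ∈ H, v (h z)
  have huR : u ∈ R := by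
    have e : u = ∑ h ∈ H, fun z => v (h z) := by
      funext z
      rw [Finset.sum_apply]
    rw [e]
    exact R.sum_mem fun h hh => hR h ((hH h).1 hh).1 v hv
  have hcard : (0 : ℚ) < H.card := by
    have : (1 : Equiv.Perm Y) ∈ H := (hH 1).2 ⟨G.one_mem, rfl⟩
    exact_mod_cast Finset.card_pos.2 ⟨1, this⟩
  have hu0 : u y0 = H.card * v y0 := by
    have : ∀ h ∈ H, v (h y0) = v y0 := fun h hh => by rw [((hH h).1 hh).2]
    show ∑ h ∈ H, v (h y0) = _
    rw [Finset.sum_congr rfl this, Finset.sum_const, nsmul_eq_mul]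
  have hu1 : ∀ z z', z ≠ y0 → z' ≠ y0 → u z = u z' := by
    intro z z' hz hz'
    obtain ⟨γ, hγG, hγ0, hγ⟩ := h2 y0 z z' hz hz'
    show ∑ h ∈ H, v (h z) = ∑ h ∈ H, v (h z')
    symm
    refine Finset.sum_bij' (fun h _ => h * γ) (fun h _ => h * γ⁻¹) ?_ ?_ ?_ ?_ ?_
    · intro h hh
      rw [hH] at hh ⊢
      exact ⟨G.mul_mem hh.1 hγG, by rw [Equiv.Perm.mul_apply, hγ0, hh.2]⟩
    · intro h hh
      rw [hH] at hh ⊢
      refine ⟨G.mul_mem hh.1 (G.inv_mem hγG), ?_⟩
      have h3 : γ⁻¹ y0 = y0 := by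
        rw [Equiv.Perm.inv_eq_iff_eq]
        exact hγ0.symm
      rw [Equiv.Perm.mul_apply, h3, hh.2]
    · intro h _
      simp
    · intro h _
      simp
    · intro h _
      rw [Equiv.Perm.mul_apply, hγ]
  have husum : ∑ z, u z = H.card * S := by
    show ∑ z, ∑ h ∈ H, v (h z) = _
    rw [Finset.sum_comm]
    have : ∀ h ∈ H, ∑ z, v (h z) = S := fun h _ => Equiv.sum_comp h v
    rw [Finset.sum_congr rfl this, Finset.sum_const, nsmul_eq_mul]
  -- u = β + α e_{y0}
  obtain ⟨c, hc⟩ : ∃ c : Y, c ≠ y0 := by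
    by_cases ha : a = y0
    · refine ⟨b, fun hb => hab (by rw [ha, hb])⟩
    · exact ⟨a, ha⟩
  have hsum2 : ∑ z, u z = u y0 + (n - 1) * u c := by
    rw [← Finset.add_sum_erase Finset.univ u (Finset.mem_univ y0)]
    congr 1
    have : ∀ z ∈ Finset.univ.erase y0, u z = u c := fun z hz =>
      hu1 z c (Finset.ne_of_mem_erase hz) hc
    rw [Finset.sum_congr rfl this, Finset.sum_const, Finset.card_erase_of_mem (Finset.mem_univ _),
      nsmul_eq_mul, Finset.card_univ]
    have hp : 1 ≤ Fintype.card Y := Fintype.card_pos_iff.2 ⟨a⟩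
    push_cast [Nat.cast_sub hp]
    rw [hn]
  have hα : u y0 - u c ≠ 0 := by
    intro h0
    have h3 : u c = u y0 := by linarith
    rw [h3] at hsum2
    have h4 : (H.card : ℚ) * S = n * (H.card * v y0) := by
      rw [← husum, hsum2, hu0]
      ring
    have h5 : (H.card : ℚ) * (n * v y0) = H.card * S := by linarith
    exact hy0 (mul_left_cancel₀ hcard.ne' h5)
  have hu : ∀ z, u z = u c + (u y0 - u c) * (if z = y0 then 1 else 0) := by
    intro z
    by_cases hz : z = y0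
    · rw [if_pos hz, hz]; ring
    · rw [if_neg hz, hu1 z c hz hc]; ring
  obtain ⟨γ, hγG, hγ⟩ := h1 y y0
  obtain ⟨γ', hγG', hγ'⟩ := h1 y' y0
  have hmem : (fun z => u (γ z)) - (fun z => u (γ' z)) ∈ R :=
    R.sub_mem (hR γ hγG u huR) (hR γ' hγG' u huR)
  have heq : (fun z => u (γ z)) - (fun z => u (γ' z)) =
      (u y0 - u c) • (Pi.single y 1 - Pi.single y' 1 : Y → ℚ) := by
    funext z
    have e1 : (γ z = y0) ↔ z = y := by rw [← hγ]; exact γ.injective.eq_iff
    have e2 : (γ' z = y0) ↔ z = y' := by rw [← hγ']; exact γ'.injective.eq_iff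
    simp only [Pi.sub_apply, Pi.smul_apply, smul_eq_mul, Pi.single_apply]
    rw [hu (γ z), hu (γ' z)]
    simp only [e1, e2]
    ring
  rw [heq] at hmem
  have h6 := R.smul_mem (u y0 - u c)⁻¹ hmem
  rwa [smul_smul, inv_mul_cancel₀ hα, one_smul] at h6

end Pool.Agent.W5h86.CC
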