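import Mathlib

/-!
# Roots of the minimal polynomial are eigenvalues in a diagonalising basis
-/

open Module TensorProduct Polynomial

namespace Pool.Agent.W5h86.CC

theorem exists_eigen {W : Type} [AddCommGroup W] [Module ℚ W] [FiniteDimensional ℚ W]
    (X : Module.End ℚ W) {n : ℕ} (b : Basis (Fin n) ℂ (ℂ ⊗[ℚ] W)) (c : Fin n → ℂ)
    (hb : ∀ i, X.baseChange ℂ (b i) = c i • b i) {s : ℂ} (hs : aeval s (minpoly ℚ X) = 0) :
    ∃ i, c i = s := by
  have h1 : minpoly ℚ X ∣ LinearMap.charpoly X := LinearMap.minpoly_dvd_charpoly X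
  have h2 : aeval s (LinearMap.charpoly X) = 0 := by
    obtain ⟨q, hq⟩ := h1
    rw [hq, map_mul, hs, zero_mul]
  have h3 : (LinearMap.charpoly (X.baseChange ℂ)).IsRoot s := by
    rw [LinearMap.charpoly_baseChange, Polynomial.IsRoot.def, Polynomial.eval_map_algebraMap]
    exact h2
  have h4 : Module.End.HasEigenvalue (X.baseChange ℂ : Module.End ℂ (ℂ ⊗[ℚ] W)) s :=
    (Module.End.hasEigenvalue_iff_isRoot_charpoly _ _).2 h3
  obtain ⟨v, hv⟩ := h4.exists_hasEigenvector
  have hv0 : v ≠ 0 := hv.2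
  have hvs : X.baseChange ℂ v = s • v := hv.apply_eq_smul
  have hr : b.repr v ≠ 0 := by
    intro h
    exact hv0 (b.repr.map_eq_zero_iff.1 h)
  obtain ⟨i, hi⟩ := Finsupp.ne_iff.1 hr
  refine ⟨i, ?_⟩
  have e1 : X.baseChange ℂ v = ∑ j, (b.repr v j * c j) • b j := by
    conv_lhs => rw [← b.sum_repr v]
    rw [map_sum]
    refine Finset.sum_congr rfl fun j _ => ?_
    rw [map_smul, hb, smul_smul]
  have e2 : b.repr (X.baseChange ℂ v) i = b.repr v i * c i := by
    rw [e1, b.repr_sum_self]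
  have e3 : b.repr (X.baseChange ℂ v) i = s * b.repr v i := by
    rw [hvs, map_smul]
    rfl
  rw [e2, mul_comm] at e3
  exact mul_right_cancel₀ (by simpa using hi) e3

end Pool.Agent.W5h86.CC
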