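import Pool.Agent.Y102.AV13

/-!
# Forms killed by the components of the complex structure are Hodge classes
-/

set_option autoImplicit false

namespace Pool.Agent.W5h86.CC

open Pool.Agent.Y102 Pool.Agent.W516.DR Pool.Agent.H204R3.SP Pool.Agent.H204R3.GP

/-- The converse of `AbVar.J_mem`: a form killed by the components of the complex structure is a
Hodge class. -/
theorem hodge_of_JJ {g : ℕ} (A : Pool.Agent.Y102.AbVar g) {m : ℕ}
    (φ : MultilinearMap ℚ (fun _ : Fin m × Fin 2 => A.H1) ℚ)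
    (h : ∀ f : ℝ →ₗ[ℚ] ℚ,
      Pool.Agent.H204R3.SP.Kills (A.cmpE f Pool.Agent.Y102.AbVar.JJ) φ) :
    IsHodgeTensor (A.per : A.H1 →+ (Fin g → ℂ)) φ := by
  refine ⟨A.Phi φ, fun v => A.Phi_per φ v, (invariant_iff (A.Phi φ)).2 fun u => ?_⟩
  exact A.Phi_kills φ AbVar.JJ (fun f v => h f v) u

end Pool.Agent.W5h86.CC
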