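import Pool.Agent.W5h86.CC.Av
import Pool.Agent.W5h86.CC.EV
import Pool.Agent.W5h86.CC.Z2
import Pool.Agent.Y102.AV12

set_option autoImplicit false
set_option linter.unusedSectionVars false
set_option linter.unusedSimpArgs false
set_option linter.unusedVariables false

/-!
# Abelian varieties with maximal real multiplication: the annihilation by the centre
-/

open Module Polynomial Function TensorProduct

noncomputable section

namespace Pool.Agent.W5h86.CC

open Pool.Agent.Y102 Pool.Agent.W516.DR Pool.Agent.W516.KC Pool.Agent.H204R3.SP Pool.Agent.W5h86.LY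
open Pool.Agent.W5h86.LX

variable {g : ℕ} (A : AbVar g)

/-- **The annihilation by the centre from the triviality of the relations.** -/
theorem kills_mix {e : Basis (Fin g) ℂ (Fin g → ℂ)} (he : AbVar.Adapted A.EA e)
    {X : Module.End ℚ A.H1} (hX : X ∈ A.ZA) (hgen : ∀ R ∈ A.ZA, R ∈ Algebra.adjoin ℚ {X}) {m : ℕ}
    {φ : MultilinearMap ℚ (fun _ : Fin m × Fin 2 => A.H1) ℚ}
    (hφ : IsDeRhamBettiForm QBar A.dR tau m φ)
    (hrel : ∀ (κ : Type) [Fintype κ] (x : κ → ℂ), Fintype.card κ ≤ 2 * m →
      (Function.Injective X → Fintype.card κ = 2 * m) → (∀ k, x k ≠ 0) →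
      (∀ k, aeval (x k) (minpoly ℚ X) = 0) →
      (∀ s s' : ℂ, aeval s (minpoly ℚ X) = 0 → aeval s' (minpoly ℚ X) = 0 → s ≠ 0 → s' ≠ 0 →
        s ≠ s' → ∃ f : ℚ[X], f.comp (-Polynomial.X) = -f ∧ aeval s f ≠ aeval s' f ∧
          ∑ k, aeval (x k) f = 0) →
      ∀ h' : ℂ → ℂ, (∀ z, h' (-z) = -h' z) → ∑ k, h' (x k) = 0)
    {R : Module.End ℚ A.H1} (hR : R ∈ A.ZA) : Kills R φ := by
  classical
  obtain ⟨f', hf', hfR⟩ := exists_odd A hX.2.1 (hgen _ hR) hR.2.1
  obtain ⟨n, b, χ, hb⟩ := A.exists_basis
  have hbf : ∀ (p : ℚ[X]) i, (aeval X p).baseChange ℂ (b i) =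
      aeval (χ i ⟨X, hX⟩) p • b i := by
    intro p i
    rw [← aeval_baseChange]
    exact AbVar.aeval_eigen (hb i ⟨X, hX⟩) p
  have hroot : ∀ i, aeval (χ i ⟨X, hX⟩) (minpoly ℚ X) = 0 := by
    intro i
    have h7 := hbf (minpoly ℚ X) i
    rw [minpoly.aeval, LinearMap.baseChange_zero, LinearMap.zero_apply] at h7
    exact (smul_eq_zero.1 h7.symm).resolve_right (b.ne_zero _)
  let β := Module.finBasis ℚ A.H1
  have hcmp : ∀ (lam : ℂ →ₗ[ℚ] ℚ) (Y : Module.End ℚ A.H1),
      Pool.Agent.W516.DR.cmpE lam (Y.baseChange ℂ) = lam 1 • Y := by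
    intro lam Y
    refine LinearMap.ext fun w => ?_
    rw [Pool.Agent.W516.DR.cmpE_apply, LinearMap.baseChange_tmul, Pool.Agent.W516.DR.cmp_tmul,
      LinearMap.smul_apply]
  have h1 : ∀ X0 ∈ A.LA, Kills (X0.baseChange ℂ) (bcm (Ω := ℂ) β φ) := fun X0 hX0 =>
    (kills_bcm_iff β φ _).2 fun lam => by
      rw [hcmp]
      exact (A.LA.smul_mem _ hX0) m φ hφ
  have h2 : Kills (R.baseChange ℂ) (bcm (Ω := ℂ) β φ) := by
    refine kills_of_basis b _ _ fun I => ?_
    have h3 : ∀ p : ℚ[X], ∑ k, bcm (Ω := ℂ) β φ (update (fun l => b (I l)) k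
        ((aeval X p).baseChange ℂ (b (I k)))) =
        (∑ k, aeval (χ (I k) ⟨X, hX⟩) p) * bcm (Ω := ℂ) β φ (fun l => b (I l)) := by
      intro p
      rw [Finset.sum_mul]
      refine Finset.sum_congr rfl fun k _ => ?_
      rw [hbf, MultilinearMap.map_update_smul, smul_eq_mul]
      congr 2
      exact update_eq_self k (fun l => b (I l))
    rw [← hfR, h3 f']
    by_cases h0 : bcm (Ω := ℂ) β φ (fun l => b (I l)) = 0
    · rw [h0, mul_zero]
    · -- the variables where the eigenvalue is not zero
      have hsub : ∀ h' : ℂ → ℂ, (∀ z, h' (-z) = -h' z) →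
          ∑ k : {k : Fin m × Fin 2 // χ (I k) ⟨X, hX⟩ ≠ 0}, h' (χ (I k) ⟨X, hX⟩) =
            ∑ k, h' (χ (I k) ⟨X, hX⟩) := by
        intro h' hh
        have h00 : h' 0 = 0 := by
          have h4 := hh 0
          rw [neg_zero] at h4
          exact self_eq_neg.1 h4
        rw [← Finset.sum_filter_add_sum_filter_not Finset.univ
          (fun k => χ (I k) ⟨X, hX⟩ ≠ 0) (fun k => h' (χ (I k) ⟨X, hX⟩)),
          Finset.sum_subtype (Finset.univ.filter fun k => χ (I k) ⟨X, hX⟩ ≠ 0)
            (p := fun k => χ (I k) ⟨X, hX⟩ ≠ 0) (fun k => by simp)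
            (fun k => h' (χ (I k) ⟨X, hX⟩))]
        have h4 : ∑ k ∈ Finset.univ.filter (fun k => ¬ χ (I k) ⟨X, hX⟩ ≠ 0),
            h' (χ (I k) ⟨X, hX⟩) = 0 := by
          refine Finset.sum_eq_zero fun k hk => ?_
          rw [not_not.1 (Finset.mem_filter.1 hk).2, h00]
        rw [h4, add_zero]
      have hcard : Fintype.card {k : Fin m × Fin 2 // χ (I k) ⟨X, hX⟩ ≠ 0} ≤ 2 * m := by
        refine (Fintype.card_subtype_le _).trans ?_
        rw [Fintype.card_prod, Fintype.card_fin, Fintype.card_fin, mul_comm]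
      have hcard' : Function.Injective X →
          Fintype.card {k : Fin m × Fin 2 // χ (I k) ⟨X, hX⟩ ≠ 0} = 2 * m := by
        intro hinj
        have h4 : ∀ k, χ (I k) ⟨X, hX⟩ ≠ 0 := by
          intro k h5
          let Y : Module.End ℚ A.H1 := (LinearEquiv.ofInjectiveEndo X hinj).symm
          have h6 : Y ∘ₗ X = LinearMap.id := by
            refine LinearMap.ext fun v => ?_
            exact (LinearEquiv.ofInjectiveEndo X hinj).symm_apply_apply v
          have h7 := hb (I k) ⟨X, hX⟩
          rw [h5, zero_smul] at h7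
          have h8 : (Y ∘ₗ X).baseChange ℂ (b (I k)) = 0 := by
            rw [LinearMap.baseChange_comp, LinearMap.comp_apply]
            exact (congrArg _ h7).trans (map_zero _)
          rw [h6, LinearMap.baseChange_id, LinearMap.id_apply] at h8
          exact b.ne_zero _ h8
        rw [Fintype.card_of_subtype Finset.univ (fun k => ⟨fun _ => h4 k, fun _ => Finset.mem_univ _⟩),
          Finset.card_univ, Fintype.card_prod, Fintype.card_fin, Fintype.card_fin, mul_comm]
      have h6 := hrel {k : Fin m × Fin 2 // χ (I k) ⟨X, hX⟩ ≠ 0} (fun k => χ (I k) ⟨X, hX⟩)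
        hcard hcard' (fun k => k.2) (fun k => hroot _) (fun s s' hs hs' hs0 hs0' hne => by
          obtain ⟨i, hi⟩ := exists_eigen X b (fun i => χ i ⟨X, hX⟩) (fun i => hb i ⟨X, hX⟩) hs
          obtain ⟨j, hj⟩ := exists_eigen X b (fun i => χ i ⟨X, hX⟩) (fun i => hb i ⟨X, hX⟩) hs'
          have hi0 : χ i ≠ 0 := by
            intro h
            apply hs0
            rw [← hi, h, LinearMap.zero_apply]
          have hj0 : χ j ≠ 0 := by
            intro h
            apply hs0'
            rw [← hj, h, LinearMap.zero_apply]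
          by_contra hcon
          push Not at hcon
          have h9 : χ i = χ j := A.separated he hb hi0 hj0 fun R' hR' => by
            obtain ⟨f, hf, hfR'⟩ := exists_odd A hX.2.1 (hgen _ R'.2) R'.2.2.1
            have h10 : ∀ l, χ l R' = aeval (χ l ⟨X, hX⟩) f := by
              intro l
              have h11 := hbf f l
              rw [hfR', hb l R'] at h11
              exact smul_left_injective ℂ (b.ne_zero l) h11
            have h12 : ∑ k : {k : Fin m × Fin 2 // χ (I k) ⟨X, hX⟩ ≠ 0},
                aeval (χ (I k) ⟨X, hX⟩) f = 0 := by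
              rw [hsub (fun z => aeval z f) (fun z => by
                have h7 := congrArg (aeval z) hf
                rw [aeval_comp, map_neg, aeval_X, map_neg] at h7
                exact h7)]
              have h4 := h1 _ hR' (fun l => b (I l))
              rw [← hfR', h3 f] at h4
              exact (mul_eq_zero.1 h4).resolve_right h0
            rw [h10, h10, hi, hj]
            by_contra h13
            exact hcon f hf h13 h12
          apply hne
          rw [← hi, ← hj, h9]) (fun z => aeval z f') (fun z => by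
          have h7 := congrArg (aeval z) hf'
          rw [aeval_comp, map_neg, aeval_X, map_neg] at h7
          exact h7)
      rw [← hsub (fun z => aeval z f') (fun z => by
          have h7 := congrArg (aeval z) hf'
          rw [aeval_comp, map_neg, aeval_X, map_neg] at h7
          exact h7), h6, zero_mul]
  obtain ⟨lam, hlam⟩ : ∃ lam : ℂ →ₗ[ℚ] ℚ, lam 1 = 1 := by
    obtain ⟨G, hG⟩ := exists_lin (F := ℚ) (v := fun _ : Unit => (1 : ℂ)) (by
      rw [linearIndependent_unique_iff]
      exact one_ne_zero) (fun _ => (1 : ℚ))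
    exact ⟨G, hG ()⟩
  have h3 := (kills_bcm_iff β φ _).1 h2 lam
  rwa [hcmp, hlam, one_smul] at h3

end Pool.Agent.W5h86.CC
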