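import Mathlib
import Pool.Agent.H977R3.CM.Aut

/-!
# An element of prime order which permutes the squares of the roots cyclically
-/

namespace Pool.Agent.W5h86.CC

open Polynomial

/-- The roots of an irreducible polynomial of degree `2 l`, which are stable under the change of the
sign, have at most `l` squares. -/
lemma card_sq {L : Type*} [Field L] [Algebra ℚ L] [DecidableEq L] {l : ℕ} (p : ℚ[X]) (h0 : p ≠ 0)
    (h00 : ∀ x : L, aeval x p = 0 → x ≠ 0) (hdeg : p.natDegree = 2 * l)
    (hneg : ∀ x : L, aeval x p = 0 → aeval (-x) p = 0) :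
    ((p.rootSet L).toFinset.image fun x => x ^ 2).card ≤ l := by
  have : CharZero L := algebraRat.charZero L
  have h1 : 2 * ((p.rootSet L).toFinset.image fun x => x ^ 2).card ≤ (p.rootSet L).toFinset.card := by
    refine Finset.mul_card_image_le_card _ _ fun b hb => ?_
    obtain ⟨x, hx, rfl⟩ := Finset.mem_image.1 hb
    rw [Set.mem_toFinset, mem_rootSet_of_ne h0] at hx
    have hx0 := h00 x hx
    have hne : x ≠ -x := fun h => hx0 (self_eq_neg.1 h)
    refine (Finset.card_pair hne).symm.le.trans (Finset.card_le_card fun y hy => ?_)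
    rw [Finset.mem_insert, Finset.mem_singleton] at hy
    rw [Finset.mem_filter, Set.mem_toFinset, mem_rootSet_of_ne h0]
    rcases hy with rfl | rfl
    · exact ⟨hx, rfl⟩
    · exact ⟨hneg x hx, neg_sq x⟩
  have h2 : (p.rootSet L).toFinset.card ≤ p.natDegree := by
    have h3 : (p.rootSet L).toFinset = (p.aroots L).toFinset := by
      ext x
      rw [Set.mem_toFinset, mem_rootSet, Multiset.mem_toFinset, mem_aroots]
    rw [h3]
    exact (Multiset.toFinset_card_le _).trans ((card_roots' _).trans natDegree_map_le)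
  omega

/-- The statement for the splitting field. -/
lemma exists_gal {l : ℕ} (hl : l.Prime) (hodd : l ≠ 2) (p : ℚ[X]) (hp : Irreducible p)
    (hdeg : p.natDegree = 2 * l) (L : Type*) [Field L] [Algebra ℚ L] [IsSplittingField ℚ L p]
    (hneg : ∀ z : L, aeval z p = 0 → aeval (-z) p = 0) :
    ∃ γ : L ≃ₐ[ℚ] L, ∀ s s' : L, aeval s p = 0 →
      aeval s' p = 0 → ∃ n : ℕ, (⇑γ)^[n] s = s' ∨ (⇑γ)^[n] s = -s' := by
  classical
  have h0 : p ≠ 0 := hp.ne_zero
  have h2l : 2 ≤ l := hl.two_le
  have h00 : ∀ x : L, aeval x p = 0 → x ≠ 0 := by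
    rintro x hx rfl
    have hX : X ∣ p := by
      rw [X_dvd_iff]
      rw [← coeff_zero_eq_aeval_zero'] at hx
      exact (map_eq_zero _).1 hx
    have h3 := (irreducible_X.dvd_irreducible_iff_associated hp).1 hX
    have h4 := natDegree_eq_of_degree_eq (degree_eq_degree_of_associated h3)
    rw [natDegree_X] at h4
    omega
  -- the prime number `l` divides the order of the Galois group
  have hfd : FiniteDimensional ℚ L := IsSplittingField.finiteDimensional L p
  have hN : Normal ℚ L := Normal.of_isSplittingField p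
  have hG : IsGalois ℚ L := { }
  have hdvd : l ∣ Nat.card (L ≃ₐ[ℚ] L) := by
    rw [IsGalois.card_aut_eq_finrank]
    have hne : p.degree ≠ 0 := by
      rw [degree_eq_natDegree h0, hdeg]
      exact_mod_cast (by omega : 2 * l ≠ 0)
    obtain ⟨x, hx⟩ := (IsSplittingField.splits L p).exists_eval_eq_zero
      (by rwa [degree_map])
    rw [eval_map_algebraMap] at hx
    have h3 : Module.finrank ℚ (IntermediateField.adjoin ℚ {x}) = 2 * l := by
      rw [IntermediateField.adjoin.finrank (Algebra.IsIntegral.isIntegral x), ← hdeg]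
      have h4 := (minpoly.irreducible (Algebra.IsIntegral.isIntegral (R := ℚ) x)).dvd_irreducible_iff_associated hp
      exact natDegree_eq_of_degree_eq (degree_eq_degree_of_associated (h4.1 (minpoly.dvd _ _ hx)))
    have h5 := Module.finrank_mul_finrank ℚ (IntermediateField.adjoin ℚ {x}) L
    rw [h3] at h5
    exact ⟨2 * Module.finrank (IntermediateField.adjoin ℚ {x}) L, by rw [← h5]; ring⟩
  have : Fact l.Prime := ⟨hl⟩
  obtain ⟨γ, hγ⟩ := exists_prime_orderOf_dvd_card' l hdvd
  refine ⟨γ, ?_⟩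
  have hroot : ∀ (n : ℕ) (x : L), aeval x p = 0 → aeval ((⇑γ)^[n] x) p = 0 := by
    intro n
    induction n with
    | zero => exact fun x hx => hx
    | succ n ih =>
      intro x hx
      rw [Function.iterate_succ_apply']
      have h3 := ih x hx
      have h4 := (aeval_algHom_apply (γ : L →ₐ[ℚ] L) ((⇑γ)^[n] x) p)
      rw [h3, map_zero] at h4
      exact h4
  have hsq : ∀ (n : ℕ) (x : L), (⇑γ)^[n] (x ^ 2) = ((⇑γ)^[n] x) ^ 2 := by
    intro n x
    induction n with
    | zero => rfl
    | succ n ih => rw [Function.iterate_succ_apply', Function.iterate_succ_apply', ih, map_pow]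
  have hpow : ∀ (n : ℕ) (x : L), (γ ^ n) x = (⇑γ)^[n] x := by
    intro n x
    induction n with
    | zero => rfl
    | succ n ih => rw [pow_succ', Function.iterate_succ_apply', AlgEquiv.mul_apply, ih]
  have hper : ∀ x : L, (⇑γ)^[l] x = x := by
    intro x
    rw [← hpow, ← hγ, pow_orderOf_eq_one]
    rfl
  -- some square is not fixed
  have hex : ∃ x : L, aeval x p = 0 ∧ γ (x ^ 2) ≠ x ^ 2 := by
    by_contra hcon
    push Not at hcon
    have h3 : γ ^ 2 = 1 := by
      have h4 : ((γ ^ 2 : L ≃ₐ[ℚ] L) :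
          L →ₐ[ℚ] L) = AlgHom.id ℚ _ := by
        refine AlgHom.ext_of_adjoin_eq_top (IsSplittingField.adjoin_rootSet L p) fun x hx => ?_
        rw [mem_rootSet_of_ne h0] at hx
        have h5 := hcon x hx
        rw [map_pow, sq_eq_sq_iff_eq_or_eq_neg] at h5
        change (γ ^ 2) x = x
        rw [hpow, Function.iterate_succ_apply', Function.iterate_one]
        rcases h5 with h5 | h5
        · rw [h5, h5]
        · rw [h5, map_neg, h5, neg_neg]
      ext x
      exact DFunLike.congr_fun h4 x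
    have h4 := orderOf_dvd_of_pow_eq_one h3
    rw [hγ] at h4
    exact hodd ((Nat.prime_dvd_prime_iff_eq hl Nat.prime_two).1 h4)
  obtain ⟨x, hx, hne⟩ := hex
  have hmin : Function.minimalPeriod (⇑γ) (x ^ 2) = l := by
    have h3 : Function.minimalPeriod (⇑γ) (x ^ 2) ∣ l :=
      Function.IsPeriodicPt.minimalPeriod_dvd (hper (x ^ 2))
    rcases (Nat.dvd_prime hl).1 h3 with h4 | h4
    · exact absurd (Function.minimalPeriod_eq_one_iff_isFixedPt.1 h4) hne
    · exact h4
  -- the orbit of the square consists of all squares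
  have horb : (Finset.range l).image (fun i => (⇑γ)^[i] (x ^ 2)) =
      (p.rootSet L).toFinset.image fun x => x ^ 2 := by
    refine Finset.eq_of_subset_of_card_le ?_ ?_
    · intro y hy
      obtain ⟨i, _, rfl⟩ := Finset.mem_image.1 hy
      rw [hsq]
      refine Finset.mem_image_of_mem (fun x => x ^ 2) ?_
      rw [Set.mem_toFinset, mem_rootSet_of_ne h0]
      exact hroot i x hx
    · have hinj : Set.InjOn (fun i => (⇑γ)^[i] (x ^ 2)) (Finset.range l) := by
        intro i hi j hj hij
        rw [Finset.coe_range, ← hmin] at hi hj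
        exact Function.iterate_injOn_Iio_minimalPeriod hi hj hij
      calc _ ≤ l := card_sq p h0 h00 hdeg hneg
        _ = _ := by rw [Finset.card_image_of_injOn hinj, Finset.card_range]
  intro s s' hs hs'
  have hm : ∀ y : L, aeval y p = 0 → ∃ i < l, (⇑γ)^[i] (x ^ 2) = y ^ 2 := by
    intro y hy
    have h3 : y ^ 2 ∈ (p.rootSet L).toFinset.image fun x => x ^ 2 :=
      Finset.mem_image_of_mem (fun x => x ^ 2) (by
        rw [Set.mem_toFinset, mem_rootSet_of_ne h0]; exact hy)
    rw [← horb] at h3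
    obtain ⟨i, hi, h4⟩ := Finset.mem_image.1 h3
    exact ⟨i, Finset.mem_range.1 hi, h4⟩
  obtain ⟨i, hi, h3⟩ := hm s hs
  obtain ⟨j, hj, h4⟩ := hm s' hs'
  refine ⟨j + (l - i), ?_⟩
  have h5 : (⇑γ)^[j + (l - i)] (s ^ 2) = s' ^ 2 := by
    rw [← h3, ← Function.iterate_add_apply, add_assoc, Nat.sub_add_cancel hi.le,
      Function.iterate_add_apply, hper, h4]
  rw [hsq] at h5
  exact sq_eq_sq_iff_eq_or_eq_neg.1 h5

/-- **An automorphism of the complex numbers which permutes the squares of the roots cyclically.** -/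
theorem exists_cyclic {l : ℕ} (hl : l.Prime) (hodd : l ≠ 2) (p : Polynomial ℚ)
    (hp : Irreducible p) (hdeg : p.natDegree = 2 * l)
    (hneg : ∀ z : ℂ, Polynomial.aeval z p = 0 → Polynomial.aeval (-z) p = 0) :
    ∃ τ : ℂ ≃+* ℂ, ∀ s s' : ℂ, Polynomial.aeval s p = 0 → Polynomial.aeval s' p = 0 →
      ∃ n : ℕ, (τ ^ n) s = s' ∨ (τ ^ n) s = -s' := by
  have h0 : p ≠ 0 := hp.ne_zero
  obtain ⟨L, _, _, _⟩ : ∃ (L : Type) (_ : Field L) (_ : Algebra ℚ L), IsSplittingField ℚ L p :=
    ⟨p.SplittingField, inferInstance, _, IsSplittingField.splittingField p⟩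
  have hfd : FiniteDimensional ℚ L := IsSplittingField.finiteDimensional L p
  let j : L →ₐ[ℚ] ℂ := IsAlgClosed.lift
  have hj : Function.Injective j := j.injective
  have hj0 : ∀ x, aeval (j x) p = 0 ↔ aeval x p = 0 := by
    intro x
    rw [aeval_algHom_apply, map_eq_zero]
  obtain ⟨γ, hγ⟩ := exists_gal hl hodd p hp hdeg L fun z hz => by
    rw [← hj0, map_neg]
    exact hneg _ ((hj0 z).2 hz)
  obtain ⟨τ, hτ⟩ := Pool.Agent.H977R3.CM.exists_aut (j : L →+* ℂ) γ.toRingEquiv
  have hτn : ∀ (n : ℕ) (x : L), (τ ^ n) (j x) = j ((⇑γ)^[n] x) := by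
    intro n x
    induction n with
    | zero => rfl
    | succ n ih =>
      rw [pow_succ', Function.iterate_succ_apply', RingAut.mul_apply, ih]
      exact hτ _
  have hroot : ∀ z : ℂ, aeval z p = 0 → ∃ x, aeval x p = 0 ∧ j x = z := by
    intro z hz
    have h3 : z ∈ j '' (p.rootSet L) := by
      rw [(IsSplittingField.splits L p).image_rootSet j, mem_rootSet_of_ne h0]
      exact hz
    obtain ⟨x, hx, rfl⟩ := h3
    exact ⟨x, (mem_rootSet_of_ne h0).1 hx, rfl⟩
  refine ⟨τ, fun s s' hs hs' => ?_⟩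
  obtain ⟨x, hx, rfl⟩ := hroot s hs
  obtain ⟨x', hx', rfl⟩ := hroot s' hs'
  obtain ⟨n, hn⟩ := hγ x x' hx hx'
  refine ⟨n, ?_⟩
  rw [hτn]
  rcases hn with hn | hn
  · exact Or.inl (by rw [hn])
  · exact Or.inr (by rw [hn, map_neg])

end Pool.Agent.W5h86.CC
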