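import Pool.Agent.W5h86.CC.Y
import Pool.Agent.W5h86.CC.E

set_option autoImplicit false

/-!
# Short relations between the conjugates are trivial
-/

open Polynomial

namespace Pool.Agent.W5h86.CC

/-- Short relations between the values of an odd polynomial at the roots are trivial. -/
theorem rel_trivial {l a : ℕ} (hl : l.Prime) (hodd : l ≠ 2) (p : ℚ[X]) (hp : Irreducible p)
    (hdeg : p.natDegree = 2 * l ^ (a + 1))
    (hneg : ∀ z : ℂ, aeval z p = 0 → aeval (-z) p = 0) (τ : ℂ ≃+* ℂ)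
    (hcyc : ∀ s s' : ℂ, aeval s p = 0 → aeval s' p = 0 →
      ∃ n : ℕ, (τ ^ n) s = s' ∨ (τ ^ n) s = -s')
    {κ : Type} [Fintype κ] (hκ : Even (Fintype.card κ)) (hκ' : Fintype.card κ < 2 * l)
    (x : κ → ℂ) (hx : ∀ k, aeval (x k) p = 0)
    (hf : ∀ s s' : ℂ, aeval s p = 0 → aeval s' p = 0 → s ≠ s' →
      ∃ f : ℚ[X], f.comp (-X) = -f ∧ aeval s f ≠ aeval s' f ∧ ∑ k, aeval (x k) f = 0)
    (h' : ℂ → ℂ) (hh : ∀ z, h' (-z) = -h' z) : ∑ k, h' (x k) = 0 := by
  classical
  obtain ⟨s, hs, hτ, hper, hinj, hcov⟩ := enum hl hodd p hp hdeg hneg τ hcyc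
  have hpow : l ^ a < l ^ (a + 1) := Nat.pow_lt_pow_right hl.one_lt (Nat.lt_succ_self a)
  have hpos : 0 < l ^ a := Nat.pow_pos hl.pos
  -- the index and the sign of `x k`
  have hk : ∀ k, ∃ (j : ℕ) (ε : ℤ), j < l ^ (a + 1) ∧ (ε = 1 ∨ ε = -1) ∧
      ∀ h : ℂ → ℂ, (∀ z, h (-z) = -h z) → h (x k) = (ε : ℂ) * h (s j) := by
    intro k
    obtain ⟨j, hj, h1 | h1⟩ := hcov (x k) (hx k)
    · exact ⟨j, 1, hj, Or.inl rfl, fun h _ => by rw [h1, Int.cast_one, one_mul]⟩
    · exact ⟨j, -1, hj, Or.inr rfl, fun h hh => by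
        rw [h1, hh, Int.cast_neg, Int.cast_one, neg_one_mul]⟩
  choose J ε hJ hε hJε using hk
  let w : ℕ → ℤ := fun j => ∑ k, if J k = j then ε k else 0
  have hsum : ∀ h : ℂ → ℂ, (∀ z, h (-z) = -h z) →
      ∑ k, h (x k) = ∑ j ∈ Finset.range (l ^ (a + 1)), (w j : ℂ) * h (s j) := by
    intro h hh
    have h1 : ∀ j, (w j : ℂ) * h (s j) = ∑ k, if J k = j then (ε k : ℂ) * h (s j) else 0 := by
      intro j
      change ((∑ k, if J k = j then ε k else 0 : ℤ) : ℂ) * h (s j) = _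
      rw [Int.cast_sum, Finset.sum_mul]
      refine Finset.sum_congr rfl fun k _ => ?_
      split_ifs
      · rfl
      · rw [Int.cast_zero, zero_mul]
    rw [Finset.sum_congr rfl fun j _ => h1 j, Finset.sum_comm]
    refine Finset.sum_congr rfl fun k _ => ?_
    rw [Finset.sum_ite_eq, if_pos (Finset.mem_range.2 (hJ k)), hJε k h hh]
  have hcard : ∀ j, |w j| ≤ ∑ k, if J k = j then (1 : ℤ) else 0 := by
    intro j
    refine (Finset.abs_sum_le_sum_abs _ _).trans (Finset.sum_le_sum fun k _ => ?_)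
    split_ifs
    · rcases hε k with h1 | h1 <;> rw [h1] <;> norm_num
    · rw [abs_zero]
  have hcard2 : ∀ j, Even (|w j| - ∑ k, if J k = j then (1 : ℤ) else 0) := by
    intro j
    have h1 : Even (w j - ∑ k, if J k = j then (1 : ℤ) else 0) := by
      change Even ((∑ k, if J k = j then ε k else 0) - ∑ k, if J k = j then (1 : ℤ) else 0)
      rw [← Finset.sum_sub_distrib]
      refine Finset.even_sum _ fun k _ => ?_
      split_ifs
      · rcases hε k with h1 | h1 <;> rw [h1] <;> decide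
      · decide
    rcases abs_choice (w j) with h2 | h2
    · rw [h2]
      exact h1
    · rw [h2]
      have h3 : -w j - (∑ k, if J k = j then (1 : ℤ) else 0) =
          (w j - ∑ k, if J k = j then (1 : ℤ) else 0) - 2 * w j := by ring
      rw [h3]
      exact h1.sub (even_two_mul _)
  have htot : ∑ j ∈ Finset.range (l ^ (a + 1)), (∑ k, if J k = j then (1 : ℤ) else 0) =
      Fintype.card κ := by
    rw [Finset.sum_comm]
    have h1 : ∀ k : κ, ∑ j ∈ Finset.range (l ^ (a + 1)), (if J k = j then (1 : ℤ) else 0) = 1 := by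
      intro k
      rw [Finset.sum_ite_eq, if_pos (Finset.mem_range.2 (hJ k))]
    rw [Finset.sum_congr rfl fun k _ => h1 k]
    simp
  have hle : ∑ j ∈ Finset.range (l ^ (a + 1)), |w j| ≤ Fintype.card κ := by
    rw [← htot]
    exact Finset.sum_le_sum fun j _ => hcard j
  have heven : Even (∑ j ∈ Finset.range (l ^ (a + 1)), |w j|) := by
    have h1 : Even (∑ j ∈ Finset.range (l ^ (a + 1)), |w j| - (Fintype.card κ : ℤ)) := by
      rw [← htot, ← Finset.sum_sub_distrib]
      exact Finset.even_sum _ fun j _ => hcard2 j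
    have h2 : Even ((Fintype.card κ : ℕ) : ℤ) := by exact_mod_cast hκ
    have h3 := h1.add h2
    rwa [sub_add_cancel] at h3
  have hne : s (l ^ a) ≠ s 0 := by
    intro h
    have h1 := hinj (l ^ a) hpow 0 (Nat.pow_pos hl.pos) (by rw [h])
    omega
  obtain ⟨f, hf1, hf2, hf3⟩ := hf _ _ (hs (l ^ a)) (hs 0) hne
  have hfodd : ∀ z : ℂ, aeval (-z) f = -aeval z f := by
    intro z
    have h7 := congrArg (aeval z) hf1
    rw [aeval_comp, map_neg, aeval_X, map_neg] at h7
    exact h7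
  have hw0 : ∀ j < l ^ (a + 1), w j = 0 := by
    let σ : ℂ →+* ℂ := (τ : ℂ →+* ℂ).comp (τ : ℂ →+* ℂ)
    refine no_short (l := l) (a := a) hl hodd (fun j => aeval (s j) f) σ (fun j => ?_)
      (fun j => ?_) hf2 w ?_ heven ?_
    · rw [← hτ j]
      let σ' : ℂ →ₐ[ℚ] ℂ := σ.toRatAlgHom
      have h1 : σ' (aeval (s j) f) = aeval (σ' (s j)) f := by
        rw [← aeval_algHom_apply]
      exact h1
    · rw [hper]
    · rw [← hsum (fun z => aeval z f) hfodd]
      exact hf3
    · have h1 : ((Fintype.card κ : ℕ) : ℤ) < 2 * l := by exact_mod_cast hκ'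
      exact lt_of_le_of_lt hle h1
  rw [hsum h' hh]
  refine Finset.sum_eq_zero fun j hj => ?_
  rw [hw0 j (Finset.mem_range.1 hj), Int.cast_zero, zero_mul]

end Pool.Agent.W5h86.CC
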