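import Pool.Agent.W5h86.CC.Av
import Pool.Agent.W5h86.CC.Z
import Pool.Agent.W5h86.CC.X
import Pool.Agent.W5h86.RK.Gen

set_option autoImplicit false

/-!
# The main theorem on abelian varieties with complex multiplication by cyclically permuted places
-/

open Module Polynomial Function

noncomputable section

namespace Pool.Agent.W5h86.CC

open Pool.Agent.Y102 Pool.Agent.W516.DR Pool.Agent.W516.KC Pool.Agent.H204R3.SP Pool.Agent.W5h86.LY
open Pool.Agent.W5h86.LX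

variable {g : ℕ}

/-- **The main theorem.** -/
theorem main7 (A : AbVar g) {P : Module.End ℚ A.H1} (hP : P ∈ A.EA) (hPs : IsSkew A.om P)
    (hEA : ∀ Q ∈ A.EA, Q ∈ Algebra.adjoin ℚ {P})
    (hsimple : ∀ Q ∈ A.EA, Q ≠ 0 → Function.Injective Q)
    (hdeg : (minpoly ℚ P).natDegree = 2 * g) {l a : ℕ} (hl : l.Prime) (hodd : l ≠ 2)
    (hg : g = l ^ (a + 1))
    (hcyc : a = 0 ∨ ∃ τ : ℂ ≃+* ℂ, ∀ s s' : ℂ, aeval s (minpoly ℚ P) = 0 →
      aeval s' (minpoly ℚ P) = 0 → ∃ n : ℕ, (τ ^ n) s = s' ∨ (τ ^ n) s = -s') {m : ℕ}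
    (hm : m < l) {φ : MultilinearMap ℚ (fun _ : Fin m × Fin 2 => A.H1) ℚ}
    (hφ : IsDeRhamBettiForm QBar A.dR tau m φ) {Z : Module.End ℚ A.H1} (hZ1 : IsSkew A.om Z)
    (hZ2 : Z * P = P * Z) : Kills Z φ := by
  have hg0 : 0 < g := by rw [hg]; exact Nat.pow_pos hl.pos
  have hnt : Nontrivial A.H1 := by
    have : Nonempty (Fin (2 * g)) := ⟨⟨0, by omega⟩⟩
    exact Function.nontrivial
  have hadj : ∀ Q ∈ Algebra.adjoin ℚ {P}, Q ∈ A.EA := by
    intro Q hQ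
    rw [Algebra.adjoin_singleton_eq_range_aeval] at hQ
    obtain ⟨p, rfl⟩ := hQ
    exact A.aeval_mem hP p
  have hirr : Irreducible (minpoly ℚ P) :=
    Pool.Agent.W5h86.RK.irr_minpoly fun Q hQ hQ0 => hsimple Q (hadj Q hQ) hQ0
  have hneg : ∀ z : ℂ, aeval z (minpoly ℚ P) = 0 → aeval (-z) (minpoly ℚ P) = 0 :=
    fun z hz => AbVar.neg_root A hPs hz
  have hdeg' : (minpoly ℚ P).natDegree = 2 * l ^ (a + 1) := by rw [hdeg, hg]
  obtain ⟨τ, hτ⟩ : ∃ τ : ℂ ≃+* ℂ, ∀ s s' : ℂ, aeval s (minpoly ℚ P) = 0 →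
      aeval s' (minpoly ℚ P) = 0 → ∃ n : ℕ, (τ ^ n) s = s' ∨ (τ ^ n) s = -s' := by
    rcases hcyc with h0 | h0
    · subst h0
      exact exists_cyclic hl hodd _ hirr (by rw [hdeg', zero_add, pow_one]) hneg
    · exact h0
  have hcard : Fintype.card (Fin m × Fin 2) = 2 * m := by
    rw [Fintype.card_prod, Fintype.card_fin, Fintype.card_fin, mul_comm]
  refine kills_rel A hP hPs hEA (fun x hx hsum h' hh => ?_)
    (hadj Z (adjoin_of_comm A hP hsimple hdeg hZ2)) hZ1 (fun X hX => A.kills_of_mem hφ hX)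
  refine rel_trivial hl hodd _ hirr hdeg' hneg τ hτ (by rw [hcard]; exact even_two_mul m)
    (by rw [hcard]; omega) x hx (fun s s' hs hs' hne => ?_) h' hh
  obtain ⟨f, hf1, hf2, hf3⟩ := separate A hP hPs hEA hsimple hdeg hs hs' hne
  exact ⟨f, hf1, hf3, hsum f hf1 hf2⟩

end Pool.Agent.W5h86.CC
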