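import Mathlib

set_option autoImplicit false

open scoped TensorProduct

namespace Pool.Agent.W5h86.CC

theorem trace_aeval {V : Type} [AddCommGroup V] [Module ℚ V] [FiniteDimensional ℚ V]
    (P : Module.End ℚ V) (hirr : Irreducible (minpoly ℚ P))
    (hdeg : (minpoly ℚ P).natDegree = Module.finrank ℚ V) (f : Polynomial ℚ) :
    ((LinearMap.trace ℚ V (Polynomial.aeval P f) : ℚ) : ℂ) =
      ∑ t ∈ ((minpoly ℚ P).aroots ℂ).toFinset, Polynomial.aeval t f := by
  classical
  set s := ((minpoly ℚ P).aroots ℂ).toFinset with hs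
  have hsep : (minpoly ℚ P).Separable := hirr.separable
  have hcard : s.card = Module.finrank ℂ (ℂ ⊗[ℚ] V) := by
    rw [Module.finrank_baseChange, ← hdeg, hs, Multiset.toFinset_card_of_nodup
      (Polynomial.nodup_roots hsep.map)]
    have h1 := (IsAlgClosed.splits ((minpoly ℚ P).map (algebraMap ℚ ℂ))).natDegree_eq_card_roots
    rw [Polynomial.natDegree_map] at h1
    exact h1.symm
  have hev : ∀ t : s, ∃ v : ℂ ⊗[ℚ] V,
      Module.End.HasEigenvector (P.baseChange ℂ : Module.End ℂ (ℂ ⊗[ℚ] V)) (t : ℂ) v := by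
    intro t
    have ht : Polynomial.aeval (t : ℂ) (minpoly ℚ P) = 0 := by
      have h0 : (t : ℂ) ∈ (minpoly ℚ P).aroots ℂ := Multiset.mem_toFinset.mp t.2
      rw [Polynomial.mem_aroots] at h0
      exact h0.2
    have h1 : (P.baseChange ℂ : Module.End ℂ (ℂ ⊗[ℚ] V)).charpoly.IsRoot (t : ℂ) := by
      rw [LinearMap.charpoly_baseChange]
      obtain ⟨q, hq⟩ := LinearMap.minpoly_dvd_charpoly P
      rw [Polynomial.IsRoot.def, Polynomial.eval_map_algebraMap, hq, map_mul, ht, zero_mul]
    exact ((Module.End.hasEigenvalue_iff_isRoot_charpoly _ _).mpr h1).exists_hasEigenvector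
  choose v hv using hev
  have hli : LinearIndependent ℂ v :=
    Module.End.eigenvectors_linearIndependent' (P.baseChange ℂ : Module.End ℂ (ℂ ⊗[ℚ] V))
      (fun t : s => (t : ℂ)) Subtype.val_injective v hv
  have hc : Fintype.card s = Module.finrank ℂ (ℂ ⊗[ℚ] V) := by
    rw [Fintype.card_coe, hcard]
  have hne : Nonempty s := by
    rw [← Fintype.card_pos_iff, Fintype.card_coe, hcard, Module.finrank_baseChange, ← hdeg]
    exact hirr.natDegree_pos
  let b := basisOfLinearIndependentOfCardEqFinrank hli hc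
  have hb : ∀ t, b t = v t := fun t => by
    simp [b]
  have h1 := LinearMap.trace_baseChange (Polynomial.aeval P f) ℂ
  have h2 : ((Polynomial.aeval P f).baseChange ℂ : Module.End ℂ (ℂ ⊗[ℚ] V)) =
      Polynomial.aeval (P.baseChange ℂ : Module.End ℂ (ℂ ⊗[ℚ] V)) f := by
    have := Polynomial.aeval_algHom_apply (Module.End.baseChangeHom ℚ ℂ V) P f
    exact this.symm
  rw [h2, LinearMap.trace_eq_matrix_trace ℂ b, Matrix.trace] at h1
  have h3 : ∀ t : s, ((LinearMap.toMatrix b b)
      (Polynomial.aeval (P.baseChange ℂ : Module.End ℂ (ℂ ⊗[ℚ] V)) f)).diag t =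
      Polynomial.aeval (t : ℂ) f := by
    intro t
    rw [Matrix.diag_apply, LinearMap.toMatrix_apply, hb,
      ← Polynomial.aeval_map_algebraMap ℂ, Module.End.aeval_apply_of_hasEigenvector (hv t),
      Polynomial.eval_map_algebraMap, ← hb, map_smul, Module.Basis.repr_self]
    simp
  rw [Finset.sum_congr rfl fun t _ => h3 t] at h1
  rw [← Finset.sum_coe_sort]
  exact h1.symm

end Pool.Agent.W5h86.CC
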