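import Pool.Agent.Y102.AV13

/-!
# The trace of a component of the complex structure (T3)
-/

set_option autoImplicit false

open Module Function Pool.Agent.Y102

namespace Pool.Agent.W5h86.CC

namespace TrJ

theorem trace_I {g : ℕ} (M : (Fin g → ℂ) →ₗ[ℂ] (Fin g → ℂ))
    (htr : LinearMap.trace ℂ (Fin g → ℂ) M = 0)
    (T : (Fin g → ℂ) →ₗ[ℝ] (Fin g → ℂ)) (hT : ∀ u, T u = M (Complex.I • u)) :
    LinearMap.trace ℝ (Fin g → ℂ) T = 0 := by
  classical
  let b : Basis (Σ _ : Fin g, Fin 2) ℝ (Fin g → ℂ) := Pi.basis fun _ => Complex.basisOneI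
  have hb0 : ∀ j, b ⟨j, 0⟩ = Pi.single j 1 := by
    intro j
    simp only [b]
    rw [Pi.basis_apply]
    simp
  have hb1 : ∀ j, b ⟨j, 1⟩ = Complex.I • (Pi.single j 1 : Fin g → ℂ) := by
    intro j
    simp only [b]
    rw [Pi.basis_apply]
    ext i
    by_cases h : i = j
    · subst h
      simp
    · simp [Pi.single_eq_of_ne h]
  have hc : LinearMap.trace ℂ (Fin g → ℂ) M = ∑ j, M (Pi.single j 1) j := by
    rw [LinearMap.trace_eq_matrix_trace ℂ (Pi.basisFun ℂ (Fin g)), Matrix.trace]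
    refine Finset.sum_congr rfl fun j _ => ?_
    rw [Matrix.diag_apply, LinearMap.toMatrix_apply, Pi.basisFun_apply, Pi.basisFun_repr]
  rw [LinearMap.trace_eq_matrix_trace ℝ b, Matrix.trace, Fintype.sum_sigma]
  have h1 : ∀ j, ∑ i : Fin 2, (LinearMap.toMatrix b b T).diag ⟨j, i⟩ =
      -2 * (M (Pi.single j 1) j).im := by
    intro j
    have h2 : T (Pi.single j 1) = Complex.I • M (Pi.single j 1) := by
      rw [hT, M.map_smul]
    have h3 : T (Complex.I • (Pi.single j 1 : Fin g → ℂ)) = -M (Pi.single j 1) := by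
      rw [hT, smul_smul, Complex.I_mul_I, M.map_smul, neg_one_smul]
    rw [Fin.sum_univ_two, Matrix.diag_apply, Matrix.diag_apply, LinearMap.toMatrix_apply,
      LinearMap.toMatrix_apply, hb0, hb1, h2, h3]
    simp only [b]
    rw [Pi.basis_repr, Pi.basis_repr]
    simp
    ring
  rw [Finset.sum_congr rfl fun j _ => h1 j, ← Finset.mul_sum, ← Complex.im_sum, ← hc, htr]
  simp

/-- the trace of a rational component -/
theorem trace_cmpE {g : ℕ} (A : AbVar g) (f : ℝ →ₗ[ℚ] ℚ)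
    (Y : (Fin g → ℂ) →ₗ[ℝ] (Fin g → ℂ)) :
    LinearMap.trace ℚ A.H1 (A.cmpE f Y) = f (LinearMap.trace ℝ (Fin g → ℂ) Y) := by
  rw [LinearMap.trace_eq_matrix_trace ℚ A.bas, LinearMap.trace_eq_matrix_trace ℝ A.lam,
    Matrix.trace, Matrix.trace, map_sum]
  refine Finset.sum_congr rfl fun j _ => ?_
  rw [Matrix.diag_apply, Matrix.diag_apply, LinearMap.toMatrix_apply, LinearMap.toMatrix_apply,
    AbVar.cmpE_apply, AbVar.per_bas]
  rfl

end TrJ

/-- The trace of the product of an endomorphism of complex trace zero and of a component of the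
complex structure. -/
theorem trace_JJ {g : ℕ} (A : AbVar g) {D : Module.End ℚ A.H1}
    {M : (Fin g → ℂ) →ₗ[ℂ] (Fin g → ℂ)} (hM : ∀ w, M (A.per w) = A.per (D w))
    (htr : LinearMap.trace ℂ (Fin g → ℂ) M = 0) (f : ℝ →ₗ[ℚ] ℚ) :
    LinearMap.trace ℚ A.H1 (D * A.cmpE f AbVar.JJ) = 0 := by
  have h1 : A.ext D = M.restrictScalars ℝ :=
    A.ext_per fun w => by
      rw [AbVar.ext_apply]
      exact (hM w).symm
  have h2 : D * A.cmpE f AbVar.JJ = A.cmpE f ((M.restrictScalars ℝ).comp AbVar.JJ) := by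
    refine LinearMap.ext fun w => ?_
    rw [Module.End.mul_apply, AbVar.cmpE_apply, AbVar.cmpE_apply, ← AbVar.cmp_ext, h1]
    rfl
  rw [h2, TrJ.trace_cmpE, TrJ.trace_I M htr _ fun u => rfl, map_zero]

end Pool.Agent.W5h86.CC
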