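import Mathlib
import Pool.Agent.W5h86.CC.W
import Pool.Agent.W5h86.CC.F

/-!
# The weight is a multiple of the square root (lemma (T1) for helper86), written by helper74
-/

set_option autoImplicit false

namespace Pool.Agent.W5h86.CC

open Polynomial

open PW in
theorem exists_quad2 (p : Polynomial ℚ) (hp : Irreducible p)
    (hneg : ∀ z : ℂ, Polynomial.aeval z p = 0 → Polynomial.aeval (-z) p = 0)
    (w : ℂ → ℤ) (hw : ∀ z, w (-z) = -w z) (t : ℂ) (ht : Polynomial.aeval t p = 0)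
    (hwt : w t ≠ 0)
    (hσ : ∀ σ : ℂ ≃+* ℂ, (∀ z, Polynomial.aeval z p = 0 → w (σ z) = w z) ∨
      (∀ z, Polynomial.aeval z p = 0 → w (σ z) = -w z)) :
    ∃ (q : Polynomial ℚ) (c : ℚ) (δ : ℂ), q.comp (-Polynomial.X) = -q ∧
      p ∣ q ^ 2 - Polynomial.C c ∧ δ ≠ 0 ∧
      ∀ z, Polynomial.aeval z p = 0 → Polynomial.aeval z q = δ * (w z : ℂ) := by
  classical
  have hF := fixed_mem
  set R : Finset ℂ := (p.aroots ℂ).toFinset with hR
  have hmem : ∀ z, z ∈ R ↔ aeval z p = 0 := by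
    intro z
    rw [hR, Multiset.mem_toFinset, mem_aroots]
    exact ⟨fun h => h.2, fun h => ⟨hp.ne_zero, h⟩⟩
  obtain ⟨n, hn⟩ := exists_pow R w ((hmem t).2 ht) hwt
  set δ : ℂ := ∑ z ∈ R, (w z : ℂ) * z ^ n with hδ
  -- the action on `δ`
  have hact : ∀ (σ : ℂ ≃+* ℂ) (s : ℤ), s * s = 1 →
      (∀ z, aeval z p = 0 → w (σ z) = s * w z) → σ δ = s * δ := by
    intro σ s hs h
    rw [hδ, map_sum, Finset.mul_sum]
    refine Finset.sum_equiv σ.toEquiv ?_ ?_
    · intro z
      rw [hmem, hmem]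
      change _ ↔ aeval (σ z) p = 0
      rw [← map_aev, map_eq_zero_iff σ σ.injective]
    · intro z hz
      change σ ((w z : ℂ) * z ^ n) = (s : ℂ) * ((w (σ z) : ℂ) * (σ z) ^ n)
      rw [h z ((hmem z).1 hz), map_mul, map_intCast, map_pow, Int.cast_mul]
      have hs' : (s : ℂ) * s = 1 := by exact_mod_cast hs
      linear_combination (-(w z : ℂ) * (σ z) ^ n) * hs'
  have hact' : ∀ σ : ℂ ≃+* ℂ, σ δ * (w t : ℂ) = δ * (w (σ t) : ℂ) := by
    intro σ
    rcases hσ σ with h | h
    · rw [hact σ 1 (by norm_num) (fun z hz => by rw [h z hz, one_mul]), h t ht]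
      push_cast; ring
    · rw [hact σ (-1) (by norm_num) (fun z hz => by rw [h z hz]; ring), h t ht]
      push_cast; ring
  have halg : IsAlgebraic ℚ δ := by
    rw [← mem_algebraicClosure_iff (F := ℚ) (E := ℂ)]
    refine sum_mem fun z hz => mul_mem (intCast_mem _ _) (pow_mem ?_ _)
    exact mem_algebraicClosure_iff.2 ⟨p, hp.ne_zero, (hmem z).1 hz⟩
  have hpm : ∀ σ : ℂ ≃+* ℂ, σ δ = δ ∨ σ δ = -δ := by
    intro σ
    rcases hσ σ with h | h
    · left
      have := hact σ 1 (by norm_num) (fun z hz => by rw [h z hz, one_mul])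
      rw [this]; push_cast; ring
    · right
      have := hact σ (-1) (by norm_num) (fun z hz => by rw [h z hz]; ring)
      rw [this]; push_cast; ring
  -- the square is rational
  obtain ⟨q1, hq1⟩ := hF 0 (δ ^ 2) isAlgebraic_zero (halg.pow 2) (fun σ _ => by
    rw [map_pow]
    rcases hpm σ with h | h <;> rw [h]
    ring)
  -- `δ` is a polynomial in `t`
  have halgt : IsAlgebraic ℚ t := ⟨p, hp.ne_zero, ht⟩
  obtain ⟨q0, hq0⟩ := hF t δ halgt halg (fun σ hσt => by
    rcases hσ σ with h | h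
    · have := hact σ 1 (by norm_num) (fun z hz => by rw [h z hz, one_mul])
      rw [this]; push_cast; ring
    · exfalso
      have := h t ht
      rw [hσt] at this
      exact hwt (by omega))
  -- an automorphism with `t ↦ -t`
  obtain ⟨σ, hσt⟩ := exists_sigma hp ht (hneg t ht)
  have hσδ : σ δ = -δ := by
    rcases hσ σ with h | h
    · exfalso
      have := h t ht
      rw [hσt, hw] at this
      exact hwt (by omega)
    · have := hact σ (-1) (by norm_num) (fun z hz => by rw [h z hz]; ring)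
      rw [this]; push_cast; ring
  have hq0n : aeval (-t) q0 = -δ := by
    rw [← hσt, ← map_aev, hq0, hσδ]
  have hcomp : aeval t (q0.comp (-X)) = -δ := by
    rw [aeval_comp, map_neg, aeval_X, hq0n]
  have hqt : aeval t (C (1 / 2 : ℚ) * (q0 - q0.comp (-X))) = δ := by
    rw [map_mul, map_sub, hq0, hcomp, aeval_C]
    simp only [one_div, map_inv₀, map_ofNat]
    ring
  have hwt' : (w t : ℂ) ≠ 0 := Int.cast_ne_zero.2 hwt
  refine ⟨C (1 / 2) * (q0 - q0.comp (-X)), q1.coeff 0, δ / (w t : ℂ), ?_, ?_, ?_, ?_⟩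
  · rw [mul_comp, C_comp, sub_comp, comp_assoc, neg_comp, X_comp, neg_neg, comp_X]
    ring
  · refine dvd_of_root hp ht ?_
    have h1 : aeval (0 : ℂ) q1 = (algebraMap ℚ ℂ) (q1.coeff 0) :=
      (coeff_zero_eq_aeval_zero' q1).symm
    rw [map_sub, map_pow, hqt, aeval_C, ← h1, hq1, sub_self]
  · exact div_ne_zero hn hwt'
  · intro z hz
    obtain ⟨τ, hτ⟩ := exists_sigma hp ht hz
    have h2 := hact' τ
    rw [hτ] at h2
    rw [← hτ, ← map_aev, hqt, hτ, div_mul_eq_mul_div, eq_div_iff hwt']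
    exact h2

end Pool.Agent.W5h86.CC
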