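import Pool.Agent.W5h86.CC.Z2
import Pool.Agent.W5h86.CC.W2

set_option autoImplicit false

/-!
# Relations between the conjugates and quadratic subfields
-/

open Polynomial

namespace Pool.Agent.W5h86.CC

/-- The sum over all the roots. -/
lemma sum_roots {κ : Type} [Fintype κ] (x : κ → ℂ) (R : Finset ℂ) (hR : ∀ k, x k ∈ R)
    (hR' : ∀ k, -x k ∈ R) (G : ℂ → ℂ) (hG : ∀ z, G (-z) = -G z) :
    ∑ t ∈ R, (wt x t : ℂ) * G t = 2 * ∑ k, G (x k) := by
  classical
  have h1 : ∀ a : ℂ, (wt x a : ℂ) * G a =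
      ∑ k, ((if x k = a then G a else 0) - (if -x k = a then G a else 0)) := by
    intro a
    have h2 : (wt x a : ℂ) =
        ∑ k, ((if x k = a then (1 : ℂ) else 0) - (if -x k = a then (1 : ℂ) else 0)) := by
      unfold wt cnt
      rw [Int.cast_sub, Int.cast_sum, Int.cast_sum, ← Finset.sum_sub_distrib]
      refine Finset.sum_congr rfl fun k _ => ?_
      have h3 : (x k = -a) ↔ (-x k = a) := by
        constructor
        · intro h
          rw [h, neg_neg]
        · intro h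
          rw [← h, neg_neg]
      simp only [h3]
      congr 1 <;> split_ifs <;> simp
    rw [h2, Finset.sum_mul]
    refine Finset.sum_congr rfl fun k _ => ?_
    rw [sub_mul]
    congr 1 <;> split_ifs <;> simp
  rw [Finset.sum_congr rfl fun a _ => h1 a, Finset.sum_comm, Finset.mul_sum]
  refine Finset.sum_congr rfl fun k _ => ?_
  rw [Finset.sum_sub_distrib, Finset.sum_ite_eq, if_pos (hR k), Finset.sum_ite_eq, if_pos (hR' k),
    hG]
  ring

/-- The sign character of a relation. -/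
theorem sgn_wt {p : ℚ[X]} (hC : ConstW p) {κ : Type} [Fintype κ]
    (x : κ → ℂ) (hx : ∀ k, aeval (x k) p = 0)
    (hf : ∀ s s' : ℂ, aeval s p = 0 → aeval s' p = 0 → s ≠ s' →
      ∃ f : ℚ[X], f.comp (-X) = -f ∧ aeval s f ≠ aeval s' f ∧ ∑ k, aeval (x k) f = 0)
    (a0 : ℂ) (ha0 : aeval a0 p = 0) (hne : wt x a0 ≠ 0) (σ : ℂ ≃+* ℂ) :
    (∀ z, aeval z p = 0 → wt x (σ z) = wt x z) ∨ (∀ z, aeval z p = 0 → wt x (σ z) = -wt x z) := by
  classical
  have hconst : ∀ t t' : ℂ, aeval t p = 0 → aeval t' p = 0 → |wt x t| = |wt x t'| :=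
    fun t t' ht ht' => hC κ x hx hf t t' ht ht'
  have h5 : 1 ≤ |wt x a0| := Int.one_le_abs hne
  have hk : 0 < |wt x a0| := by omega
  have hσroot : ∀ z, aeval z p = 0 → aeval (σ z) p = 0 := fun z hz => by
    rw [aeval_ringEquiv, hz, map_zero]
  have hσroot' : ∀ z, aeval z p = 0 → aeval (σ.symm z) p = 0 := fun z hz => by
    rw [aeval_ringEquiv, hz, map_zero]
  have hcnt : ∀ a, cnt (Sum.elim x fun k => σ.symm (x k)) a = cnt x a + cnt x (σ a) := by
    intro a
    unfold cnt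
    rw [Fintype.sum_sum_type]
    congr 1
    refine Finset.sum_congr rfl fun k _ => ?_
    rw [Sum.elim_inr]
    congr 1
    rw [eq_iff_iff]
    exact σ.symm_apply_eq
  have hwt' : ∀ a, wt (Sum.elim x fun k => σ.symm (x k)) a = wt x a + wt x (σ a) := by
    intro a
    unfold wt
    rw [hcnt, hcnt, map_neg]
    ring
  have h11 : ∀ t t' : ℂ, aeval t p = 0 → aeval t' p = 0 →
      |wt x t + wt x (σ t)| = |wt x t' + wt x (σ t')| := by
    intro t t' ht ht'
    rw [← hwt', ← hwt']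
    refine hC _ _ (fun k => ?_) (fun s s' hs hs' hss => ?_) t t' ht ht'
    · rcases k with k | k
      · exact hx k
      · exact hσroot' _ (hx k)
    · obtain ⟨f, hf1, hf2, hf3⟩ := hf s s' hs hs' hss
      refine ⟨f, hf1, hf2, ?_⟩
      rw [Fintype.sum_sum_type]
      simp only [Sum.elim_inl, Sum.elim_inr]
      rw [hf3, zero_add, Finset.sum_congr rfl fun k _ => aeval_ringEquiv σ.symm f (x k),
        ← map_sum, hf3, map_zero]
  have h12 : ∀ t : ℂ, aeval t p = 0 → wt x (σ t) = wt x t ∨ wt x (σ t) = -wt x t := by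
    intro t ht
    exact abs_eq_abs.1 (hconst _ _ (hσroot t ht) ht)
  by_cases h13 : ∃ t, aeval t p = 0 ∧ wt x (σ t) = wt x t
  · obtain ⟨t1, ht1, ht1'⟩ := h13
    left
    intro t ht
    rcases h12 t ht with h14 | h14
    · exact h14
    · exfalso
      have h15 := h11 t t1 ht ht1
      rw [h14, ht1', add_neg_cancel, abs_zero, ← two_mul, abs_mul] at h15
      have h16 := hconst t1 a0 ht1 ha0
      rw [h16] at h15
      have h17 : |(2 : ℤ)| = 2 := rfl
      rw [h17] at h15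
      omega
  · right
    intro t ht
    rcases h12 t ht with h14 | h14
    · exact absurd ⟨t, ht, h14⟩ h13
    · exact h14

/-- **All relations come from quadratic subfields.** -/
theorem rel_weil (p : ℚ[X]) (hp : Irreducible p)
    (hneg : ∀ z : ℂ, aeval z p = 0 → aeval (-z) p = 0)
    (hC : ConstW p) {κ : Type} [Fintype κ]
    (x : κ → ℂ) (hx : ∀ k, aeval (x k) p = 0)
    (hf : ∀ s s' : ℂ, aeval s p = 0 → aeval s' p = 0 → s ≠ s' →
      ∃ f : ℚ[X], f.comp (-X) = -f ∧ aeval s f ≠ aeval s' f ∧ ∑ k, aeval (x k) f = 0)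
    (h' : ℂ → ℂ) (hh : ∀ z, h' (-z) = -h' z)
    (hq : ∀ (q : ℚ[X]) (c : ℚ), q.comp (-X) = -q → p ∣ q ^ 2 - C c →
      ∑ t ∈ (p.aroots ℂ).toFinset, aeval t q * h' t = 0) : ∑ k, h' (x k) = 0 := by
  classical
  have hp0 : p ≠ 0 := hp.ne_zero
  have hmem : ∀ z : ℂ, z ∈ (p.aroots ℂ).toFinset ↔ aeval z p = 0 := by
    intro z
    rw [Multiset.mem_toFinset, Polynomial.mem_aroots]
    exact ⟨fun h => h.2, fun h => ⟨hp0, h⟩⟩
  have h1 := sum_roots x (p.aroots ℂ).toFinset (fun k => (hmem _).2 (hx k))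
    (fun k => (hmem _).2 (hneg _ (hx k))) h' hh
  suffices h2 : ∑ t ∈ (p.aroots ℂ).toFinset, (wt x t : ℂ) * h' t = 0 by
    rw [h2] at h1
    exact (mul_eq_zero.1 h1.symm).resolve_left two_ne_zero
  by_cases hall : ∀ a, aeval a p = 0 → wt x a = 0
  · refine Finset.sum_eq_zero fun t ht => ?_
    rw [hall t ((hmem t).1 ht), Int.cast_zero, zero_mul]
  · push Not at hall
    obtain ⟨a0, ha0, hne⟩ := hall
    obtain ⟨q, c, δ, hq1, hq2, hδ, hq3⟩ := exists_quad2 p hp hneg (wt x) (wt_neg x) a0 ha0 hne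
      fun σ => sgn_wt hC x hx hf a0 ha0 hne σ
    have h3 := hq q c hq1 hq2
    have h4 : ∑ t ∈ (p.aroots ℂ).toFinset, aeval t q * h' t =
        δ * ∑ t ∈ (p.aroots ℂ).toFinset, (wt x t : ℂ) * h' t := by
      rw [Finset.mul_sum]
      refine Finset.sum_congr rfl fun t ht => ?_
      rw [hq3 t ((hmem t).1 ht), mul_assoc]
    rw [h4] at h3
    exact (mul_eq_zero.1 h3).resolve_left hδ

end Pool.Agent.W5h86.CC
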