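import Pool.Agent.W5h86.CC.Mn2
import Pool.Agent.W5h86.CC.Z3
import Pool.Agent.W5h86.CC.Tr
import Pool.Agent.W5h86.CC.TrJ
import Pool.Agent.W5h86.CC.HJ

set_option autoImplicit false
set_option linter.unusedSectionVars false
set_option linter.unusedSimpArgs false
set_option linter.unusedVariables false

/-!
# Abelian varieties of Weil type with complex multiplication: de Rham-Betti classes are Hodge classes
-/

open Module Polynomial Function TensorProduct

noncomputable section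

namespace Pool.Agent.W5h86.CC

open Pool.Agent.Y102 Pool.Agent.W516.DR Pool.Agent.W516.KC Pool.Agent.H204R3.SP Pool.Agent.W5h86.LY
open Pool.Agent.W5h86.LX Pool.Agent.H204R3.GP

variable {g : ℕ} (A : AbVar g)

/-- **The annihilation by an element of the centre.** -/
theorem kills_rel1 {P : Module.End ℚ A.H1} (hP : P ∈ A.EA) (hPs : IsSkew A.om P)
    (hEA : ∀ Q ∈ A.EA, Q ∈ Algebra.adjoin ℚ {P}) {κ : Type} [Fintype κ] [DecidableEq κ]
    {f' : ℚ[X]}
    (hrel : ∀ x : κ → ℂ, (∀ k, aeval (x k) (minpoly ℚ P) = 0) →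
      (∀ f : ℚ[X], f.comp (-X) = -f → aeval P f ∈ A.LA → ∑ k, aeval (x k) f = 0) →
      ∑ k, aeval (x k) f' = 0)
    {Z : Module.End ℚ A.H1} (hfZ : aeval P f' = Z)
    {φ : MultilinearMap ℚ (fun _ : κ => A.H1) ℚ} (hφ : ∀ X ∈ A.LA, Kills X φ) : Kills Z φ := by
  classical
  have hcomm : ∀ Q ∈ A.EA, ∀ Q' ∈ A.EA, Q * Q' = Q' * Q := by
    intro Q hQ Q' hQ'
    have h1 := hEA Q hQ
    have h2 := hEA Q' hQ'
    rw [Algebra.adjoin_singleton_eq_range_aeval] at h1 h2
    obtain ⟨p, rfl⟩ := h1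
    obtain ⟨p', rfl⟩ := h2
    change aeval P p * aeval P p' = aeval P p' * aeval P p
    exact ((map_mul (aeval P) p p').symm.trans (congrArg (aeval P) (mul_comm p p'))).trans
      (map_mul (aeval P) p' p)
  have hPZ : P ∈ A.ZA := ⟨hP, hPs, fun Q hQ => hcomm P hP Q hQ⟩
  obtain ⟨n, b, χ, hb⟩ := A.exists_basis
  have hbf : ∀ (p : ℚ[X]) i, (aeval P p).baseChange ℂ (b i) =
      aeval (χ i ⟨P, hPZ⟩) p • b i := by
    intro p i
    rw [← aeval_baseChange]
    exact AbVar.aeval_eigen (hb i ⟨P, hPZ⟩) p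
  let β := Module.finBasis ℚ A.H1
  have hcmp : ∀ (lam : ℂ →ₗ[ℚ] ℚ) (Y : Module.End ℚ A.H1),
      Pool.Agent.W516.DR.cmpE lam (Y.baseChange ℂ) = lam 1 • Y := by
    intro lam Y
    refine LinearMap.ext fun w => ?_
    rw [Pool.Agent.W516.DR.cmpE_apply, LinearMap.baseChange_tmul, Pool.Agent.W516.DR.cmp_tmul,
      LinearMap.smul_apply]
  have h1 : ∀ X0 ∈ A.LA, Kills (X0.baseChange ℂ) (bcm (Ω := ℂ) β φ) := fun X0 hX0 =>
    (kills_bcm_iff β φ _).2 fun lam => by
      rw [hcmp]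
      exact hφ _ (A.LA.smul_mem _ hX0)
  have h2 : Kills (Z.baseChange ℂ) (bcm (Ω := ℂ) β φ) := by
    refine kills_of_basis b _ _ fun I => ?_
    have h3 : ∀ p : ℚ[X], ∑ k, bcm (Ω := ℂ) β φ (update (fun l => b (I l)) k
        ((aeval P p).baseChange ℂ (b (I k)))) =
        (∑ k, aeval (χ (I k) ⟨P, hPZ⟩) p) * bcm (Ω := ℂ) β φ (fun l => b (I l)) := by
      intro p
      rw [Finset.sum_mul]
      refine Finset.sum_congr rfl fun k _ => ?_
      rw [hbf, MultilinearMap.map_update_smul, smul_eq_mul]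
      congr 2
      exact update_eq_self k (fun l => b (I l))
    rw [← hfZ, h3 f']
    by_cases h0 : bcm (Ω := ℂ) β φ (fun l => b (I l)) = 0
    · rw [h0, mul_zero]
    · have h6 := hrel (fun k => χ (I k) ⟨P, hPZ⟩) (fun k => by
        have h7 := hbf (minpoly ℚ P) (I k)
        rw [minpoly.aeval, LinearMap.baseChange_zero, LinearMap.zero_apply] at h7
        exact (smul_eq_zero.1 h7.symm).resolve_right (b.ne_zero _)) (fun f hf hfL => by
        have h4 := h1 _ hfL (fun l => b (I l))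
        rw [h3 f] at h4
        exact (mul_eq_zero.1 h4).resolve_right h0)
      rw [h6, zero_mul]
  obtain ⟨lam, hlam⟩ : ∃ lam : ℂ →ₗ[ℚ] ℚ, lam 1 = 1 := by
    obtain ⟨G, hG⟩ := exists_lin (F := ℚ) (v := fun _ : Unit => (1 : ℂ)) (by
      rw [linearIndependent_unique_iff]
      exact one_ne_zero) (fun _ => (1 : ℚ))
    exact ⟨G, hG ()⟩
  have h3 := (kills_bcm_iff β φ _).1 h2 lam
  rwa [hcmp, hlam, one_smul] at h3

/-- **The Lie algebra of the de Rham-Betti group** contains all skew-symmetric endomorphisms which are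
orthogonal to the quadratic subfields. -/
theorem main11 {P : Module.End ℚ A.H1} (hP : P ∈ A.EA) (hPs : IsSkew A.om P)
    (hEA : ∀ Q ∈ A.EA, Q ∈ Algebra.adjoin ℚ {P})
    (hsimple : ∀ Q ∈ A.EA, Q ≠ 0 → Function.Injective Q)
    (hdeg : (minpoly ℚ P).natDegree = 2 * g) (hC : 0 < g → ConstW (minpoly ℚ P))
    {Z : Module.End ℚ A.H1} (hZs : IsSkew A.om Z) (hZP : Z * P = P * Z)
    (htr : ∀ D ∈ A.EA, IsSkew A.om D → ∀ c : ℚ, D * D = c • (1 : Module.End ℚ A.H1) →
      LinearMap.trace ℚ A.H1 (D * Z) = 0) {m : ℕ}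
    {φ : MultilinearMap ℚ (fun _ : Fin m × Fin 2 => A.H1) ℚ}
    (hφ : IsDeRhamBettiForm QBar A.dR tau m φ) : Kills Z φ := by
  classical
  rcases Nat.eq_zero_or_pos g with hg0 | hg0
  · subst hg0
    intro v
    have hsub : Subsingleton A.H1 := ⟨fun a b => funext fun i => absurd i.2 (by omega)⟩
    refine Finset.sum_eq_zero fun k _ => ?_
    rw [Subsingleton.elim (Z (v k)) 0]
    exact φ.map_update_zero v k
  have hnt : Nontrivial A.H1 := by
    have : Nonempty (Fin (2 * g)) := ⟨⟨0, by omega⟩⟩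
    exact Function.nontrivial
  have hadj : ∀ Q ∈ Algebra.adjoin ℚ {P}, Q ∈ A.EA := by
    intro Q hQ
    rw [Algebra.adjoin_singleton_eq_range_aeval] at hQ
    obtain ⟨p, rfl⟩ := hQ
    exact A.aeval_mem hP p
  have hirr : Irreducible (minpoly ℚ P) :=
    Pool.Agent.W5h86.RK.irr_minpoly fun Q hQ hQ0 => hsimple Q (hadj Q hQ) hQ0
  have hneg : ∀ z : ℂ, aeval z (minpoly ℚ P) = 0 → aeval (-z) (minpoly ℚ P) = 0 :=
    fun z hz => AbVar.neg_root A hPs hz
  obtain ⟨h0, hh0, hh1⟩ := exists_odd A hPs (adjoin_of_comm A hP hsimple hdeg hZP) hZs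
  refine kills_rel1 A hP hPs hEA (f' := h0) (fun x hx hsum => ?_) hh1
    (fun X hX => A.kills_of_mem hφ hX)
  refine rel_weil _ hirr hneg (hC hg0) x hx (fun s s' hs hs' hne => ?_)
    (fun z => aeval z h0) (fun z => ?_) (fun q c hq hqc => ?_)
  · obtain ⟨f, hf1, hf2, hf3⟩ := separate A hP hPs hEA hsimple hdeg hs hs' hne
    exact ⟨f, hf1, hf3, hsum f hf1 hf2⟩
  · have h7 := congrArg (aeval z) hh0
    rw [aeval_comp, map_neg, aeval_X, map_neg] at h7
    exact h7
  · have hD := A.aeval_mem hP q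
    have hDD : aeval P q * aeval P q = c • (1 : Module.End ℚ A.H1) := by
      have h1 := minpoly.aeval ℚ P
      obtain ⟨r, hr⟩ := hqc
      have h2 := congrArg (aeval P) hr
      rw [map_mul, h1, zero_mul, map_sub, map_pow, aeval_C, sub_eq_zero, pow_two] at h2
      rw [h2, Algebra.algebraMap_eq_smul_one]
    have htr := htr _ hD (skew_odd A hPs hq) c hDD
    rw [← hh1] at htr
    have h3 : aeval P q * aeval P h0 = aeval P (q * h0) := (map_mul (aeval P) q h0).symm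
    rw [h3] at htr
    have h4 := trace_aeval P hirr (by
      rw [hdeg]
      exact (Module.finrank_fin_fun ℚ).symm) (q * h0)
    rw [htr, Rat.cast_zero] at h4
    rw [h4]
    exact Finset.sum_congr rfl fun t _ => (map_mul (aeval t) q h0).symm

/-- **De Rham-Betti classes are Hodge classes**, if the variety is of Weil type for all imaginary
quadratic subfields. -/
theorem main10 {P : Module.End ℚ A.H1} (hP : P ∈ A.EA) (hPs : IsSkew A.om P)
    (hEA : ∀ Q ∈ A.EA, Q ∈ Algebra.adjoin ℚ {P})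
    (hsimple : ∀ Q ∈ A.EA, Q ≠ 0 → Function.Injective Q)
    (hdeg : (minpoly ℚ P).natDegree = 2 * g) (hC : 0 < g → ConstW (minpoly ℚ P))
    (hweil : ∀ D ∈ A.EA, IsSkew A.om D → ∀ c : ℚ, D * D = c • (1 : Module.End ℚ A.H1) →
      ∀ M : (Fin g → ℂ) →ₗ[ℂ] (Fin g → ℂ), (∀ w, M (A.per w) = A.per (D w)) →
        LinearMap.trace ℂ (Fin g → ℂ) M = 0) {m : ℕ}
    {φ : MultilinearMap ℚ (fun _ : Fin m × Fin 2 => A.H1) ℚ}
    (hφ : IsDeRhamBettiForm QBar A.dR tau m φ) :
    IsHodgeTensor (A.per : A.H1 →+ (Fin g → ℂ)) φ := by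
  refine hodge_of_JJ A φ fun f => ?_
  have hZ := A.J_mem f
  refine main11 A hP hPs hEA hsimple hdeg hC (A.MA_skew hZ)
    (A.MA_comm hZ (A.hodge_end (A.mem_EA.1 hP))) (fun D hD hDs c hDD => ?_) hφ
  obtain ⟨M, hM⟩ := A.hodge_end (A.mem_EA.1 hD)
  exact trace_JJ A (D := D) hM (hweil D hD hDs c hDD M hM) f

end Pool.Agent.W5h86.CC
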