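import Pool.Agent.W5h86.CC.Z2

set_option autoImplicit false

/-!
# Simple tori from a large prime number
-/

open Polynomial

namespace Pool.Agent.W5h86.CC

variable {p : ℚ[X]}

/-- If an odd polynomial takes the same value at two neighbours of a long cycle then its square is
rational. -/
theorem sq_rational {l g : ℕ} (hg : g < 2 * l) (hgpos : 1 ≤ g)
    (hp : Irreducible p) (hdeg : p.natDegree = 2 * g)
    (hneg : ∀ z : ℂ, aeval z p = 0 → aeval (-z) p = 0) {f : ℚ[X]} (hf : f.comp (-X) = -f)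
    (τ : ℂ ≃+* ℂ) (s : ℕ → ℂ) (hs : ∀ j, aeval (s j) p = 0) (hτ : ∀ j, τ (s j) = s (j + 1))
    (hinj : ∀ i < l, ∀ j < l, s i ^ 2 = s j ^ 2 → i = j)
    (hval : aeval (s 1) f = aeval (s 0) f) : ∃ c : ℚ, p ∣ f ^ 2 - C c := by
  classical
  have hp0 : p ≠ 0 := hp.ne_zero
  have hmem : ∀ z : ℂ, z ∈ (p.aroots ℂ).toFinset ↔ aeval z p = 0 := by
    intro z
    rw [Multiset.mem_toFinset, Polynomial.mem_aroots]
    exact ⟨fun h => h.2, fun h => ⟨hp0, h⟩⟩
  set Sq : Finset ℂ := (p.aroots ℂ).toFinset.image fun z => z ^ 2 with hSq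
  have hSqc : Sq.card = g := card_sq_eq hgpos p hp hdeg hneg
  have hSqm : ∀ z : ℂ, aeval z p = 0 → z ^ 2 ∈ Sq := fun z hz =>
    Finset.mem_image.2 ⟨z, (hmem z).2 hz, rfl⟩
  have hodd : ∀ z : ℂ, aeval (-z) f = -aeval z f := by
    intro z
    have h7 := congrArg (aeval z) hf
    rw [aeval_comp, map_neg, aeval_X, map_neg] at h7
    exact h7
  -- the value is constant on the cycle
  have h1 : ∀ j, aeval (s (j + 1)) f = aeval (s j) f := by
    intro j
    induction j with
    | zero => exact hval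
    | succ j ih =>
      have h2 := congrArg τ ih
      rwa [← aeval_ringEquiv, ← aeval_ringEquiv, hτ, hτ] at h2
  have h2 : ∀ j, aeval (s j) f = aeval (s 0) f := by
    intro j
    induction j with
    | zero => rfl
    | succ j ih => rw [h1, ih]
  -- the square of the value is the same at all roots
  have h3 : ∀ t t' : ℂ, aeval t p = 0 → aeval t' p = 0 → aeval t f ^ 2 = aeval t' f ^ 2 := by
    intro t t' ht ht'
    obtain ⟨β, hβ⟩ := PW.exists_sigma hp (hs 0) ht
    obtain ⟨β', hβ'⟩ := PW.exists_sigma hp (hs 0) ht'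
    have hβroot : ∀ (β : ℂ ≃+* ℂ) j, aeval (β (s j)) p = 0 := fun β j => by
      rw [aeval_ringEquiv, hs, map_zero]
    have hcard : ∀ β : ℂ ≃+* ℂ, ((Finset.range l).image fun j => (β (s j)) ^ 2).card = l := by
      intro β
      rw [Finset.card_image_of_injOn, Finset.card_range]
      intro i hi j hj hij
      rw [Finset.coe_range, Set.mem_Iio] at hi hj
      refine hinj i hi j hj (β.injective ?_)
      rw [map_pow, map_pow]
      exact hij
    have hsub : ((Finset.range l).image fun j => (β (s j)) ^ 2) ∪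
        ((Finset.range l).image fun j => (β' (s j)) ^ 2) ⊆ Sq := by
      intro y hy
      rcases Finset.mem_union.1 hy with h | h
      · obtain ⟨j, _, rfl⟩ := Finset.mem_image.1 h
        exact hSqm _ (hβroot β j)
      · obtain ⟨j, _, rfl⟩ := Finset.mem_image.1 h
        exact hSqm _ (hβroot β' j)
    have hnd : ¬ Disjoint ((Finset.range l).image fun j => (β (s j)) ^ 2)
        ((Finset.range l).image fun j => (β' (s j)) ^ 2) := by
      intro hd
      have h1 := Finset.card_le_card hsub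
      rw [Finset.card_union_of_disjoint hd, hcard, hcard, hSqc] at h1
      omega
    rw [Finset.not_disjoint_iff] at hnd
    obtain ⟨y, hy1, hy2⟩ := hnd
    obtain ⟨i, _, hiy⟩ := Finset.mem_image.1 hy1
    obtain ⟨j, _, hjy⟩ := Finset.mem_image.1 hy2
    have h4 : ∀ (β : ℂ ≃+* ℂ) j, aeval (β (s j)) f = aeval (β (s 0)) f := fun β j => by
      rw [aeval_ringEquiv, aeval_ringEquiv, h2]
    have h5 : β (s i) = β' (s j) ∨ β (s i) = -β' (s j) := sq_eq_sq_iff_eq_or_eq_neg.1 (by
      rw [hiy, hjy])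
    have h6 : aeval (β (s i)) f ^ 2 = aeval (β' (s j)) f ^ 2 := by
      rcases h5 with h5 | h5
      · rw [h5]
      · rw [h5, hodd, neg_sq]
    rw [h4 β i, h4 β' j, hβ, hβ'] at h6
    exact h6
  -- the value is rational
  have halg : IsAlgebraic ℚ (aeval (s 0) f ^ 2) := by
    have h4 : IsAlgebraic ℚ (s 0) := ⟨p, hp0, hs 0⟩
    have h5 : IsIntegral ℚ (s 0) := h4.isIntegral
    have h6 : aeval (s 0) f ^ 2 ∈ Algebra.adjoin ℚ {s 0} :=
      Subalgebra.pow_mem _ (aeval_mem_adjoin_singleton ℚ (s 0)) 2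
    have h7 : IsIntegral ℚ (aeval (s 0) f ^ 2) :=
      (Algebra.adjoin_le (S := integralClosure ℚ ℂ) (by
              rintro _ rfl
              exact h5)) h6
    exact h7.isAlgebraic
  obtain ⟨q, hq⟩ := fixed_mem 0 (aeval (s 0) f ^ 2) isAlgebraic_zero halg fun σ _ => by
    rw [map_pow, ← aeval_ringEquiv]
    exact h3 _ _ (by rw [aeval_ringEquiv, hs, map_zero]) (hs 0)
  refine ⟨q.eval 0, PW.dvd_of_root hp (hs 0) ?_⟩
  rw [map_sub, map_pow, aeval_C, ← hq]
  have h4 : aeval (0 : ℂ) q = algebraMap ℚ ℂ (q.eval 0) := by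
    have h5 := aeval_algebraMap_apply ℂ (0 : ℚ) q
    rw [map_zero] at h5
    rw [h5]
    rfl
  rw [h4, sub_self]

end Pool.Agent.W5h86.CC
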