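import Pool.Agent.W5h86.CC.S1
import Pool.Agent.W5h86.CC.Asm

set_option autoImplicit false

/-!
# Simple tori from a large prime number, part 2
-/

open Polynomial

namespace Pool.Agent.W5h86.CC

variable {p : ℚ[X]}

/-- The absolute value of the weight of a relation is constant. -/
theorem abs_wt_const1 {l g : ℕ} (hl : l.Prime) (hodd : l ≠ 2) (hg : g < 2 * l) (hgpos : 1 ≤ g)
    (hp : Irreducible p) (hdeg : p.natDegree = 2 * g)
    (hneg : ∀ z : ℂ, aeval z p = 0 → aeval (-z) p = 0)
    (hdvd : l = g ∨ l ∣ Nat.card p.Gal) (hN : NQuad p) {f : ℚ[X]} (hf1 : f.comp (-X) = -f)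
    (hf0 : ¬ p ∣ f) {κ : Type} [Fintype κ]
    (x : κ → ℂ) (hx : ∀ k, aeval (x k) p = 0) (hf3 : ∑ k, aeval (x k) f = 0)
    (t t' : ℂ) (ht : aeval t p = 0) (ht' : aeval t' p = 0) : |wt x t| = |wt x t'| := by
  classical
  have hp0 : p ≠ 0 := hp.ne_zero
  have hl3 : 1 < l := hl.one_lt
  have hmem : ∀ z : ℂ, z ∈ (p.aroots ℂ).toFinset ↔ aeval z p = 0 := by
    intro z
    rw [Multiset.mem_toFinset, Polynomial.mem_aroots]
    exact ⟨fun h => h.2, fun h => ⟨hp0, h⟩⟩
  set Sq : Finset ℂ := (p.aroots ℂ).toFinset.image fun z => z ^ 2 with hSq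
  have hSqc : Sq.card = g := card_sq_eq hgpos p hp hdeg hneg
  have hSqm : ∀ z : ℂ, aeval z p = 0 → z ^ 2 ∈ Sq := fun z hz =>
    Finset.mem_image.2 ⟨z, (hmem z).2 hz, rfl⟩
  -- the weight is constant on the long cycles
  have hcyc : ∀ (τ : ℂ ≃+* ℂ) (s : ℕ → ℂ), (∀ j, aeval (s j) p = 0) →
      (∀ j, τ (s j) = s (j + 1)) → (∀ j, s (j + l) = s j) →
      (∀ i < l, ∀ j < l, s i ^ 2 = s j ^ 2 → i = j) →
      (∀ y : ℂ, aeval y p = 0 → (∀ j, y ≠ s j ∧ y ≠ -s j) → τ y = y) →
      ∀ j < l, wt x (s j) = wt x (s 0) := by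
    intro τ s hs hτ hper hinj hfix
    have hf2 : aeval (s 1) f ≠ aeval (s 0) f := by
      intro h
      obtain ⟨c, hc⟩ := sq_rational hg hgpos hp hdeg hneg hf1 τ s hs hτ hinj h
      exact hf0 (hN f c hf1 hc)
    have hfodd : ∀ z : ℂ, aeval (-z) f = -aeval z f := by
      intro z
      have h7 := congrArg (aeval z) hf1
      rw [aeval_comp, map_neg, aeval_X, map_neg] at h7
      exact h7
    have hfτ : ∀ z : ℂ, aeval (τ z) f = τ (aeval z f) := fun z => aeval_ringEquiv τ f z
    have hsum0 : ∑ k, (aeval (τ (x k)) f - aeval (x k) f) = 0 := by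
      rw [Finset.sum_sub_distrib, hf3, sub_zero, Finset.sum_congr rfl fun k _ => hfτ (x k),
        ← map_sum, hf3, map_zero]
    have hmod : ∀ j, s j = s (j % l) := by
      intro j
      have h1 : ∀ q r : ℕ, s (r + l * q) = s r := by
        intro q r
        induction q with
        | zero => rw [mul_zero, add_zero]
        | succ q ih => rw [mul_add, mul_one, ← add_assoc, hper, ih]
      have h2 := h1 (j / l) (j % l)
      rw [Nat.mod_add_div] at h2
      exact h2
    have hinjS : Set.InjOn s (Finset.range l : Set ℕ) := by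
      intro i hi j hj hij
      rw [Finset.coe_range, Set.mem_Iio] at hi hj
      exact hinj i hi j hj (by rw [hij])
    have h1 := sum_on x ((Finset.range l).image s) (by
      intro a ha b hb hab
      obtain ⟨i, hi, rfl⟩ := Finset.mem_image.1 ha
      obtain ⟨j, hj, rfl⟩ := Finset.mem_image.1 hb
      rw [hinj i (Finset.mem_range.1 hi) j (Finset.mem_range.1 hj) hab])
      (fun z => aeval (τ z) f - aeval z f) (fun z => by
        rw [map_neg, hfodd, hfodd]
        ring) (fun k => by
        by_cases hk : ∃ a ∈ (Finset.range l).image s, x k = a ∨ x k = -a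
        · exact Or.inl hk
        · right
          have h2 : τ (x k) = x k := by
            refine hfix _ (hx k) fun j => ?_
            have h3 : s j ∈ (Finset.range l).image s := by
              rw [hmod j]
              exact Finset.mem_image_of_mem _ (Finset.mem_range.2 (Nat.mod_lt _ hl.pos))
            exact ⟨fun h => hk ⟨_, h3, Or.inl h⟩, fun h => hk ⟨_, h3, Or.inr h⟩⟩
          rw [h2, sub_self])
    rw [hsum0, Finset.sum_image hinjS] at h1
    refine const_cycle hl (fun j => aeval (s j) f) (τ : ℂ →+* ℂ) (fun j => ?_) (fun j => ?_) hf2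
      (fun j => wt x (s j)) ?_
    · rw [← hτ j]
      exact (hfτ (s j)).symm
    · rw [hper]
    · rw [h1]
      refine Finset.sum_congr rfl fun j _ => ?_
      rw [hτ j]
  -- the absolute value of the weight is constant
  obtain ⟨τ, s, hs0, hs, hτ, hper, hinj, hfix⟩ :=
    exists_long hl hodd hg p hp hdeg hneg hdvd t ht
  obtain ⟨τ', s', hs0', hs', hτ', hper', hinj', hfix'⟩ :=
    exists_long hl hodd hg p hp hdeg hneg hdvd t' ht'
  have hA : ((Finset.range l).image fun j => s j ^ 2).card = l := by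
    rw [Finset.card_image_of_injOn, Finset.card_range]
    intro i hi j hj hij
    rw [Finset.coe_range, Set.mem_Iio] at hi hj
    exact hinj i hi j hj hij
  have hA' : ((Finset.range l).image fun j => s' j ^ 2).card = l := by
    rw [Finset.card_image_of_injOn, Finset.card_range]
    intro i hi j hj hij
    rw [Finset.coe_range, Set.mem_Iio] at hi hj
    exact hinj' i hi j hj hij
  have hsub : ((Finset.range l).image fun j => s j ^ 2) ∪
      ((Finset.range l).image fun j => s' j ^ 2) ⊆ Sq := by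
    intro y hy
    rcases Finset.mem_union.1 hy with h | h
    · obtain ⟨j, _, rfl⟩ := Finset.mem_image.1 h
      exact hSqm _ (hs j)
    · obtain ⟨j, _, rfl⟩ := Finset.mem_image.1 h
      exact hSqm _ (hs' j)
  have hnd : ¬ Disjoint ((Finset.range l).image fun j => s j ^ 2)
      ((Finset.range l).image fun j => s' j ^ 2) := by
    intro hd
    have h1 := Finset.card_le_card hsub
    rw [Finset.card_union_of_disjoint hd, hA, hA', hSqc] at h1
    omega
  rw [Finset.not_disjoint_iff] at hnd
  obtain ⟨y, hy1, hy2⟩ := hnd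
  obtain ⟨i, hi, hiy⟩ := Finset.mem_image.1 hy1
  obtain ⟨j, hj, hjy⟩ := Finset.mem_image.1 hy2
  have h1 := hcyc τ s hs hτ hper hinj hfix i (Finset.mem_range.1 hi)
  have h2 := hcyc τ' s' hs' hτ' hper' hinj' hfix' j (Finset.mem_range.1 hj)
  rw [hs0] at h1
  rw [hs0'] at h2
  have h3 : s i = s' j ∨ s i = -s' j := sq_eq_sq_iff_eq_or_eq_neg.1 (by
    rw [hiy, hjy])
  rw [← h1, ← h2]
  rcases h3 with h3 | h3
  · rw [h3]
  · rw [h3, wt_neg, abs_neg]

/-- Relations between the values of an odd polynomial at the roots are trivial if there is no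
imaginary quadratic subfield. -/
theorem rel_trivial3 {l g : ℕ} (hl : l.Prime) (hodd : l ≠ 2) (hg : g < 2 * l)
    (hp : Irreducible p) (hdeg : p.natDegree = 2 * g)
    (hneg : ∀ z : ℂ, aeval z p = 0 → aeval (-z) p = 0)
    (hdvd : l = g ∨ l ∣ Nat.card p.Gal) (hm : NQuad p) {f : ℚ[X]} (hf1 : f.comp (-X) = -f)
    (hf0 : ¬ p ∣ f) {κ : Type} [Fintype κ]
    (x : κ → ℂ) (hx : ∀ k, aeval (x k) p = 0) (hf3 : ∑ k, aeval (x k) f = 0)
    (h' : ℂ → ℂ) (hh : ∀ z, h' (-z) = -h' z) : ∑ k, h' (x k) = 0 := by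
  classical
  have hp0 : p ≠ 0 := hp.ne_zero
  have hgpos : 1 ≤ g := by
    rcases Nat.eq_zero_or_pos g with h | h
    · exfalso
      rw [h, mul_zero] at hdeg
      exact hp.not_isUnit (Polynomial.isUnit_iff_degree_eq_zero.2
        (by rw [Polynomial.degree_eq_natDegree hp0, hdeg]; rfl))
    · exact h
  have hzero : ∀ z : ℂ, aeval z p = 0 → z ≠ 0 := fun z hz => root_ne_zero hp hdeg z hz
  have hmem : ∀ z : ℂ, z ∈ (p.aroots ℂ).toFinset ↔ aeval z p = 0 := by
    intro z
    rw [Multiset.mem_toFinset, Polynomial.mem_aroots]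
    exact ⟨fun h => h.2, fun h => ⟨hp0, h⟩⟩
  set Sq : Finset ℂ := (p.aroots ℂ).toFinset.image fun z => z ^ 2 with hSq
  have hSqc : Sq.card = g := card_sq_eq hgpos p hp hdeg hneg
  have hSqm : ∀ z : ℂ, aeval z p = 0 → z ^ 2 ∈ Sq := fun z hz =>
    Finset.mem_image.2 ⟨z, (hmem z).2 hz, rfl⟩
  -- representatives
  have hrep : ∀ y : ℂ, ∃ z : ℂ, y ∈ Sq → aeval z p = 0 ∧ z ^ 2 = y := by
    intro y
    by_cases hy : y ∈ Sq
    · obtain ⟨z, hz, hzy⟩ := Finset.mem_image.1 hy
      exact ⟨z, fun _ => ⟨(hmem z).1 hz, hzy⟩⟩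
    · exact ⟨0, fun h => absurd h hy⟩
  choose c hc using hrep
  set T : Finset ℂ := Sq.image c with hTdef
  have hTroot : ∀ a ∈ T, aeval a p = 0 := by
    intro a ha
    obtain ⟨y, hy, rfl⟩ := Finset.mem_image.1 ha
    exact (hc y hy).1
  have hTinj : ∀ a ∈ T, ∀ b ∈ T, a ^ 2 = b ^ 2 → a = b := by
    intro a ha b hb hab
    obtain ⟨y, hy, rfl⟩ := Finset.mem_image.1 ha
    obtain ⟨y', hy', rfl⟩ := Finset.mem_image.1 hb
    rw [(hc y hy).2, (hc y' hy').2] at hab
    rw [hab]
  have hTcard : T.card = g := by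
    rw [hTdef, Finset.card_image_of_injOn, hSqc]
    intro y hy y' hy' hyy
    have h1 := (hc y hy).2
    have h2 := (hc y' hy').2
    rw [← h1, ← h2]
    exact congrArg (fun z => z ^ 2) hyy
  have hTcov : ∀ k, ∃ a ∈ T, x k = a ∨ x k = -a := by
    intro k
    refine ⟨c (x k ^ 2), Finset.mem_image_of_mem _ (hSqm _ (hx k)), ?_⟩
    exact sq_eq_sq_iff_eq_or_eq_neg.1 (hc _ (hSqm _ (hx k))).2.symm
  have hconst : ∀ t t' : ℂ, aeval t p = 0 → aeval t' p = 0 → |wt x t| = |wt x t'| :=
    fun t t' ht ht' => abs_wt_const1 hl hodd hg hgpos hp hdeg hneg hdvd hm hf1 hf0 x hx hf3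
      t t' ht ht'
  -- the conclusion
  have hall : ∀ a ∈ T, wt x a = 0 := by
    by_contra hcon
    push Not at hcon
    obtain ⟨a0, ha0, hne⟩ := hcon
    have h5 : 1 ≤ |wt x a0| := Int.one_le_abs hne
    have hk : 0 < |wt x a0| := by omega
    have hsgn : ∀ σ : ℂ ≃+* ℂ, (∀ z, aeval z p = 0 → wt x (σ z) = wt x z) ∨
        (∀ z, aeval z p = 0 → wt x (σ z) = -wt x z) := by
      intro σ
      have hσroot : ∀ z, aeval z p = 0 → aeval (σ z) p = 0 := fun z hz => by
        rw [aeval_ringEquiv, hz, map_zero]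
      have hσroot' : ∀ z, aeval z p = 0 → aeval (σ.symm z) p = 0 := fun z hz => by
        rw [aeval_ringEquiv, hz, map_zero]
      have hcnt : ∀ a, cnt (Sum.elim x fun k => σ.symm (x k)) a = cnt x a + cnt x (σ a) := by
        intro a
        unfold cnt
        rw [Fintype.sum_sum_type]
        congr 1
        refine Finset.sum_congr rfl fun k _ => ?_
        rw [Sum.elim_inr]
        congr 1
        rw [eq_iff_iff]
        exact σ.symm_apply_eq
      have hwt' : ∀ a, wt (Sum.elim x fun k => σ.symm (x k)) a = wt x a + wt x (σ a) := by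
        intro a
        unfold wt
        rw [hcnt, hcnt, map_neg]
        ring
      have h11 : ∀ t t' : ℂ, aeval t p = 0 → aeval t' p = 0 →
          |wt x t + wt x (σ t)| = |wt x t' + wt x (σ t')| := by
        intro t t' ht ht'
        rw [← hwt', ← hwt']
        refine abs_wt_const1 hl hodd hg hgpos hp hdeg hneg hdvd hm hf1 hf0 _ (fun k => ?_) ?_
          t t' ht ht'
        · rcases k with k | k
          · exact hx k
          · exact hσroot' _ (hx k)
        · rw [Fintype.sum_sum_type]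
          simp only [Sum.elim_inl, Sum.elim_inr]
          rw [hf3, zero_add, Finset.sum_congr rfl fun k _ => aeval_ringEquiv σ.symm f (x k),
            ← map_sum, hf3, map_zero]
      have h12 : ∀ t : ℂ, aeval t p = 0 → wt x (σ t) = wt x t ∨ wt x (σ t) = -wt x t := by
        intro t ht
        exact abs_eq_abs.1 (hconst _ _ (hσroot t ht) ht)
      by_cases h13 : ∃ t, aeval t p = 0 ∧ wt x (σ t) = wt x t
      · obtain ⟨t1, ht1, ht1'⟩ := h13
        left
        intro t ht
        rcases h12 t ht with h14 | h14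
        · exact h14
        · exfalso
          have h15 := h11 t t1 ht ht1
          rw [h14, ht1', add_neg_cancel, abs_zero, ← two_mul, abs_mul] at h15
          have h16 := hconst t1 a0 ht1 (hTroot a0 ha0)
          rw [h16] at h15
          have h17 : |(2 : ℤ)| = 2 := rfl
          rw [h17] at h15
          omega
      · right
        intro t ht
        rcases h12 t ht with h14 | h14
        · exact absurd ⟨t, ht, h14⟩ h13
        · exact h14
    obtain ⟨q, c, hq1, hq2, hq3⟩ := exists_quad fixed_mem p hp hneg (wt x) (wt_neg x) a0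
      (hTroot a0 ha0) hne hsgn
    exact hq3 (hm q c hq1 hq2)
  rw [sum_on x T hTinj h' hh fun k => Or.inl (hTcov k)]
  refine Finset.sum_eq_zero fun a ha => ?_
  rw [hall a ha, Int.cast_zero, zero_mul]

end Pool.Agent.W5h86.CC
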