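import Mathlib
import Pool.Agent.W5h86.CC.Y

/-! Integer relations between the differences of the terms of a cyclic sequence of prime period:
helper lemma for MP_bf54cf_ag. -/

namespace Pool.Agent.W5h86.CC

open Polynomial Finset

theorem const_cycle {l : ℕ} (hl : l.Prime) (z : ℕ → ℂ) (σ : ℂ →+* ℂ)
    (hz : ∀ j, σ (z j) = z (j + 1)) (hper : ∀ j, z (j + l) = z j) (hne : z 1 ≠ z 0) (w : ℕ → ℤ)
    (hw : ∑ j ∈ Finset.range l, (w j : ℂ) * (z (j + 1) - z j) = 0) :
    ∀ j < l, w j = w 0 := by
  have hl0 : 0 < l := hl.pos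
  -- the differences
  set y : ℕ → ℂ := fun j => z (j + 1) - z j with hy
  have hyz : ∀ j, σ (y j) = y (j + 1) := by
    intro j
    show σ (z (j + 1) - z j) = z (j + 1 + 1) - z (j + 1)
    rw [map_sub, hz, hz]
  have hy0 : y 0 ≠ 0 := by
    show z (0 + 1) - z 0 ≠ 0
    rw [sub_ne_zero]
    exact hne
  set W : ℚ[X] := ∑ j ∈ range l, C (w j : ℚ) * X ^ j with hW
  have hcoef : ∀ j, j < l → W.coeff j = (w j : ℚ) := by
    intro j hj
    rw [hW, finsetSum_coeff]
    simp only [coeff_C_mul, coeff_X_pow]
    rw [Finset.sum_eq_single j]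
    · simp
    · intro b _ hb
      rw [if_neg (Ne.symm hb), mul_zero]
    · intro h
      exact absurd (Finset.mem_range.mpr hj) h
  have hcoef0 : ∀ j, l ≤ j → W.coeff j = 0 := by
    intro j hj
    rw [hW, finsetSum_coeff]
    simp only [coeff_C_mul, coeff_X_pow]
    refine Finset.sum_eq_zero fun b hb => ?_
    have := Finset.mem_range.mp hb
    rw [if_neg (by omega), mul_zero]
  have hdegW : W.natDegree < l := by
    by_contra hcon
    have h1 : W.leadingCoeff = 0 := hcoef0 _ (not_lt.mp hcon)
    rw [leadingCoeff_eq_zero] at h1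
    rw [h1, natDegree_zero] at hcon
    exact hcon hl0
  have hrel : ∀ i, ∑ j ∈ range l, (w j : ℂ) * y (i + j) = 0 := by
    intro i
    induction i with
    | zero => simpa using hw
    | succ i ih =>
      have := congrArg σ ih
      rw [map_sum, map_zero] at this
      rw [← this]
      refine Finset.sum_congr rfl fun j _ => ?_
      rw [map_mul, map_intCast, hyz]
      congr 2
      ring
  have hWy : aeval shiftL W y = 0 := by
    funext i
    rw [hW, map_sum, LinearMap.sum_apply, Finset.sum_apply]
    rw [Pi.zero_apply, ← hrel i]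
    refine Finset.sum_congr rfl fun j _ => ?_
    rw [map_mul, aeval_C, map_pow, aeval_X, Module.End.mul_apply,
      Module.algebraMap_end_apply, Pi.smul_apply, shiftL_pow]
    rw [Algebra.smul_def]
    simp
  have hcyc : cyclotomic l ℚ = ∑ i ∈ range l, (X : ℚ[X]) ^ i := by
    have := Fact.mk hl
    exact Polynomial.cyclotomic_prime ℚ l
  have hPy : aeval shiftL (cyclotomic l ℚ) y = 0 := by
    funext i
    rw [hcyc, map_sum, LinearMap.sum_apply, Finset.sum_apply, Pi.zero_apply]
    have h1 : ∀ j ∈ range l, (aeval shiftL ((X : ℚ[X]) ^ j) y) i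
        = z (i + (j + 1)) - z (i + j) := by
      intro j _
      rw [map_pow, aeval_X, shiftL_pow]
      show z (i + j + 1) - z (i + j) = _
      rw [add_assoc]
    rw [Finset.sum_congr rfl h1, Finset.sum_range_sub (fun j => z (i + j)), add_zero, hper,
      sub_self]
  have hdvd : cyclotomic l ℚ ∣ W := by
    by_contra hnd
    have hcop : IsCoprime (cyclotomic l ℚ) W :=
      ((Polynomial.cyclotomic.irreducible_rat hl0).coprime_iff_not_dvd).mpr hnd
    obtain ⟨u, v, huv⟩ := hcop
    have h1 : aeval shiftL (1 : ℚ[X]) y = 0 := by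
      rw [← huv, map_add, map_mul, map_mul, LinearMap.add_apply, Module.End.mul_apply,
        Module.End.mul_apply, hPy, hWy, map_zero, map_zero, add_zero]
    rw [map_one, Module.End.one_apply] at h1
    exact hy0 (congrFun h1 0)
  obtain ⟨q, hq⟩ := hdvd
  have hq0 : q.natDegree = 0 := by
    by_cases h0 : q = 0
    · rw [h0, natDegree_zero]
    · have h1 : W.natDegree = (cyclotomic l ℚ).natDegree + q.natDegree := by
        rw [hq, natDegree_mul (cyclotomic_ne_zero _ _) h0]
      have h2 : (cyclotomic l ℚ).natDegree = l - 1 := by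
        rw [natDegree_cyclotomic, Nat.totient_prime hl]
      omega
  obtain ⟨c, hc⟩ := natDegree_eq_zero.mp hq0
  have key : ∀ j < l, (w j : ℚ) = c := by
    intro j hj
    rw [← hcoef j hj, hq, ← hc, coeff_mul_C, hcyc, finsetSum_coeff, Finset.sum_eq_single j]
    · rw [coeff_X_pow, if_pos rfl, one_mul]
    · intro b _ hb
      rw [coeff_X_pow, if_neg (Ne.symm hb)]
    · intro h
      exact absurd (Finset.mem_range.mpr hj) h
  intro j hj
  have := (key j hj).trans (key 0 hl0).symm
  exact_mod_cast this

end Pool.Agent.W5h86.CC
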